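import Pool.Agent.Lib.MP_50b720_co.Rep

set_option autoImplicit false

namespace Pool.Agent.Lib.MP_50b720_co

variable {V : Type*}

/-- Connectivity by cuts. -/
def Cn (G : SimpleGraph V) (A : Set V) : Prop :=
  A.Nonempty ∧ ∀ T ⊆ A, T.Nonempty → T ≠ A → ∃ x ∈ T, ∃ y ∈ A \ T, G.Adj x y

/-- the condition for a pair in a chord diagram -/
def PairOK (G : SimpleGraph V) (P Q : V → ℤ) (x y : V) : Prop :=
  P x ≠ P y ∧ P x ≠ Q y ∧ Q x ≠ P y ∧ Q x ≠ Q y ∧ (G.Adj x y ↔ Cross (P x) (Q x) (P y) (Q y))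

lemma PairOK.symm {G : SimpleGraph V} {P Q : V → ℤ} {x y : V} (hx : P x ≠ Q x)
    (hy : P y ≠ Q y) (h : PairOK G P Q x y) : PairOK G P Q y x := by
  obtain ⟨h1, h2, h3, h4, h5⟩ := h
  refine ⟨h1.symm, h3.symm, h2.symm, h4.symm, ?_⟩
  rw [G.adj_comm, h5]
  exact cross_comm _ _ _ _ h1 h2 h3 h4 hx hy

/-- One side of a chord: the chords of `A` and one end of each of `u`, `v`. -/
def IsBlock (G : SimpleGraph V) (A : Set V) (u v : V) (p q : V → ℤ) (a b : ℤ) : Prop :=
  a < b ∧ (∀ x ∈ A, p x ≠ q x ∧ p x ≠ a ∧ p x ≠ b ∧ q x ≠ a ∧ q x ≠ b ∧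
    (G.Adj x u ↔ Btw (p x) (q x) a) ∧ (G.Adj x v ↔ Btw (p x) (q x) b)) ∧
  ∀ x ∈ A, ∀ y ∈ A, x ≠ y → PairOK G p q x y

lemma IsBlock.neg {G : SimpleGraph V} {A : Set V} {u v : V} {p q : V → ℤ} {a b : ℤ}
    (h : IsBlock G A u v p q a b) :
    IsBlock G A u v p q a b := h

/-- extraction of a block with unordered ends -/
lemma exists_preblock [Finite V] {G : SimpleGraph V} {A : Set V} {u v w : V}
    (hc : Circ G (A ∪ {u, v, w})) (hu : u ∉ A) (hv : v ∉ A) (hw : w ∉ A) (huw : G.Adj u w)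
    (hvw : G.Adj v w) (huv : G.Adj u v) (hwA : ∀ x ∈ A, ¬ G.Adj x w) (hA : Cn G A) :
    ∃ (p q : V → ℤ) (a b : ℤ), a ≠ b ∧ (∀ x ∈ A, p x ≠ q x ∧ p x ≠ a ∧ p x ≠ b ∧ q x ≠ a ∧
      q x ≠ b ∧ (G.Adj x u ↔ Btw (p x) (q x) a) ∧ (G.Adj x v ↔ Btw (p x) (q x) b)) ∧
      ∀ x ∈ A, ∀ y ∈ A, x ≠ y → PairOK G p q x y := by
  obtain ⟨p0, q0, h0⟩ := hc
  obtain ⟨p, q, ⟨h1, h2⟩, h3, h4⟩ := h0.exists_min (y := w) (by simp)
  have memA : ∀ x ∈ A, x ∈ A ∪ {u, v, w} := fun x hx => Or.inl hx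
  have mu : u ∈ A ∪ {u, v, w} := by simp
  have mv : v ∈ A ∪ {u, v, w} := by simp
  have mw : w ∈ A ∪ {u, v, w} := by simp
  have side : ∀ x ∈ A, (p x < q w ∧ q x < q w) ∨ (q w < p x ∧ q w < q x) := by
    intro x hx
    have hne : x ≠ w := fun h => hw (h ▸ hx)
    obtain ⟨e1, e2, e3, e4, e5⟩ := h2 x (memA x hx) w mw hne
    obtain ⟨f1, f2⟩ := h4 x (memA x hx) hne
    have := hwA x hx
    rw [e5] at this
    unfold Cross Btw at this; omega
  have uw : (p u < q w ∧ q w < q u) ∨ (q u < q w ∧ q w < p u) := by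
    have hne : u ≠ w := huw.ne
    obtain ⟨e1, e2, e3, e4, e5⟩ := h2 u mu w mw hne
    obtain ⟨f1, f2⟩ := h4 u mu hne
    rw [e5] at huw
    unfold Cross Btw at huw; omega
  have vw : (p v < q w ∧ q w < q v) ∨ (q v < q w ∧ q w < p v) := by
    have hne : v ≠ w := hvw.ne
    obtain ⟨e1, e2, e3, e4, e5⟩ := h2 v mv w mw hne
    obtain ⟨f1, f2⟩ := h4 v mv hne
    rw [e5] at hvw
    unfold Cross Btw at hvw; omega
  have nuv := h2 u mu v mv huv.ne
  have nu : ∀ x ∈ A, _ := fun x hx => h2 x (memA x hx) u mu (fun h => hu (h ▸ hx))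
  have nv : ∀ x ∈ A, _ := fun x hx => h2 x (memA x hx) v mv (fun h => hv (h ▸ hx))
  have pAA : ∀ x ∈ A, ∀ y ∈ A, x ≠ y → PairOK G p q x y :=
    fun x hx y hy hxy => h2 x (memA x hx) y (memA y hy) hxy
  have hall : (∀ x ∈ A, p x < q w ∧ q x < q w) ∨ (∀ x ∈ A, q w < p x ∧ q w < q x) := by
    by_contra hcon
    push Not at hcon
    obtain ⟨⟨x, hx, hx'⟩, y, hy, hy'⟩ := hcon
    have hsx := side x hx
    have hsy := side y hy
    obtain ⟨a, ha, b, hb, hab⟩ := hA.2 {z ∈ A | p z < q w} (fun z hz => hz.1)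
      ⟨y, hy, by omega⟩ (fun h => by
        have h9 := h.symm.subset hx
        have := h9.2; omega)
    have hsa := side a ha.1
    have hsb := side b hb.1
    have h6 : ¬ p b < q w := fun h => hb.2 ⟨hb.1, h⟩
    have h7 := ha.2
    obtain ⟨e1, e2, e3, e4, e5⟩ := pAA a ha.1 b hb.1 hab.ne
    rw [e5] at hab
    unfold Cross Btw at hab; omega
  rcases hall with hall | hall
  · refine ⟨p, q, min (p u) (q u), min (p v) (q v), ?_, ?_, pAA⟩
    · omega
    · intro x hx
      obtain ⟨a1, a2, a3, a4, a5⟩ := nu x hx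
      obtain ⟨b1, b2, b3, b4, b5⟩ := nv x hx
      have c := hall x hx
      have d := h1 x (memA x hx)
      refine ⟨d, by omega, by omega, by omega, by omega, ?_, ?_⟩
      · rw [a5]; unfold Cross Btw; omega
      · rw [b5]; unfold Cross Btw; omega
  · refine ⟨p, q, max (p u) (q u), max (p v) (q v), ?_, ?_, pAA⟩
    · omega
    · intro x hx
      obtain ⟨a1, a2, a3, a4, a5⟩ := nu x hx
      obtain ⟨b1, b2, b3, b4, b5⟩ := nv x hx
      have c := hall x hx
      have d := h1 x (memA x hx)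
      refine ⟨d, by omega, by omega, by omega, by omega, ?_, ?_⟩
      · rw [a5]; unfold Cross Btw; omega
      · rw [b5]; unfold Cross Btw; omega

lemma exists_block [Finite V] {G : SimpleGraph V} {A : Set V} {u v w : V}
    (hc : Circ G (A ∪ {u, v, w})) (hu : u ∉ A) (hv : v ∉ A) (hw : w ∉ A) (huw : G.Adj u w)
    (hvw : G.Adj v w) (huv : G.Adj u v) (hwA : ∀ x ∈ A, ¬ G.Adj x w) (hA : Cn G A) :
    ∃ (p q : V → ℤ) (a b : ℤ), IsBlock G A u v p q a b := by
  obtain ⟨p, q, a, b, h1, h2, h3⟩ := exists_preblock hc hu hv hw huw hvw huv hwA hA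
  rcases lt_or_gt_of_ne h1 with h | h
  · exact ⟨p, q, a, b, h, h2, h3⟩
  · refine ⟨fun x => - p x, fun x => - q x, -a, -b, by omega, ?_, ?_⟩
    · intro x hx
      obtain ⟨e1, e2, e3, e4, e5, e6, e7⟩ := h2 x hx
      beta_reduce
      refine ⟨by omega, by omega, by omega, by omega, by omega, ?_, ?_⟩
      · rw [e6]; unfold Btw; omega
      · rw [e7]; unfold Btw; omega
    · intro x hx y hy hxy
      obtain ⟨e1, e2, e3, e4, e5⟩ := h3 x hx y hy hxy
      unfold PairOK
      beta_reduce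
      refine ⟨by omega, by omega, by omega, by omega, ?_⟩
      rw [e5]; exact (cross_neg _ _ _ _).symm

open Classical in
/-- Gluing two blocks along the edge `uv`, with at most one common neighbour `w` between them. -/
lemma Circ.blocks [Finite V] {G : SimpleGraph V} {A B W : Set V} {u v : V}
    {p q p' q' : V → ℤ} {a b a' b' : ℤ}
    (hA : IsBlock G A u v p q a b) (hB : IsBlock G B u v p' q' a' b')
    (hu : u ∉ A) (hv : v ∉ A) (hu' : u ∉ B) (hv' : v ∉ B)
    (hW : ∀ w ∈ W, ∀ w' ∈ W, w = w')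
    (hw : ∀ w ∈ W, w ∉ A ∧ w ∉ B ∧ G.Adj u w ∧ G.Adj v w ∧ (∀ x ∈ A, ¬ G.Adj x w) ∧
      (∀ x ∈ B, ¬ G.Adj x w))
    (hAB : Disjoint A B) (huv : G.Adj u v)
    (hnAB : ∀ x ∈ A, ∀ y ∈ B, ¬ G.Adj x y) :
    Circ G (A ∪ B ∪ ({u, v} ∪ W)) := by
  obtain ⟨hab, hA1, hA2⟩ := hA
  obtain ⟨hab', hB1, hB2⟩ := hB
  obtain ⟨K1, hK1, hb1⟩ := exists_bound p q
  obtain ⟨K2, hK2, hb2⟩ := exists_bound p' q'
  obtain ⟨K, hK, hb, hb', ha1, ha2, ha3, ha4⟩ : ∃ K : ℤ, 0 < K ∧
      (∀ u, -K < p u ∧ p u < K ∧ -K < q u ∧ q u < K) ∧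
      (∀ u, -K < p' u ∧ p' u < K ∧ -K < q' u ∧ q' u < K) ∧ (-K < a ∧ a < K) ∧
      (-K < b ∧ b < K) ∧ (-K < a' ∧ a' < K) ∧ (-K < b' ∧ b' < K) := by
    have ea := abs_le.mp (le_refl |a|)
    have eb := abs_le.mp (le_refl |b|)
    have ea' := abs_le.mp (le_refl |a'|)
    have eb' := abs_le.mp (le_refl |b'|)
    refine ⟨K1 + K2 + |a| + |b| + |a'| + |b'|, by positivity, fun u => ?_, fun u => ?_, ?_, ?_,
      ?_, ?_⟩
    · have := hb1 u
      omega
    · have := hb2 u
      omega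
    all_goals omega
  have hBA : ∀ y ∈ B, y ∉ A := fun y hy hx => (Set.disjoint_left.mp hAB hx hy)
  have uW : u ∉ W := fun h => (hw u h).2.2.1.ne rfl
  have vW : v ∉ W := fun h => (hw v h).2.2.2.1.ne rfl
  set P : V → ℤ := fun z => if z = u then a else if z = v then b else if z ∈ W then -K else
    if z ∈ A then p z else p' z + 2 * K with hP
  set Q : V → ℤ := fun z => if z = u then a' + 2 * K else if z = v then b' + 2 * K else
    if z ∈ W then K else if z ∈ A then q z else q' z + 2 * K with hQ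
  have Pu : P u = a := by simp [hP]
  have Pv : P v = b := by simp [hP, huv.ne']
  have Pw : ∀ w ∈ W, P w = -K := by
    intro w hw'
    simp [hP, (hw w hw').2.2.1.ne', (hw w hw').2.2.2.1.ne', hw']
  have Qu : Q u = a' + 2 * K := by simp [hQ]
  have Qv : Q v = b' + 2 * K := by simp [hQ, huv.ne']
  have Qw : ∀ w ∈ W, Q w = K := by
    intro w hw'
    simp [hQ, (hw w hw').2.2.1.ne', (hw w hw').2.2.2.1.ne', hw']
  have PA : ∀ x ∈ A, P x = p x := by
    intro x hx
    have h1 : x ≠ u := fun h => hu (h ▸ hx)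
    have h2 : x ≠ v := fun h => hv (h ▸ hx)
    have h3 : x ∉ W := fun h => (hw x h).1 hx
    simp [hP, h1, h2, h3, hx]
  have QA : ∀ x ∈ A, Q x = q x := by
    intro x hx
    have h1 : x ≠ u := fun h => hu (h ▸ hx)
    have h2 : x ≠ v := fun h => hv (h ▸ hx)
    have h3 : x ∉ W := fun h => (hw x h).1 hx
    simp [hQ, h1, h2, h3, hx]
  have PB : ∀ x ∈ B, P x = p' x + 2 * K := by
    intro x hx
    have h1 : x ≠ u := fun h => hu' (h ▸ hx)
    have h2 : x ≠ v := fun h => hv' (h ▸ hx)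
    have h3 : x ∉ W := fun h => (hw x h).2.1 hx
    simp [hP, h1, h2, h3, hBA x hx]
  have QB : ∀ x ∈ B, Q x = q' x + 2 * K := by
    intro x hx
    have h1 : x ≠ u := fun h => hu' (h ▸ hx)
    have h2 : x ≠ v := fun h => hv' (h ▸ hx)
    have h3 : x ∉ W := fun h => (hw x h).2.1 hx
    simp [hQ, h1, h2, h3, hBA x hx]
  have PQ : ∀ x ∈ A ∪ B ∪ ({u, v} ∪ W), P x ≠ Q x := by
    rintro x ((hx | hx) | (hx | hx))
    · rw [PA x hx, QA x hx]; exact (hA1 x hx).1
    · rw [PB x hx, QB x hx]; have := (hB1 x hx).1; omega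
    · simp only [Set.mem_insert_iff, Set.mem_singleton_iff] at hx
      rcases hx with rfl | rfl
      · rw [Pu, Qu]; omega
      · rw [Pv, Qv]; omega
    · rw [Pw x hx, Qw x hx]; omega
  have uv : PairOK G P Q u v := by
    refine ⟨by rw [Pu, Pv]; omega, by rw [Pu, Qv]; omega, by rw [Qu, Pv]; omega,
      by rw [Qu, Qv]; omega, ?_⟩
    rw [Pu, Pv, Qu, Qv]
    simp only [huv, true_iff]; unfold Cross Btw; omega
  have uw : ∀ w ∈ W, PairOK G P Q u w := by
    intro w hw'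
    have huw := (hw w hw').2.2.1
    unfold PairOK
    rw [Pu, Pw w hw', Qu, Qw w hw']
    refine ⟨by omega, by omega, by omega, by omega, ?_⟩
    simp only [huw, true_iff]; unfold Cross Btw; omega
  have vw : ∀ w ∈ W, PairOK G P Q v w := by
    intro w hw'
    have hvw := (hw w hw').2.2.2.1
    unfold PairOK
    rw [Pv, Pw w hw', Qv, Qw w hw']
    refine ⟨by omega, by omega, by omega, by omega, ?_⟩
    simp only [hvw, true_iff]; unfold Cross Btw; omega
  have Au : ∀ x ∈ A, PairOK G P Q x u := by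
    intro x hx
    obtain ⟨e1, e2, e3, e4, e5, e6, e7⟩ := hA1 x hx
    have := hb x
    unfold PairOK
    rw [PA x hx, QA x hx, Pu, Qu]
    refine ⟨by omega, by omega, by omega, by omega, ?_⟩
    rw [e6]; unfold Cross Btw; omega
  have Av : ∀ x ∈ A, PairOK G P Q x v := by
    intro x hx
    obtain ⟨e1, e2, e3, e4, e5, e6, e7⟩ := hA1 x hx
    have := hb x
    unfold PairOK
    rw [PA x hx, QA x hx, Pv, Qv]
    refine ⟨by omega, by omega, by omega, by omega, ?_⟩
    rw [e7]; unfold Cross Btw; omega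
  have Aw : ∀ x ∈ A, ∀ w ∈ W, PairOK G P Q x w := by
    intro x hx w hw'
    have h6 := (hw w hw').2.2.2.2.1 x hx
    have := hb x
    unfold PairOK
    rw [PA x hx, QA x hx, Pw w hw', Qw w hw']
    refine ⟨by omega, by omega, by omega, by omega, ?_⟩
    simp only [h6, false_iff]; unfold Cross Btw; omega
  have Bu : ∀ x ∈ B, PairOK G P Q x u := by
    intro x hx
    obtain ⟨e1, e2, e3, e4, e5, e6, e7⟩ := hB1 x hx
    have := hb' x
    unfold PairOK
    rw [PB x hx, QB x hx, Pu, Qu]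
    refine ⟨by omega, by omega, by omega, by omega, ?_⟩
    rw [e6]; unfold Cross Btw; omega
  have Bv : ∀ x ∈ B, PairOK G P Q x v := by
    intro x hx
    obtain ⟨e1, e2, e3, e4, e5, e6, e7⟩ := hB1 x hx
    have := hb' x
    unfold PairOK
    rw [PB x hx, QB x hx, Pv, Qv]
    refine ⟨by omega, by omega, by omega, by omega, ?_⟩
    rw [e7]; unfold Cross Btw; omega
  have Bw : ∀ x ∈ B, ∀ w ∈ W, PairOK G P Q x w := by
    intro x hx w hw'
    have h6 := (hw w hw').2.2.2.2.2 x hx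
    have := hb' x
    unfold PairOK
    rw [PB x hx, QB x hx, Pw w hw', Qw w hw']
    refine ⟨by omega, by omega, by omega, by omega, ?_⟩
    simp only [h6, false_iff]; unfold Cross Btw; omega
  have AA : ∀ x ∈ A, ∀ y ∈ A, x ≠ y → PairOK G P Q x y := by
    intro x hx y hy hxy
    have := hA2 x hx y hy hxy
    unfold PairOK
    rw [PA x hx, QA x hx, PA y hy, QA y hy]
    exact this
  have BB : ∀ x ∈ B, ∀ y ∈ B, x ≠ y → PairOK G P Q x y := by
    intro x hx y hy hxy
    obtain ⟨e1, e2, e3, e4, e5⟩ := hB2 x hx y hy hxy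
    unfold PairOK
    rw [PB x hx, QB x hx, PB y hy, QB y hy]
    refine ⟨by omega, by omega, by omega, by omega, ?_⟩
    rw [e5]; apply cross_mono <;> omega
  have AB : ∀ x ∈ A, ∀ y ∈ B, PairOK G P Q x y := by
    intro x hx y hy
    have h6 := hnAB x hx y hy
    have := hb x
    have := hb' y
    unfold PairOK
    rw [PA x hx, QA x hx, PB y hy, QB y hy]
    refine ⟨by omega, by omega, by omega, by omega, ?_⟩
    simp only [h6, false_iff]; unfold Cross Btw; omega
  refine ⟨P, Q, PQ, ?_⟩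
  intro x hx y hy hxy
  change PairOK G P Q x y
  have sy : PairOK G P Q y x → PairOK G P Q x y := PairOK.symm (PQ y hy) (PQ x hx)
  have hx' : (x ∈ A ∨ x ∈ B) ∨ ((x = u ∨ x = v) ∨ x ∈ W) := by simpa using hx
  have hy' : (y ∈ A ∨ y ∈ B) ∨ ((y = u ∨ y = v) ∨ y ∈ W) := by simpa using hy
  clear hx hy
  rcases hx' with (hx | hx) | ((hx | hx) | hx) <;> rcases hy' with (hy | hy) | ((hy | hy) | hy)
  · exact AA x hx y hy hxy
  · exact AB x hx y hy
  · subst hy; exact Au x hx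
  · subst hy; exact Av x hx
  · exact Aw x hx y hy
  · exact sy (AB y hy x hx)
  · exact BB x hx y hy hxy
  · subst hy; exact Bu x hx
  · subst hy; exact Bv x hx
  · exact Bw x hx y hy
  · subst hx; exact sy (Au y hy)
  · subst hx; exact sy (Bu y hy)
  · subst hx hy; exact absurd rfl hxy
  · subst hx hy; exact uv
  · subst hx; exact uw y hy
  · subst hx; exact sy (Av y hy)
  · subst hx; exact sy (Bv y hy)
  · subst hx hy; exact sy uv
  · subst hx hy; exact absurd rfl hxy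
  · subst hx; exact vw y hy
  · exact sy (Aw y hy x hx)
  · exact sy (Bw y hy x hx)
  · subst hy; exact sy (uw x hx)
  · subst hy; exact sy (vw x hx)
  · exact absurd (hW x hx y hy) hxy

open Classical in
/-- Chord diagram of a clique `K` with pendant vertices attached to consecutive members in a
cyclic order of odd length. -/
lemma Circ.sun {G : SimpleGraph V} {K D : Set V} (N : ℕ) (hN : Odd N) (hN3 : 3 ≤ N)
    (pos m : V → ℕ) (hpos : ∀ x ∈ K, pos x < N) (hm : ∀ w ∈ D, m w < N)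
    (hpi : ∀ x ∈ K, ∀ y ∈ K, x ≠ y → pos x ≠ pos y)
    (hmi : ∀ x ∈ D, ∀ y ∈ D, x ≠ y → m x ≠ m y) (hd : Disjoint K D)
    (hK : ∀ x ∈ K, ∀ y ∈ K, x ≠ y → G.Adj x y) (hD : ∀ x ∈ D, ∀ y ∈ D, ¬ G.Adj x y)
    (hKD : ∀ w ∈ D, ∀ x ∈ K, (G.Adj w x ↔
      (pos x = m w ∨ pos x = m w + 1 ∨ (m w + 1 = N ∧ pos x = 0)))) : Circ G (K ∪ D) := by
  have hDK : ∀ y ∈ D, y ∉ K := fun y hy hx => (Set.disjoint_left.mp hd hx hy)
  obtain ⟨M, hM⟩ := hN
  set s : V → ℤ := fun w => if m w % 2 = 0 then (m w : ℤ) else (m w : ℤ) + N with hs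
  have hs2 : ∀ w ∈ D, s w % 2 = 0 ∧ (s w = m w ∨ s w = (m w : ℤ) + N) ∧ 0 ≤ s w ∧
      s w < 2 * N := by
    intro w hw
    have := hm w hw
    simp only [hs]
    split_ifs <;> omega
  refine ⟨fun z => if z ∈ K then 4 * (pos z : ℤ) else 4 * s z - 1,
    fun z => if z ∈ K then 4 * ((pos z : ℤ) + N) else 4 * s z + 5, ?_, ?_⟩
  · rintro u (hu | hu)
    · simp only [hu, if_true]; omega
    · simp only [hDK u hu, if_false]; omega
  · rintro u (hu | hu) v (hv | hv) huv
    · simp only [hu, hv, if_true]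
      have h1 := hpi u hu v hv huv
      have h2 := hpos u hu
      have h3 := hpos v hv
      refine ⟨by omega, by omega, by omega, by omega, ?_⟩
      simp only [hK u hu v hv huv, true_iff]
      unfold Cross Btw; omega
    · simp only [hu, hDK v hv, if_true, if_false]
      have h2 := hpos u hu
      have h3 := hm v hv
      obtain ⟨h4, h5, h6⟩ := hs2 v hv
      refine ⟨by omega, by omega, by omega, by omega, ?_⟩
      rw [G.adj_comm, hKD v hv u hu]
      unfold Cross Btw; omega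
    · simp only [hDK u hu, hv, if_true, if_false]
      have h2 := hpos v hv
      have h3 := hm u hu
      obtain ⟨h4, h5, h6⟩ := hs2 u hu
      refine ⟨by omega, by omega, by omega, by omega, ?_⟩
      rw [hKD u hu v hv]
      unfold Cross Btw; omega
    · simp only [hDK u hu, hDK v hv, if_false]
      have h1 := hmi u hu v hv huv
      have h2 := hm u hu
      have h3 := hm v hv
      obtain ⟨h4, h5, h6⟩ := hs2 u hu
      obtain ⟨h4', h5', h6'⟩ := hs2 v hv
      have h7 : s u + 2 ≤ s v ∨ s v + 2 ≤ s u := by omega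
      refine ⟨by omega, by omega, by omega, by omega, ?_⟩
      simp only [hD u hu v hv, false_iff]
      unfold Cross Btw; omega

/-- A path with three vertices. -/
lemma Circ.path3 {G : SimpleGraph V} {a t b : V} (h1 : G.Adj a t) (h2 : G.Adj t b)
    (h3 : ¬ G.Adj a b) (hab : a ≠ b) : Circ G {a, t, b} := by
  classical
  set P : V → ℤ := fun z => if z = a then 0 else if z = t then 1 else 3 with hP
  set Q : V → ℤ := fun z => if z = a then 2 else if z = t then 4 else 5 with hQ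
  have Pa : P a = 0 := by simp [hP]
  have Pt : P t = 1 := by simp [hP, h1.ne']
  have Pb : P b = 3 := by simp [hP, hab.symm, h2.ne']
  have Qa : Q a = 2 := by simp [hQ]
  have Qt : Q t = 4 := by simp [hQ, h1.ne']
  have Qb : Q b = 5 := by simp [hQ, hab.symm, h2.ne']
  have at' : PairOK G P Q a t := by
    unfold PairOK; rw [Pa, Pt, Qa, Qt]; simp only [h1, true_iff]; unfold Cross Btw; omega
  have tb' : PairOK G P Q t b := by
    unfold PairOK; rw [Pb, Pt, Qb, Qt]; simp only [h2, true_iff]; unfold Cross Btw; omega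
  have ab' : PairOK G P Q a b := by
    unfold PairOK; rw [Pb, Pa, Qb, Qa]; simp only [h3, false_iff]; unfold Cross Btw; omega
  have PQ : ∀ x ∈ ({a, t, b} : Set V), P x ≠ Q x := by
    intro x hx
    simp only [Set.mem_insert_iff, Set.mem_singleton_iff] at hx
    rcases hx with rfl | rfl | rfl
    · rw [Pa, Qa]; omega
    · rw [Pt, Qt]; omega
    · rw [Pb, Qb]; omega
  refine ⟨P, Q, PQ, ?_⟩
  intro x hx y hy hxy
  change PairOK G P Q x y
  have sy : PairOK G P Q y x → PairOK G P Q x y := PairOK.symm (PQ y hy) (PQ x hx)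
  simp only [Set.mem_insert_iff, Set.mem_singleton_iff] at hx hy
  rcases hx with rfl | rfl | rfl <;> rcases hy with rfl | rfl | rfl
  · exact absurd rfl hxy
  · exact at'
  · exact ab'
  · exact sy at'
  · exact absurd rfl hxy
  · exact tb'
  · exact sy ab'
  · exact sy tb'
  · exact absurd rfl hxy

end Pool.Agent.Lib.MP_50b720_co
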