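import Pool.Agent.Lib.MP_50b720_co.Struct

set_option autoImplicit false

namespace Pool.Agent.Lib.MP_50b720_co

open SimpleGraph

variable {V : Type*}

/-- embeddings of graphs on `Fin n` from the pairs `i < j` -/
lemma indContained_of_pairs {n : ℕ} {G : SimpleGraph V} (H : SimpleGraph (Fin n)) (f : Fin n → V)
    (h : ∀ i j, i < j → f i ≠ f j ∧ (G.Adj (f i) (f j) ↔ H.Adj i j)) : H ⊴ G := by
  refine ⟨⟨⟨f, ?_⟩, ?_⟩⟩
  · intro i j hij
    rcases lt_trichotomy i j with h1 | h1 | h1
    · exact absurd hij (h i j h1).1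
    · exact h1
    · exact absurd hij.symm (h j i h1).1
  · intro i j
    change G.Adj (f i) (f j) ↔ _
    rcases lt_trichotomy i j with h1 | h1 | h1
    · exact (h i j h1).2
    · subst h1; simp
    · rw [G.adj_comm, H.adj_comm]; exact (h j i h1).2

/-- a closed `R`-walk without repeated vertices -/
lemma path_or_cycle_aux [Finite V] (R : V → V → Prop) (hirr : ∀ x, ¬ R x x)
    (hsym : ∀ x y, R x y → R y x) (S : Set V) (hne : S.Nonempty)
    (h2 : ∀ x ∈ S, ∃ y ∈ S, ∃ z ∈ S, y ≠ z ∧ R x y ∧ R x z) :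
    ∃ n, 3 ≤ n ∧ ∃ c : ℕ → V, (∀ i < n, c i ∈ S) ∧ (∀ i < n, ∀ j < n, c i = c j → i = j) ∧
      (∀ i, i + 1 < n → R (c i) (c (i + 1))) ∧ R (c (n - 1)) (c 0) := by
  classical
  let P : ℕ → Prop := fun n => ∃ c : ℕ → V, (∀ i < n, c i ∈ S) ∧
    (∀ i < n, ∀ j < n, c i = c j → i = j) ∧ (∀ i, i + 1 < n → R (c i) (c (i + 1)))
  have hbound : ∀ n, P n → n ≤ S.ncard := by
    rintro n ⟨c, h1, h3, _⟩
    have : (Finset.image c (Finset.range n) : Set V) ⊆ S := by
      intro x hx
      simp only [Finset.coe_image, Finset.coe_range, Set.mem_image, Set.mem_Iio] at hx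
      obtain ⟨i, hi, rfl⟩ := hx
      exact h1 i hi
    have h4 := Set.ncard_le_ncard this (Set.toFinite _)
    rw [Set.ncard_coe_finset, Finset.card_image_of_injOn, Finset.card_range] at h4
    · exact h4
    · intro i hi j hj hij
      simp only [Finset.coe_range, Set.mem_Iio] at hi hj
      exact h3 i hi j hj hij
  have hP1 : P 1 := by
    obtain ⟨s, hs⟩ := hne
    exact ⟨fun _ => s, fun _ _ => hs, fun i hi j hj _ => by omega, fun i hi => by omega⟩
  obtain ⟨n, hn1, ⟨c, hc1, hc2, hc3⟩, hmax⟩ : ∃ n, 1 ≤ n ∧ P n ∧ ¬ P (n + 1) := by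
    by_contra hcon
    push Not at hcon
    have : ∀ n, 1 ≤ n → P n := by
      intro n hn
      induction n, hn using Nat.le_induction with
      | base => exact hP1
      | succ m hm ih => exact hcon m hm ih
    have := hbound _ (this (S.ncard + 1) (by omega))
    omega
  have hend : ∀ y ∈ S, R (c (n - 1)) y → ∃ i < n, c i = y := by
    intro y hy hR
    by_contra hno
    push Not at hno
    apply hmax
    refine ⟨fun i => if i < n then c i else y, ?_, ?_, ?_⟩
    · intro i _
      by_cases h : i < n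
      · simp only [h, if_true]; exact hc1 i h
      · simp only [h, if_false]; exact hy
    · intro i hi j hj hij
      by_cases h : i < n <;> by_cases h' : j < n
      · simp only [h, h', if_true] at hij; exact hc2 i h j h' hij
      · simp only [h, h', if_true, if_false] at hij; exact absurd hij (hno i h)
      · simp only [h, h', if_true, if_false] at hij; exact absurd hij.symm (hno j h')
      · omega
    · intro i hi
      by_cases h : i + 1 < n
      · have h' : i < n := by omega
        simp only [h, h', if_true]; exact hc3 i h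
      · have h' : i < n := by omega
        simp only [h, h', if_true, if_false]
        have : i = n - 1 := by omega
        rw [this]; exact hR
  obtain ⟨y, hy, z, hz, hyz, hRy, hRz⟩ := h2 _ (hc1 (n - 1) (by omega))
  obtain ⟨i, hi, hiy⟩ := hend y hy hRy
  obtain ⟨j, hj, hjz⟩ := hend z hz hRz
  have hi' : i ≠ n - 1 := by
    intro h; subst h; rw [← hiy] at hRy; exact hirr _ hRy
  have hj' : j ≠ n - 1 := by
    intro h; subst h; rw [← hjz] at hRz; exact hirr _ hRz
  have hij : i ≠ j := by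
    intro h; subst h; exact hyz (hiy.symm.trans hjz)
  -- the smaller index
  obtain ⟨t, ht, hRt⟩ : ∃ t, t + 3 ≤ n ∧ R (c (n - 1)) (c t) := by
    rcases Nat.lt_or_ge i j with h | h
    · exact ⟨i, by omega, by rw [hiy]; exact hRy⟩
    · exact ⟨j, by omega, by rw [hjz]; exact hRz⟩
  refine ⟨n - t, by omega, fun s => c (t + s), fun s hs => hc1 _ (by omega), ?_, ?_, ?_⟩
  · intro a ha b hb hab
    have := hc2 _ (by omega) _ (by omega) hab
    omega
  · intro a ha
    exact hc3 (t + a) (by omega)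
  · have : t + (n - t - 1) = n - 1 := by omega
    simp only [this, add_zero]
    exact hRt

/-- Linear order on a set with a relation of maximum degree two without closed walks. -/
lemma path_or_cycle [Finite V] (R : V → V → Prop) (hirr : ∀ x, ¬ R x x)
    (hsym : ∀ x y, R x y → R y x) (K : Set V)
    (hdeg : ∀ x ∈ K, ∀ y1 ∈ K, ∀ y2 ∈ K, ∀ y3 ∈ K, R x y1 → R x y2 → R x y3 →
      y1 = y2 ∨ y1 = y3 ∨ y2 = y3) :
    (∃ pos : V → ℤ, (∀ x ∈ K, ∀ y ∈ K, x ≠ y → pos x ≠ pos y) ∧
      ∀ x ∈ K, ∀ y ∈ K, R x y → pos y = pos x + 1 ∨ pos x = pos y + 1) ∨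
    ∃ n, 3 ≤ n ∧ ∃ c : ℕ → V, (∀ i < n, c i ∈ K) ∧ (∀ i < n, ∀ j < n, c i = c j → i = j) ∧
      (∀ i, i + 1 < n → R (c i) (c (i + 1))) ∧ R (c (n - 1)) (c 0) := by
  classical
  by_cases hleaf : ∀ S ⊆ K, S.Nonempty → ∃ x ∈ S, ∀ y ∈ S, ∀ z ∈ S, R x y → R x z → y = z
  · left
    -- main claim
    have claim : ∀ S : Set V, S ⊆ K → ∀ b ∈ S, (∀ y ∈ S, ∀ z ∈ S, R b y → R b z → y = z) →
        ∃ pos : V → ℤ, (∀ x ∈ S, ∀ y ∈ S, x ≠ y → pos x ≠ pos y) ∧
          (∀ x ∈ S, ∀ y ∈ S, R x y → pos y = pos x + 1 ∨ pos x = pos y + 1) ∧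
          (∀ x ∈ S, pos x ≤ pos b) := by
      intro S
      induction S using WellFoundedLT.induction with
      | ind S ih =>
        intro hSK b hb hb1
        have hss : S \ {b} ⊂ S := ⟨Set.diff_subset, fun h => (h hb).2 rfl⟩
        -- it suffices to find `pos` on `S \ {b}` with a maximal element `c`, such that the
        -- only possible neighbour of `b` is `c`
        have ext : ∀ (c : V) (pos : V → ℤ), (∀ x ∈ S \ {b}, ∀ y ∈ S \ {b}, x ≠ y →
            pos x ≠ pos y) → (∀ x ∈ S \ {b}, ∀ y ∈ S \ {b}, R x y → pos y = pos x + 1 ∨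
            pos x = pos y + 1) → (∀ x ∈ S \ {b}, pos x ≤ pos c) →
            (∀ y ∈ S \ {b}, R b y → y = c) →
            ∃ pos : V → ℤ, (∀ x ∈ S, ∀ y ∈ S, x ≠ y → pos x ≠ pos y) ∧
              (∀ x ∈ S, ∀ y ∈ S, R x y → pos y = pos x + 1 ∨ pos x = pos y + 1) ∧
              (∀ x ∈ S, pos x ≤ pos b) := by
          intro c pos h1 h2 h3 h4
          set pos' : V → ℤ := fun x => if x = b then pos c + 1 else pos x with hpos'
          have pb : pos' b = pos c + 1 := by simp [hpos']
          have pn : ∀ x, x ≠ b → pos' x = pos x := by intro x hx; simp [hpos', hx]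
          refine ⟨pos', ?_, ?_, ?_⟩
          · intro x hx y hy hxy
            by_cases hxb : x = b <;> by_cases hyb : y = b
            · exact absurd (hxb.trans hyb.symm) hxy
            · rw [hxb, pb, pn y hyb]; have := h3 y ⟨hy, hyb⟩; omega
            · rw [hyb, pb, pn x hxb]; have := h3 x ⟨hx, hxb⟩; omega
            · rw [pn x hxb, pn y hyb]; exact h1 x ⟨hx, hxb⟩ y ⟨hy, hyb⟩ hxy
          · intro x hx y hy hR
            by_cases hxb : x = b <;> by_cases hyb : y = b
            · rw [hxb, hyb] at hR; exact absurd hR (hirr _)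
            · rw [hxb, pb, pn y hyb]
              rw [hxb] at hR
              rw [h4 y ⟨hy, hyb⟩ hR]; omega
            · rw [hyb, pb, pn x hxb]
              rw [hyb] at hR
              rw [h4 x ⟨hx, hxb⟩ (hsym _ _ hR)]; omega
            · rw [pn x hxb, pn y hyb]; exact h2 x ⟨hx, hxb⟩ y ⟨hy, hyb⟩ hR
          · intro x hx
            by_cases hxb : x = b
            · rw [hxb]
            · rw [pb, pn x hxb]; have := h3 x ⟨hx, hxb⟩; omega
        by_cases hnb : ∃ c ∈ S \ {b}, R b c
        · obtain ⟨c, hc, hbc⟩ := hnb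
          obtain ⟨pos, h1, h2, h3⟩ := ih (S \ {b}) hss (Set.diff_subset.trans hSK) c hc (by
            intro y hy z hz hcy hcz
            rcases hdeg c (hSK hc.1) b (hSK hb) y (hSK hy.1) z (hSK hz.1) (hsym _ _ hbc) hcy hcz
              with h | h | h
            · exact absurd h.symm hy.2
            · exact absurd h.symm hz.2
            · exact h)
          exact ext c pos h1 h2 h3 (fun y hy hby => hb1 y hy.1 c hc.1 hby hbc)
        · push Not at hnb
          by_cases hemp : (S \ {b}).Nonempty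
          · obtain ⟨x0, hx0, hx0'⟩ := hleaf (S \ {b}) (Set.diff_subset.trans hSK) hemp
            obtain ⟨pos, h1, h2, h3⟩ := ih (S \ {b}) hss (Set.diff_subset.trans hSK) x0 hx0 hx0'
            exact ext x0 pos h1 h2 h3 (fun y hy hby => absurd hby (hnb y hy))
          · rw [Set.not_nonempty_iff_eq_empty] at hemp
            exact ext b (fun _ => 0) (by rw [hemp]; simp) (by rw [hemp]; simp)
              (by rw [hemp]; simp) (by rw [hemp]; simp)
    by_cases hK : K.Nonempty
    · obtain ⟨x, hx, hx'⟩ := hleaf K le_rfl hK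
      obtain ⟨pos, h1, h2, _⟩ := claim K le_rfl x hx hx'
      exact ⟨pos, h1, h2⟩
    · rw [Set.not_nonempty_iff_eq_empty] at hK
      exact ⟨fun _ => 0, by rw [hK]; simp, by rw [hK]; simp⟩
  · right
    push Not at hleaf
    obtain ⟨S, hSK, hne, hS⟩ := hleaf
    obtain ⟨n, hn, c, h1, h2, h3, h4⟩ := path_or_cycle_aux R hirr hsym S hne (by
      intro x hx
      obtain ⟨y, hy, z, hz, hxy, hxz, hyz⟩ := hS x hx
      exact ⟨y, hy, z, hz, hyz, hxy, hxz⟩)
    exact ⟨n, hn, c, fun i hi => hSK (h1 i hi), h2, h3, h4⟩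

/-- The cycle indexed by `ZMod n`. -/
lemma zmod_cycle {R : V → V → Prop} {K : Set V} {n : ℕ} (hn : 3 ≤ n) {c : ℕ → V}
    (h1 : ∀ i < n, c i ∈ K) (h2 : ∀ i < n, ∀ j < n, c i = c j → i = j)
    (h3 : ∀ i, i + 1 < n → R (c i) (c (i + 1))) (h4 : R (c (n - 1)) (c 0)) :
    ∃ c' : ZMod n → V, (∀ i, c' i ∈ K) ∧ Function.Injective c' ∧
      ∀ i, R (c' i) (c' (i + 1)) := by
  have : NeZero n := ⟨by omega⟩
  refine ⟨fun i => c i.val, fun i => h1 _ (ZMod.val_lt i), ?_, ?_⟩
  · intro i j hij
    exact ZMod.val_injective n (h2 _ (ZMod.val_lt i) _ (ZMod.val_lt j) hij)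
  · intro i
    have hv := ZMod.val_lt i
    have h1v : (1 : ZMod n).val = 1 := by
      rw [ZMod.val_one_eq_one_mod, Nat.mod_eq_of_lt (by omega)]
    by_cases h : i.val + 1 < n
    · have : (i + 1).val = i.val + 1 := by
        rw [ZMod.val_add, h1v, Nat.mod_eq_of_lt h]
      simp only [this]
      exact h3 _ h
    · have : (i + 1).val = 0 := by
        rw [ZMod.val_add, h1v]
        have : i.val + 1 = n := by omega
        rw [this, Nat.mod_self]
      simp only [this]
      have h5 : i.val = n - 1 := by omega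
      rw [h5]; exact h4

end Pool.Agent.Lib.MP_50b720_co
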