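import Mathlib

set_option autoImplicit false

namespace Pool.Agent.Lib.MP_50b720_co

open SimpleGraph

/-- `G` is a circle graph: to every vertex one can assign a chord of the unit circle (the segment
between two distinct points of the circle) such that distinct vertices are adjacent exactly when
their chords intersect. -/
def IsCircleGraph {V : Type*} (G : SimpleGraph V) : Prop :=
  ∃ a b : V → Circle, (∀ v, a v ≠ b v) ∧
    ∀ u v, u ≠ v → (G.Adj u v ↔
      (segment ℝ (a u : ℂ) (b u : ℂ) ∩ segment ℝ (a v : ℂ) (b v : ℂ)).Nonempty)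

/-- `G` is chordal: it has no induced cycle of length at least four. -/
def IsChordal {V : Type*} (G : SimpleGraph V) : Prop :=
  ∀ n, 4 ≤ n → ¬ (cycleGraph n).IsIndContained G

/-- `G` is minimally non-circle: it is not a circle graph, but every proper induced subgraph is. -/
def IsMinNonCircle {V : Type*} (G : SimpleGraph V) : Prop :=
  ¬ IsCircleGraph G ∧ ∀ S : Set V, S ≠ Set.univ → IsCircleGraph (G.induce S)

/-- `K₅` minus one edge. -/
def K5e : SimpleGraph (Fin 5) := (⊤ : SimpleGraph (Fin 5)).deleteEdges {s(0, 1)}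

/-- The clique `0, 1, 2, 3` with three further vertices `4, 5, 6` of degree two,
attached to the edges `01`, `02`, `03`. -/
def starK4 : SimpleGraph (Fin 7) := SimpleGraph.fromRel fun a b => (a, b) ∈
  ([(0, 1), (0, 2), (0, 3), (1, 2), (1, 3), (2, 3), (4, 0), (4, 1), (5, 0), (5, 2), (6, 0),
    (6, 3)] : List (Fin 7 × Fin 7))

/-- The edge `01` with three common neighbours `2, 3, 4`; further vertices `5, 6, 7` of degree two
attached to the edges `02`, `03`, `04`. -/
def bookA : SimpleGraph (Fin 8) := SimpleGraph.fromRel fun a b => (a, b) ∈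
  ([(0, 1), (0, 2), (0, 3), (0, 4), (1, 2), (1, 3), (1, 4), (5, 0), (5, 2), (6, 0), (6, 3),
    (7, 0), (7, 4)] : List (Fin 8 × Fin 8))

/-- The edge `01` with three common neighbours `2, 3, 4`; further vertices `5, 6, 7` of degree two
attached to the edges `02`, `03`, `14`. -/
def bookB : SimpleGraph (Fin 8) := SimpleGraph.fromRel fun a b => (a, b) ∈
  ([(0, 1), (0, 2), (0, 3), (0, 4), (1, 2), (1, 3), (1, 4), (5, 0), (5, 2), (6, 0), (6, 3),
    (7, 1), (7, 4)] : List (Fin 8 × Fin 8))

/-- The `k`-sun (`k ≥ 3`): a clique `v i = inl i` and vertices `w i = inr i`, where `w i` is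
adjacent to exactly `v i` and `v (i + 1)` (indices modulo `k`). -/
def sun (k : ℕ) : SimpleGraph (ZMod k ⊕ ZMod k) := SimpleGraph.fromRel fun a b =>
  (∃ i j, a = Sum.inl i ∧ b = Sum.inl j) ∨ ∃ i, a = Sum.inr i ∧ (b = Sum.inl i ∨
    b = Sum.inl (i + 1))

/-- The `k`-sun with center: the `k`-sun `inl (some i)`, `inr i` and one more vertex
`inl none`, adjacent to exactly the vertices `inl (some i)`. -/
def centeredSun (k : ℕ) : SimpleGraph (Option (ZMod k) ⊕ ZMod k) := SimpleGraph.fromRel fun a b =>
  (∃ i j, a = Sum.inl i ∧ b = Sum.inl j) ∨ ∃ i, a = Sum.inr i ∧ (b = Sum.inl (some i) ∨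
    b = Sum.inl (some (i + 1)))

end Pool.Agent.Lib.MP_50b720_co
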