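import Pool.Agent.Lib.MP_50b720_co.Main

set_option autoImplicit false

namespace Pool.Agent.Lib.MP_50b720_co

open SimpleGraph

variable {V : Type*}

lemma Circ.clique [Finite V] {G : SimpleGraph V} {K : Set V}
    (hK : ∀ x ∈ K, ∀ y ∈ K, x ≠ y → G.Adj x y) : Circ G K := by
  obtain ⟨n, ⟨e⟩⟩ := Finite.exists_equiv_fin V
  have := Circ.sun (G := G) (K := K) (D := ∅) (2 * n + 3) ⟨n + 1, by ring⟩ (by omega)
    (fun x => (e x).val) (fun _ => 0) (fun x _ => by have := (e x).isLt; omega) (by simp)
    (fun x _ y _ hxy h => hxy (e.injective (Fin.ext h))) (by simp) (by simp) hK (by simp) (by simp)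
  simpa using this

lemma EarAt.of {G : SimpleGraph V} {U : Set V} {w u v x y : V} (h : EarAt G U w u v)
    (hx : x ∈ U) (hy : y ∈ U) (hxy : x ≠ y) (hwx : G.Adj w x) (hwy : G.Adj w y) :
    EarAt G U w x y := by
  obtain ⟨hu, hv, huv, hz⟩ := h
  rcases (hz x hx).mp hwx with rfl | rfl <;> rcases (hz y hy).mp hwy with rfl | rfl
  · exact absurd rfl hxy
  · exact ⟨hu, hv, huv, hz⟩
  · exact ⟨hv, hu, huv.symm, fun z hz' => by rw [hz z hz']; tauto⟩
  · exact absurd rfl hxy

lemma EarAt.third {G : SimpleGraph V} {U : Set V} {w u v x y z : V} (h : EarAt G U w u v)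
    (hx : x ∈ U) (hy : y ∈ U) (hz : z ∈ U) (hxy : x ≠ y) (hwx : G.Adj w x) (hwy : G.Adj w y)
    (hwz : G.Adj w z) : z = x ∨ z = y :=
  ((h.of hx hy hxy hwx hwy).2.2.2 z hz).mp hwz

/-- cyclic successor in `ZMod n` in terms of representatives -/
lemma zmod_succ_iff {n : ℕ} (hn : 3 ≤ n) [NeZero n] (i j : ZMod n) :
    (j = i ∨ j = i + 1) ↔
      (j.val = i.val ∨ j.val = i.val + 1 ∨ (i.val + 1 = n ∧ j.val = 0)) := by
  have hv := ZMod.val_lt i
  have hj := ZMod.val_lt j
  have h1v : (1 : ZMod n).val = 1 := by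
    rw [ZMod.val_one_eq_one_mod, Nat.mod_eq_of_lt (by omega)]
  have hinj : ∀ a b : ZMod n, a = b ↔ a.val = b.val := fun a b =>
    ⟨fun h => by rw [h], fun h => ZMod.val_injective n h⟩
  rw [hinj j i, hinj j (i + 1)]
  by_cases h : i.val + 1 < n
  · have : (i + 1).val = i.val + 1 := by
      rw [ZMod.val_add, h1v, Nat.mod_eq_of_lt h]
    rw [this]; omega
  · have : (i + 1).val = 0 := by
      rw [ZMod.val_add, h1v]
      have : i.val + 1 = n := by omega
      rw [this, Nat.mod_self]
    rw [this]; omega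

theorem MinNC.false [Finite V] {G : SimpleGraph V} {U : Set V} (hG : Good G)
    (h : MinNC G U) : False := by
  classical
  set D : Set V := {w ∈ U | ∃ u v, EarAt G U w u v} with hD
  set K : Set V := U \ D with hKdef
  have hDU : ∀ w ∈ D, w ∈ U := fun w hw => hw.1
  have hKU : ∀ w ∈ K, w ∈ U := fun w hw => hw.1
  have hDK : ∀ w ∈ D, ∀ x ∈ K, w ≠ x := fun w hw x hx h' => hx.2 (h' ▸ hw)
  have hK : ∀ x ∈ K, ∀ y ∈ K, x ≠ y → G.Adj x y := by
    intro x hx y hy hxy
    by_contra hno
    rcases h.ear hG (hKU x hx) (hKU y hy) hxy hno with h' | h'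
    · exact hx.2 ⟨hKU x hx, h'⟩
    · exact hy.2 ⟨hKU y hy, h'⟩
  have hnc : ¬ ∀ x ∈ U, ∀ y ∈ U, x ≠ y → G.Adj x y := fun h' => h.nc (Circ.clique h')
  have hDD : ∀ w ∈ D, ∀ w' ∈ D, ¬ G.Adj w w' := by
    intro w hw w' hw' hadj
    obtain ⟨u, v0, he⟩ := hw.2
    obtain ⟨v, hv⟩ : ∃ v, EarAt G U w w' v := by
      rcases (he.2.2.2 w' hw'.1).mp hadj with rfl | rfl
      · exact ⟨v0, he⟩
      · exact ⟨u, he.2.1, he.1, he.2.2.1.symm, fun z hz => by rw [he.2.2.2 z hz]; tauto⟩
    obtain ⟨u', v', he'⟩ := hw'.2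
    obtain ⟨v'', hv''⟩ : ∃ v, EarAt G U w' w v := by
      rcases (he'.2.2.2 w hw.1).mp hadj.symm with rfl | rfl
      · exact ⟨v', he'⟩
      · exact ⟨u', he'.2.1, he'.1, he'.2.2.1.symm, fun z hz => by rw [he'.2.2.2 z hz]; tauto⟩
    have hvv : v'' = v := by
      have h1 : G.Adj w v'' := hv''.2.2.1
      rcases (hv.2.2.2 v'' hv''.2.1).mp h1 with h2 | h2
      · have : G.Adj w' v'' := (hv''.2.2.2 v'' hv''.2.1).mpr (Or.inr rfl)
        exact absurd h2.symm this.ne
      · exact h2
    subst hvv
    have hwv : G.Adj w v'' := hv''.2.2.1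
    have hwv' : G.Adj w' v'' := hv.2.2.1
    have hun : ({w, w'} : Set V) ∪ (U \ {w, w'}) = U := Set.union_diff_cancel (by
      intro z hz
      rcases hz with rfl | hz
      · exact hw.1
      · rw [Set.mem_singleton_iff] at hz; subst hz; exact hw'.1)
    by_cases hy1 : ∃ y1 ∈ U \ {w, w'}, y1 ≠ v''
    · obtain ⟨y1, hy1, hy1'⟩ := hy1
      refine h.split (x0 := w) (x1 := w') (y0 := v'') (y1 := y1) hun Set.disjoint_sdiff_right
        (by simp) ⟨hv.2.1, by simp [hwv.ne', hwv'.ne']⟩ (by simp) hadj.ne' hy1 hy1' ?_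
      intro x hx y hy
      have hy2 := hy.2
      simp only [Set.mem_insert_iff, Set.mem_singleton_iff, not_or] at hy2
      rcases hx with rfl | hx
      · tauto
      · rw [Set.mem_singleton_iff] at hx; subst hx
        rw [hv.2.2.2 y hy.1, hv''.2.2.2 y hy.1]
        tauto
    · push Not at hy1
      apply hnc
      have hU : ∀ z ∈ U, z = w ∨ z = w' ∨ z = v'' := by
        intro z hz
        by_cases h1 : z = w
        · exact Or.inl h1
        · by_cases h2 : z = w'
          · exact Or.inr (Or.inl h2)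
          · exact Or.inr (Or.inr (hy1 z ⟨hz, by simp [h1, h2]⟩))
      intro x hx y hy hxy
      rcases hU x hx with rfl | rfl | rfl <;> rcases hU y hy with rfl | rfl | rfl
      · exact absurd rfl hxy
      · exact hadj
      · exact hwv
      · exact hadj.symm
      · exact absurd rfl hxy
      · exact hwv'
      · exact hwv.symm
      · exact hwv'.symm
      · exact absurd rfl hxy
  -- ears have their neighbours in `K`
  have hear : ∀ w ∈ D, ∃ u ∈ K, ∃ v ∈ K, EarAt G U w u v := by
    intro w hw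
    obtain ⟨u, v, he⟩ := hw.2
    have hwu : G.Adj w u := (he.2.2.2 u he.1).mpr (Or.inl rfl)
    have hwv : G.Adj w v := (he.2.2.2 v he.2.1).mpr (Or.inr rfl)
    exact ⟨u, ⟨he.1, fun h' => hDD w hw u h' hwu⟩, v, ⟨he.2.1, fun h' => hDD w hw v h' hwv⟩, he⟩
  have hthird : ∀ w ∈ D, ∀ x ∈ K, ∀ y ∈ K, ∀ z ∈ K, x ≠ y → G.Adj w x → G.Adj w y →
      G.Adj w z → z = x ∨ z = y := by
    intro w hw x hx y hy z hz hxy h1 h2 h3
    obtain ⟨u, v, he⟩ := hw.2
    exact he.third (hKU x hx) (hKU y hy) (hKU z hz) hxy h1 h2 h3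
  have hdist : ∀ w ∈ D, ∀ w' ∈ D, ∀ x ∈ K, ∀ y ∈ K, x ≠ y → G.Adj w x → G.Adj w y →
      G.Adj w' x → G.Adj w' y → w = w' := by
    intro w hw w' hw' x hx y hy hxy h1 h2 h3 h4
    by_contra hne
    obtain ⟨u, v, he⟩ := hw.2
    obtain ⟨u', v', he'⟩ := hw'.2
    exact h.twins hw.1 hw'.1 hne (he.of (hKU x hx) (hKU y hy) hxy h1 h2)
      (he'.of (hKU x hx) (hKU y hy) hxy h3 h4)
  have hKD : K ∪ D = U := Set.diff_union_of_subset (fun w hw => hw.1)
  have hdisKD : Disjoint K D := Set.disjoint_sdiff_left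
  set R : V → V → Prop := fun x y => x ≠ y ∧ x ∈ K ∧ y ∈ K ∧ ∃ w ∈ D, G.Adj w x ∧ G.Adj w y
    with hR
  have hRirr : ∀ x, ¬ R x x := fun x h' => h'.1 rfl
  have hRsym : ∀ x y, R x y → R y x := by
    rintro x y ⟨h1, h2, h3, w, hw, h4, h5⟩
    exact ⟨h1.symm, h3, h2, w, hw, h5, h4⟩
  have hdeg : ∀ x ∈ K, ∀ y1 ∈ K, ∀ y2 ∈ K, ∀ y3 ∈ K, R x y1 → R x y2 → R x y3 →
      y1 = y2 ∨ y1 = y3 ∨ y2 = y3 := by
    rintro x hx y1 hy1 y2 hy2 y3 hy3 ⟨g1, _, _, w1, hw1, a1, b1⟩ ⟨g2, _, _, w2, hw2, a2, b2⟩
      ⟨g3, _, _, w3, hw3, a3, b3⟩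
    by_contra hcon
    push Not at hcon
    obtain ⟨d12, d13, d23⟩ := hcon
    have na : ∀ w ∈ D, ∀ y ∈ K, ∀ z ∈ K, G.Adj w x → G.Adj w y → x ≠ y → z ≠ x → z ≠ y →
        NA G z w := by
      intro w hw y hy z hz hwx hwy hxy hzx hzy
      refine ⟨(hDK w hw z hz).symm, fun h' => ?_⟩
      rcases hthird w hw x hx y hy z hz hxy hwx hwy h'.symm with h2 | h2
      · exact hzx h2
      · exact hzy h2
    have n15 := na w2 hw2 y2 hy2 y1 hy1 a2 b2 g2 g1.symm d12
    have n16 := na w3 hw3 y3 hy3 y1 hy1 a3 b3 g3 g1.symm d13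
    have n24 := na w1 hw1 y1 hy1 y2 hy2 a1 b1 g1 g2.symm d12.symm
    have n26 := na w3 hw3 y3 hy3 y2 hy2 a3 b3 g3 g2.symm d23
    have n34 := na w1 hw1 y1 hy1 y3 hy3 a1 b1 g1 g3.symm d13.symm
    have n35 := na w2 hw2 y2 hy2 y3 hy3 a2 b2 g2 g3.symm d23.symm
    refine starK4_false hG (v0 := x) (v1 := y1) (v2 := y2) (v3 := y3) (w1 := w1) (w2 := w2)
      (w3 := w3) (hK x hx y1 hy1 g1) (hK x hx y2 hy2 g2) (hK x hx y3 hy3 g3)
      (hK y1 hy1 y2 hy2 d12) (hK y1 hy1 y3 hy3 d13) (hK y2 hy2 y3 hy3 d23) a1.symm a2.symm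
      a3.symm b1.symm n15 n16 n24 b2.symm n26 n34 n35 b3.symm ?_ ?_ ?_
    · exact ⟨fun h' => n15.2 (h' ▸ b1.symm), hDD w1 hw1 w2 hw2⟩
    · exact ⟨fun h' => n16.2 (h' ▸ b1.symm), hDD w1 hw1 w3 hw3⟩
    · exact ⟨fun h' => n26.2 (h' ▸ b2.symm), hDD w2 hw2 w3 hw3⟩
  rcases path_or_cycle R hRirr hRsym K hdeg with ⟨pos, hp1, hp2⟩ | ⟨n, hn, c0, hc1, hc2, hc3, hc4⟩
  · -- linear case
    obtain ⟨K0, hK0, hb⟩ := exists_bound pos pos
    set pos' : V → ℕ := fun x => (pos x + K0).toNat with hpos'
    have hcast : ∀ x, (pos' x : ℤ) = pos x + K0 := by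
      intro x
      have := hb x
      simp only [hpos']
      omega
    have hinj : ∀ x ∈ K, ∀ y ∈ K, pos' x = pos' y → x = y := by
      intro x hx y hy hxy
      by_contra hne
      have := hp1 x hx y hy hne
      have e1 := hcast x
      have e2 := hcast y
      omega
    have hex : ∀ w, ∃ mw : ℕ, w ∈ D → (mw + 1 < 2 * K0.toNat + 1 ∧ (∀ x ∈ K, (G.Adj w x ↔
        (pos' x = mw ∨ pos' x = mw + 1))) ∧ ∃ x ∈ K, ∃ y ∈ K, x ≠ y ∧ pos' x = mw ∧
        pos' y = mw + 1) := by
      intro w
      by_cases hw : w ∈ D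
      · obtain ⟨u, hu, v, hv, he⟩ := hear w hw
        have hwu : G.Adj w u := (he.2.2.2 u he.1).mpr (Or.inl rfl)
        have hwv : G.Adj w v := (he.2.2.2 v he.2.1).mpr (Or.inr rfl)
        have hRuv : R u v := ⟨he.2.2.1.ne, hu, hv, w, hw, hwu, hwv⟩
        have bu := hb u
        have bv := hb v
        have cu := hcast u
        have cv := hcast v
        rcases hp2 u hu v hv hRuv with hq | hq
        · refine ⟨pos' u, fun _ => ⟨by omega, ?_, u, hu, v, hv, he.2.2.1.ne, rfl, by omega⟩⟩
          intro x hx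
          rw [he.2.2.2 x (hKU x hx)]
          constructor
          · rintro (rfl | rfl)
            · exact Or.inl rfl
            · right; omega
          · rintro (h' | h')
            · exact Or.inl (hinj x hx u hu h')
            · exact Or.inr (hinj x hx v hv (by omega))
        · refine ⟨pos' v, fun _ => ⟨by omega, ?_, v, hv, u, hu, he.2.2.1.ne', rfl, by omega⟩⟩
          intro x hx
          rw [he.2.2.2 x (hKU x hx)]
          constructor
          · rintro (rfl | rfl)
            · right; omega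
            · exact Or.inl rfl
          · rintro (h' | h')
            · exact Or.inr (hinj x hx v hv h')
            · exact Or.inl (hinj x hx u hu (by omega))
      · exact ⟨0, fun h' => absurd h' hw⟩
    choose m hm using hex
    apply h.nc
    rw [← hKD]
    refine Circ.sun (2 * K0.toNat + 1) ⟨K0.toNat, rfl⟩ (by omega) pos' m ?_ ?_ ?_ ?_ hdisKD hK
      hDD ?_
    · intro x _
      have := hb x
      have := hcast x
      omega
    · intro w hw
      have := (hm w hw).1
      omega
    · intro x hx y hy hxy h'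
      exact hxy (hinj x hx y hy h')
    · intro w hw w' hw' hne hmm
      obtain ⟨_, f1, x, hx, y, hy, hxy, ex, ey⟩ := hm w hw
      obtain ⟨_, f1', _⟩ := hm w' hw'
      exact hne (hdist w hw w' hw' x hx y hy hxy ((f1 x hx).mpr (Or.inl ex))
        ((f1 y hy).mpr (Or.inr ey)) ((f1' x hx).mpr (Or.inl (by omega)))
        ((f1' y hy).mpr (Or.inr (by omega))))
    · intro w hw x hx
      obtain ⟨f0, f1, _⟩ := hm w hw
      rw [f1 x hx]
      omega
  · -- cyclic case
    have : NeZero n := ⟨by omega⟩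
    have h1n := one_ne (k := n) hn
    have h2n := two_ne (k := n) hn
    obtain ⟨c, hcK, hcinj, hcR⟩ := zmod_cycle (K := K) hn hc1 hc2 hc3 hc4
    have hwex : ∀ i, ∃ w ∈ D, G.Adj w (c i) ∧ G.Adj w (c (i + 1)) := fun i => (hcR i).2.2.2
    choose w hwD hw1 hw2 using hwex
    have hcne : ∀ i, c i ≠ c (i + 1) := fun i => (hcR i).1
    have hwadj : ∀ i, ∀ x ∈ K, (G.Adj (w i) x ↔ (x = c i ∨ x = c (i + 1))) := by
      intro i x hx
      constructor
      · intro h'
        exact hthird (w i) (hwD i) (c i) (hcK i) (c (i + 1)) (hcK _) x hx (hcne i) (hw1 i)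
          (hw2 i) h'
      · rintro (rfl | rfl)
        · exact hw1 i
        · exact hw2 i
    have hwinj : Function.Injective w := by
      intro i j hij
      have e1 := (hwadj i (c j) (hcK j)).mp (hij ▸ hw1 j)
      have e2 := (hwadj i (c (j + 1)) (hcK _)).mp (hij ▸ hw2 j)
      rcases e1 with e1 | e1
      · exact (hcinj e1).symm
      · have f1 := hcinj e1
        rcases e2 with e2 | e2
        · have f2 := hcinj e2
          exact absurd (show (2 : ZMod n) = 0 by linear_combination f2 - f1) h2n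
        · have f2 := hcinj e2
          exact absurd (show (1 : ZMod n) = 0 by linear_combination f2 - f1) h1n
    have hcc : ∀ i j, G.Adj (c i) (c j) ↔ i ≠ j := by
      intro i j
      constructor
      · intro h' hij; subst hij; exact h'.ne rfl
      · intro hij; exact hK _ (hcK i) _ (hcK j) (fun h' => hij (hcinj h'))
    have hwc : ∀ i j, G.Adj (w i) (c j) ↔ (j = i ∨ j = i + 1) := by
      intro i j
      rw [hwadj i (c j) (hcK j)]
      constructor
      · rintro (h' | h')
        · exact Or.inl (hcinj h')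
        · exact Or.inr (hcinj h')
      · rintro (rfl | rfl)
        · exact Or.inl rfl
        · exact Or.inr rfl
    have hww : ∀ i j, ¬ G.Adj (w i) (w j) := fun i j => hDD _ (hwD i) _ (hwD j)
    have hwcne : ∀ i j, w i ≠ c j := fun i j => hDK _ (hwD i) _ (hcK j)
    rcases Nat.even_or_odd n with he | ho
    · -- even sun
      have hn4 : 4 ≤ n := by
        obtain ⟨r, hr⟩ := he
        omega
      apply hG.sn n hn4 he
      refine ⟨⟨⟨Sum.elim c w, ?_⟩, ?_⟩⟩
      · rintro (i | i) (j | j) hij
        · exact congrArg Sum.inl (hcinj hij)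
        · exact absurd hij.symm (hwcne j i)
        · exact absurd hij (hwcne i j)
        · exact congrArg Sum.inr (hwinj hij)
      · rintro (i | i) (j | j)
        · change G.Adj (c i) (c j) ↔ _
          rw [sun_vv, hcc]
        · change G.Adj (c i) (w j) ↔ _
          rw [G.adj_comm, (sun n).adj_comm, sun_wv, hwc]
        · change G.Adj (w i) (c j) ↔ _
          rw [sun_wv, hwc]
        · change G.Adj (w i) (w j) ↔ _
          exact iff_of_false (hww i j) (sun_ww i j)
    · by_cases hz : ∃ z ∈ K, ∀ i, c i ≠ z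
      · -- centered sun
        obtain ⟨z, hzK, hz⟩ := hz
        apply hG.cs n hn ho
        have hcz : ∀ i, G.Adj (c i) z := fun i => hK _ (hcK i) z hzK (hz i)
        have hwz : ∀ i, ¬ G.Adj (w i) z := by
          intro i h'
          rcases (hwadj i z hzK).mp h' with h'' | h''
          · exact hz i h''.symm
          · exact hz (i + 1) h''.symm
        refine ⟨⟨⟨Sum.elim (fun o => o.elim z c) w, ?_⟩, ?_⟩⟩
        · rintro ((_ | i) | i) ((_ | j) | j) hij
          · rfl
          · exact absurd hij.symm (hz j)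
          · exact absurd hij.symm (hDK _ (hwD j) z hzK)
          · exact absurd hij (hz i)
          · exact congrArg (fun t => Sum.inl (some t)) (hcinj hij)
          · exact absurd hij.symm (hwcne j i)
          · exact absurd hij (hDK _ (hwD i) z hzK)
          · exact absurd hij (hwcne i j)
          · exact congrArg Sum.inr (hwinj hij)
        · rintro ((_ | i) | i) ((_ | j) | j)
          · change G.Adj z z ↔ _
            simp
          · change G.Adj z (c j) ↔ _
            rw [csun_vv]; simp [(hcz j).symm]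
          · change G.Adj z (w j) ↔ _
            rw [G.adj_comm, (centeredSun n).adj_comm, csun_wv]; simp [hwz j]
          · change G.Adj (c i) z ↔ _
            rw [csun_vv]; simp [hcz i]
          · change G.Adj (c i) (c j) ↔ _
            rw [csun_vv, hcc]; simp
          · change G.Adj (c i) (w j) ↔ _
            rw [G.adj_comm, (centeredSun n).adj_comm, csun_wv, hwc]; simp
          · change G.Adj (w i) z ↔ _
            rw [csun_wv]; simp [hwz i]
          · change G.Adj (w i) (c j) ↔ _
            rw [csun_wv, hwc]; simp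
          · change G.Adj (w i) (w j) ↔ _
            exact iff_of_false (hww i j) (csun_ww i j)
      · -- odd sun: a chord diagram
        push Not at hz
        have hidx : ∀ x, ∃ i : ZMod n, x ∈ K → c i = x := by
          intro x
          by_cases hx : x ∈ K
          · obtain ⟨i, hi⟩ := hz x hx
            exact ⟨i, fun _ => hi⟩
          · exact ⟨0, fun h' => absurd h' hx⟩
        choose idx hidx using hidx
        have hmex : ∀ w', ∃ i : ZMod n, w' ∈ D → (G.Adj w' (c i) ∧ G.Adj w' (c (i + 1))) := by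
          intro w'
          by_cases hw' : w' ∈ D
          · obtain ⟨u, hu, v, hv, he⟩ := hear w' hw'
            have hwu : G.Adj w' u := (he.2.2.2 u he.1).mpr (Or.inl rfl)
            have hwv : G.Adj w' v := (he.2.2.2 v he.2.1).mpr (Or.inr rfl)
            have hRuv : R u v := ⟨he.2.2.1.ne, hu, hv, w', hw', hwu, hwv⟩
            have h3 : R (c (idx u)) (c (idx u - 1)) := by
              apply hRsym
              have := hcR (idx u - 1)
              rw [sub_add_cancel] at this
              exact this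
            rw [hidx u hu] at h3
            have h4 := hcR (idx u)
            rw [hidx u hu] at h4
            rcases hdeg u hu (c (idx u + 1)) (hcK _) (c (idx u - 1)) (hcK _) v hv h4 h3 hRuv with
              h5 | h5 | h5
            · have := hcinj h5
              exact absurd (show (2 : ZMod n) = 0 by linear_combination this) h2n
            · refine ⟨idx u, fun _ => ⟨by rw [hidx u hu]; exact hwu, by rw [h5]; exact hwv⟩⟩
            · refine ⟨idx u - 1, fun _ => ⟨by rw [h5]; exact hwv, ?_⟩⟩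
              rw [sub_add_cancel, hidx u hu]; exact hwu
          · exact ⟨0, fun h' => absurd h' hw'⟩
        choose m hm using hmex
        apply h.nc
        rw [← hKD]
        refine Circ.sun n ho hn (fun x => (idx x).val) (fun w' => (m w').val)
          (fun x _ => ZMod.val_lt _) (fun w' _ => ZMod.val_lt _) ?_ ?_ hdisKD hK hDD ?_
        · intro x hx y hy hxy h'
          have := ZMod.val_injective n h'
          exact hxy (by rw [← hidx x hx, ← hidx y hy, this])
        · intro a ha b hb hab h'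
          have hmm := ZMod.val_injective n h'
          have ha' := hm a ha
          have hb' := hm b hb
          rw [hmm] at ha'
          exact hab (hdist a ha b hb _ (hcK _) _ (hcK _) (hcne _) ha'.1 ha'.2 hb'.1 hb'.2)
        · intro a ha x hx
          have ha' := hm a ha
          rw [← zmod_succ_iff hn]
          constructor
          · intro h'
            rcases hthird a ha _ (hcK (m a)) _ (hcK (m a + 1)) x hx (hcne _) ha'.1 ha'.2 h' with
              h'' | h''
            · left; exact hcinj ((hidx x hx).trans h'')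
            · right; exact hcinj ((hidx x hx).trans h'')
          · rintro (h' | h')
            · rw [← hidx x hx, h']; exact ha'.1
            · rw [← hidx x hx, h']; exact ha'.2

/-- The main theorem: all induced subgraphs have chord diagrams. -/
theorem Good.circ [Finite V] {G : SimpleGraph V} (hG : Good G) (U : Set V) : Circ G U := by
  induction U using WellFoundedLT.induction with
  | ind U ih =>
    by_contra hnc
    exact MinNC.false hG ⟨hnc, ih⟩

end Pool.Agent.Lib.MP_50b720_co
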