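import Pool.Agent.Lib.MP_50b720_co.Naji
import Pool.Agent.Lib.MP_50b720_co.Defs

set_option autoImplicit false

namespace Pool.Agent.Lib.MP_50b720_co

open SimpleGraph

instance : DecidableRel starK4.Adj := by unfold starK4; infer_instance
instance : DecidableRel bookA.Adj := by unfold bookA; infer_instance
instance : DecidableRel bookB.Adj := by unfold bookB; infer_instance
instance : DecidableRel K5e.Adj := by unfold K5e; infer_instance

lemma zmod2_cancel (a b : ZMod 2) : a + b + b = a := by
  revert a b; decide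

lemma starK4_not_circ : ¬ Circ starK4 Set.univ := by
  intro h
  obtain ⟨β, n1, n2, n3⟩ := h.naji
  have e1 := n3 0 4 5 (by decide) (by decide) (by decide) (by decide)
  have e2 := n3 0 4 6 (by decide) (by decide) (by decide) (by decide)
  have e3 := n3 0 5 6 (by decide) (by decide) (by decide) (by decide)
  have a1 := n2 4 5 2 (by decide) (by decide) (by decide) (by decide) (by decide)
  have a2 := n2 4 2 3 (by decide) (by decide) (by decide) (by decide) (by decide)
  have a3 := n2 4 3 6 (by decide) (by decide) (by decide) (by decide) (by decide)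
  have b1 := n2 5 4 1 (by decide) (by decide) (by decide) (by decide) (by decide)
  have b2 := n2 5 1 3 (by decide) (by decide) (by decide) (by decide) (by decide)
  have b3 := n2 5 3 6 (by decide) (by decide) (by decide) (by decide) (by decide)
  have c1 := n2 6 4 1 (by decide) (by decide) (by decide) (by decide) (by decide)
  have c2 := n2 6 1 2 (by decide) (by decide) (by decide) (by decide) (by decide)
  have c3 := n2 6 2 5 (by decide) (by decide) (by decide) (by decide) (by decide)
  rw [a1, a2, a3, b1, b2, b3] at e1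
  rw [c1, c2, c3] at e2
  generalize β 4 6 = x at *
  generalize β 5 6 = y at *
  generalize β 6 5 = z at *
  generalize β 0 4 = r at *
  generalize β 0 5 = s at *
  generalize β 0 6 = t at *
  clear a1 a2 a3 b1 b2 b3 c1 c2 c3 n1 n2 n3
  revert e1 e2 e3
  revert x y z r s t
  decide

lemma bookA_not_circ : ¬ Circ bookA Set.univ := by
  intro h
  obtain ⟨β, n1, n2, n3⟩ := h.naji
  have e1 := n3 0 5 6 (by decide) (by decide) (by decide) (by decide)
  have e2 := n3 0 5 7 (by decide) (by decide) (by decide) (by decide)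
  have e3 := n3 0 6 7 (by decide) (by decide) (by decide) (by decide)
  have a1 := n2 5 6 3 (by decide) (by decide) (by decide) (by decide) (by decide)
  have a2 := n2 5 3 1 (by decide) (by decide) (by decide) (by decide) (by decide)
  have a3 := n2 5 1 4 (by decide) (by decide) (by decide) (by decide) (by decide)
  have a4 := n2 5 4 7 (by decide) (by decide) (by decide) (by decide) (by decide)
  have b1 := n2 6 5 2 (by decide) (by decide) (by decide) (by decide) (by decide)
  have b2 := n2 6 2 1 (by decide) (by decide) (by decide) (by decide) (by decide)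
  have b3 := n2 6 1 4 (by decide) (by decide) (by decide) (by decide) (by decide)
  have b4 := n2 6 4 7 (by decide) (by decide) (by decide) (by decide) (by decide)
  have c1 := n2 7 5 2 (by decide) (by decide) (by decide) (by decide) (by decide)
  have c2 := n2 7 2 1 (by decide) (by decide) (by decide) (by decide) (by decide)
  have c3 := n2 7 1 3 (by decide) (by decide) (by decide) (by decide) (by decide)
  have c4 := n2 7 3 6 (by decide) (by decide) (by decide) (by decide) (by decide)
  rw [a1, a2, a3, a4, b1, b2, b3, b4] at e1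
  rw [c1, c2, c3, c4] at e2
  generalize β 5 7 = x at *
  generalize β 6 7 = y at *
  generalize β 7 6 = z at *
  generalize β 0 5 = r at *
  generalize β 0 6 = s at *
  generalize β 0 7 = t at *
  clear a1 a2 a3 a4 b1 b2 b3 b4 c1 c2 c3 c4 n1 n2 n3
  revert e1 e2 e3
  revert x y z r s t
  decide

lemma bookB_not_circ : ¬ Circ bookB Set.univ := by
  intro h
  obtain ⟨β, n1, n2, n3⟩ := h.naji
  -- `4` is the middle one
  have e1 := n3 0 5 6 (by decide) (by decide) (by decide) (by decide)
  have e2 := n3 0 4 5 (by decide) (by decide) (by decide) (by decide)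
  have e3 := n3 0 4 6 (by decide) (by decide) (by decide) (by decide)
  -- `β 5 *` and `β 6 *` are constant
  have a1 := n2 5 6 3 (by decide) (by decide) (by decide) (by decide) (by decide)
  have a2 := n2 5 3 1 (by decide) (by decide) (by decide) (by decide) (by decide)
  have a3 := n2 5 1 4 (by decide) (by decide) (by decide) (by decide) (by decide)
  have b1 := n2 6 5 2 (by decide) (by decide) (by decide) (by decide) (by decide)
  have b2 := n2 6 2 1 (by decide) (by decide) (by decide) (by decide) (by decide)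
  have b3 := n2 6 1 4 (by decide) (by decide) (by decide) (by decide) (by decide)
  -- `β 4 5 = β 4 2`, `β 4 6 = β 4 3`
  have c1 := n2 4 5 2 (by decide) (by decide) (by decide) (by decide) (by decide)
  have c2 := n2 4 6 3 (by decide) (by decide) (by decide) (by decide) (by decide)
  -- at `1`
  have f1 := n3 1 2 7 (by decide) (by decide) (by decide) (by decide)
  have f2 := n3 1 3 7 (by decide) (by decide) (by decide) (by decide)
  have f3 := n3 1 2 3 (by decide) (by decide) (by decide) (by decide)
  have f4 := n3 1 2 4 (by decide) (by decide) (by decide) (by decide)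
  have f5 := n3 1 3 4 (by decide) (by decide) (by decide) (by decide)
  have g1 := n2 2 7 4 (by decide) (by decide) (by decide) (by decide) (by decide)
  have g2 := n2 3 7 4 (by decide) (by decide) (by decide) (by decide) (by decide)
  -- `β 7 *` is constant
  have i1 := n2 7 2 0 (by decide) (by decide) (by decide) (by decide) (by decide)
  have i2 := n2 7 0 3 (by decide) (by decide) (by decide) (by decide) (by decide)
  rw [a1, a2, a3, b1, b2, b3] at e1
  rw [c1] at e2
  rw [c2] at e3
  rw [i1, i2, g1] at f1
  rw [g2] at f2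
  have e4 : β 4 2 + β 4 3 = 1 := by
    clear f1 f2 f3 f4 f5 g1 g2 i1 i2 c1 c2 a1 a2 a3 b1 b2 b3 n1 n2 n3
    generalize β 4 2 = x1 at *
    generalize β 4 3 = x2 at *
    generalize β 5 4 = x3 at *
    generalize β 6 4 = x4 at *
    generalize β 0 5 = x5 at *
    generalize β 0 6 = x6 at *
    generalize β 0 4 = x7 at *
    revert e1 e2 e3
    revert x1 x2 x3 x4 x5 x6 x7
    decide
  have f6 : β 2 4 + β 3 4 + β 2 3 + β 3 2 = 1 := by
    clear f4 f5 g1 g2 i1 i2 c1 c2 a1 a2 a3 b1 b2 b3 n1 n2 n3 e1 e2 e3 e4
    generalize β 2 4 = x1 at *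
    generalize β 3 4 = x2 at *
    generalize β 2 3 = x3 at *
    generalize β 3 2 = x4 at *
    generalize β 7 3 = x5 at *
    generalize β 1 2 = x6 at *
    generalize β 1 7 = x7 at *
    generalize β 1 3 = x8 at *
    revert f1 f2 f3
    revert x1 x2 x3 x4 x5 x6 x7 x8
    decide
  clear f1 f2 g1 g2 i1 i2 c1 c2 a1 a2 a3 b1 b2 b3 n1 n2 n3 e1 e2 e3
  generalize β 2 4 = x1 at *
  generalize β 4 2 = y1 at *
  generalize β 3 4 = x2 at *
  generalize β 4 3 = y2 at *
  generalize β 2 3 = x3 at *
  generalize β 3 2 = x4 at *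
  generalize β 1 2 = x6 at *
  generalize β 1 4 = x7 at *
  generalize β 1 3 = x8 at *
  revert f3 f4 f5 f6 e4
  revert x1 y1 x2 y2 x3 x4 x6 x7 x8
  decide

section sun

variable {k : ℕ}

lemma sun_vv (i j : ZMod k) : (sun k).Adj (Sum.inl i) (Sum.inl j) ↔ i ≠ j := by
  simp [sun]

lemma sun_wv (i j : ZMod k) : (sun k).Adj (Sum.inr i) (Sum.inl j) ↔ (j = i ∨ j = i + 1) := by
  simp [sun]

lemma sun_ww (i j : ZMod k) : ¬ (sun k).Adj (Sum.inr i) (Sum.inr j) := by
  simp [sun]

lemma csun_vv (i j : Option (ZMod k)) :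
    (centeredSun k).Adj (Sum.inl i) (Sum.inl j) ↔ i ≠ j := by
  simp [centeredSun]

lemma csun_wv (i : ZMod k) (j : Option (ZMod k)) :
    (centeredSun k).Adj (Sum.inr i) (Sum.inl j) ↔ (j = some i ∨ j = some (i + 1)) := by
  simp [centeredSun]

lemma csun_ww (i j : ZMod k) : ¬ (centeredSun k).Adj (Sum.inr i) (Sum.inr j) := by
  simp [centeredSun]

lemma natCast_ne_zero_of_lt {n : ℕ} (h0 : 0 < n) (h : n < k) : ((n : ℕ) : ZMod k) ≠ 0 := by
  intro h1
  rw [ZMod.natCast_eq_zero_iff] at h1
  exact absurd (Nat.le_of_dvd h0 h1) (by omega)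

lemma one_ne (h : 3 ≤ k) : (1 : ZMod k) ≠ 0 := by
  have := natCast_ne_zero_of_lt (k := k) (n := 1) (by norm_num) (by omega)
  simpa using this

lemma two_ne (h : 3 ≤ k) : (2 : ZMod k) ≠ 0 := by
  have := natCast_ne_zero_of_lt (k := k) (n := 2) (by norm_num) (by omega)
  simpa using this

lemma three_ne (h : 4 ≤ k) : (3 : ZMod k) ≠ 0 := by
  have := natCast_ne_zero_of_lt (k := k) (n := 3) (by norm_num) (by omega)
  simpa using this

lemma sum_shift [NeZero k] (f : ZMod k → ZMod 2) : ∑ i, f (i + 1) = ∑ i, f i :=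
  Equiv.sum_comp (Equiv.addRight (1 : ZMod k)) f

lemma zmod2_add_self (a : ZMod 2) : a + a = 0 := by revert a; decide

theorem centeredSun_not_circ (hk : 3 ≤ k) (ho : Odd k) :
    ¬ Circ (centeredSun k) Set.univ := by
  intro h
  have : NeZero k := ⟨by omega⟩
  obtain ⟨β, n1, n2, n3⟩ := h.naji
  have h1 := one_ne hk
  have h2 := two_ne hk
  set v : ZMod k → Option (ZMod k) ⊕ ZMod k := fun i => Sum.inl (some i) with hv
  set w : ZMod k → Option (ZMod k) ⊕ ZMod k := fun i => Sum.inr i with hw
  set c : Option (ZMod k) ⊕ ZMod k := Sum.inl none with hc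
  have vv : ∀ i j, (centeredSun k).Adj (v i) (v j) ↔ i ≠ j := by
    intro i j; simp [hv, csun_vv]
  have vc : ∀ i, (centeredSun k).Adj (v i) c := by
    intro i; simp [hv, hc, csun_vv]
  have wv : ∀ i j, (centeredSun k).Adj (w i) (v j) ↔ (j = i ∨ j = i + 1) := by
    intro i j; simp [hv, hw, csun_wv]
  have wc : ∀ i, ¬ (centeredSun k).Adj (w i) c := by
    intro i; simp [hw, hc, csun_wv]
  have ww : ∀ i j, ¬ (centeredSun k).Adj (w i) (w j) := fun i j => csun_ww i j
  have wne : ∀ i j, i ≠ j → w i ≠ w j := by intro i j hij h; exact hij (by simpa [hw] using h)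
  have wvne : ∀ i j, w i ≠ v j := by intro i j; simp [hw, hv]
  have wcne : ∀ i, w i ≠ c := by intro i; simp [hw, hc]
  -- the constants
  have k1 : ∀ i, β (w i) (w (i + 1)) = β (w i) c := by
    intro i
    have a1 := n2 (w i) c (v (i + 2)) (wcne i) (wvne _ _) (wc i)
      (by rw [wv]; rintro (h | h)
          · exact h2 (by linear_combination h)
          · exact h1 (by linear_combination h)) (vc _).symm
    have a2 := n2 (w i) (w (i + 1)) (v (i + 2)) (wne _ _ (by intro h; exact h1 (by linear_combination -h)))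
      (wvne _ _) (ww _ _)
      (by rw [wv]; rintro (h | h)
          · exact h2 (by linear_combination h)
          · exact h1 (by linear_combination h)) (by rw [wv]; right; ring)
    rw [a1, a2]
  have k2 : ∀ i, β (w (i + 1)) (w i) = β (w (i + 1)) c := by
    intro i
    have a1 := n2 (w (i + 1)) c (v i) (wcne _) (wvne _ _) (wc _)
      (by rw [wv]; rintro (h | h)
          · exact h1 (by linear_combination -h)
          · exact h2 (by linear_combination -h)) (vc _).symm
    have a2 := n2 (w (i + 1)) (w i) (v i) (wne _ _ (by intro h; exact h1 (by linear_combination h)))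
      (wvne _ _) (ww _ _)
      (by rw [wv]; rintro (h | h)
          · exact h1 (by linear_combination -h)
          · exact h2 (by linear_combination -h)) (by rw [wv]; left; rfl)
    rw [a1, a2]
  have ea : ∀ i, β (w i) c + β c (w i) + β (v i) (w i) + β (v i) c = 1 := fun i =>
    n3 (v i) (w i) c (((wv _ _).mpr (Or.inl rfl)).symm) (vc i) (wc i) (wcne i)
  have eb : ∀ i, β (w i) c + β c (w i) + β (v (i + 1)) (w i) + β (v (i + 1)) c = 1 := fun i =>
    n3 (v (i + 1)) (w i) c (((wv _ _).mpr (Or.inr rfl)).symm) (vc _) (wc i) (wcne i)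
  have ec : ∀ i, β (w i) c + β (w (i + 1)) c + β (v (i + 1)) (w i) +
      β (v (i + 1)) (w (i + 1)) = 1 := by
    intro i
    have := n3 (v (i + 1)) (w i) (w (i + 1)) (((wv _ _).mpr (Or.inr rfl)).symm)
      (((wv _ _).mpr (Or.inl rfl)).symm) (ww _ _) (wne _ _ (by intro h; exact h1 (by linear_combination -h)))
    rw [k1, k2] at this
    exact this
  have s1 : ∑ i, (β (v i) (w i) + β (v (i + 1)) (w i)) = 0 := by
    have : ∀ i, β (v i) (w i) + β (v (i + 1)) (w i) = β (v i) c + β (v (i + 1)) c := by
      intro i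
      have a := ea i
      have b := eb i
      generalize β (w i) c = x1 at *
      generalize β c (w i) = x2 at *
      generalize β (v i) (w i) = x3 at *
      generalize β (v i) c = x4 at *
      generalize β (v (i + 1)) (w i) = x5 at *
      generalize β (v (i + 1)) c = x6 at *
      revert a b
      clear ea eb ec k1 k2 n1 n2 n3
      revert x1 x2 x3 x4 x5 x6
      decide
    rw [Finset.sum_congr rfl (fun i _ => this i), Finset.sum_add_distrib,
      sum_shift (fun i => β (v i) c), zmod2_add_self]
  have s2 : ∑ i : ZMod k, (β (w i) c + β (w (i + 1)) c + β (v (i + 1)) (w i) +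
      β (v (i + 1)) (w (i + 1))) = 1 := by
    rw [Finset.sum_congr rfl (fun i _ => ec i), Finset.sum_const, Finset.card_univ, ZMod.card,
      nsmul_eq_mul, mul_one]
    obtain ⟨m, rfl⟩ := ho
    push_cast
    have : (2 : ZMod 2) = 0 := by decide
    rw [this]; ring
  rw [Finset.sum_add_distrib, Finset.sum_add_distrib, Finset.sum_add_distrib,
    sum_shift (fun i => β (w i) c), sum_shift (fun i => β (v i) (w i)), zmod2_add_self] at s2
  rw [Finset.sum_add_distrib] at s1
  rw [zero_add, add_comm, s1] at s2
  exact absurd s2 (by decide)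

theorem sun_not_circ (hk : 4 ≤ k) (he : Even k) : ¬ Circ (sun k) Set.univ := by
  intro h
  have : NeZero k := ⟨by omega⟩
  obtain ⟨β, n1, n2, n3⟩ := h.naji
  have h1 := one_ne (k := k) (by omega)
  have h2 := two_ne (k := k) (by omega)
  have h3 := three_ne (k := k) hk
  set v : ZMod k → ZMod k ⊕ ZMod k := fun i => Sum.inl i with hv
  set w : ZMod k → ZMod k ⊕ ZMod k := fun i => Sum.inr i with hw
  have vv : ∀ i j, (sun k).Adj (v i) (v j) ↔ i ≠ j := by
    intro i j; simp [hv, sun_vv]
  have wv : ∀ i j, (sun k).Adj (w i) (v j) ↔ (j = i ∨ j = i + 1) := by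
    intro i j; simp [hv, hw, sun_wv]
  have ww : ∀ i j, ¬ (sun k).Adj (w i) (w j) := fun i j => sun_ww i j
  have wne : ∀ i j, i ≠ j → w i ≠ w j := by intro i j hij h; exact hij (by simpa [hw] using h)
  have wvne : ∀ i j, w i ≠ v j := by intro i j; simp [hw, hv]
  have k1 : ∀ i, β (w i) (w (i + 1)) = β (w i) (v (i + 2)) := by
    intro i
    exact n2 (w i) (w (i + 1)) (v (i + 2)) (wne _ _ (by intro h; exact h1 (by linear_combination -h)))
      (wvne _ _) (ww _ _)
      (by rw [wv]; rintro (h | h)
          · exact h2 (by linear_combination h)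
          · exact h1 (by linear_combination h)) (by rw [wv]; right; ring)
  have k2 : ∀ i, β (w (i + 1)) (w i) = β (w (i + 1)) (v (i + 1 + 2)) := by
    intro i
    have a1 := n2 (w (i + 1)) (w i) (v i) (wne _ _ (by intro h; exact h1 (by linear_combination h)))
      (wvne _ _) (ww _ _)
      (by rw [wv]; rintro (h | h)
          · exact h1 (by linear_combination -h)
          · exact h2 (by linear_combination -h)) (by rw [wv]; left; rfl)
    have a2 := n2 (w (i + 1)) (v i) (v (i + 1 + 2)) (wvne _ _) (wvne _ _)
      (by rw [wv]; rintro (h | h)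
          · exact h1 (by linear_combination -h)
          · exact h2 (by linear_combination -h))
      (by rw [wv]; rintro (h | h)
          · exact h2 (by linear_combination h)
          · exact h1 (by linear_combination h))
      (by rw [vv]; intro h; exact h3 (by linear_combination -h))
    rw [a1, a2]
  have ec : ∀ i, β (w i) (v (i + 2)) + β (w (i + 1)) (v (i + 1 + 2)) + β (v (i + 1)) (w i) +
      β (v (i + 1)) (w (i + 1)) = 1 := by
    intro i
    have := n3 (v (i + 1)) (w i) (w (i + 1)) (((wv _ _).mpr (Or.inr rfl)).symm)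
      (((wv _ _).mpr (Or.inl rfl)).symm) (ww _ _) (wne _ _ (by intro h; exact h1 (by linear_combination -h)))
    rw [k1, k2] at this
    exact this
  set d : ZMod k → ZMod 2 := fun i => β (v i) (w i) + β (v (i + 1)) (w i) with hd
  have er : ∀ i j, j ≠ i → j ≠ i + 1 → β (v i) (v j) + β (v (i + 1)) (v j) = d i := by
    intro i j hi hj
    have a := n3 (v i) (w i) (v j) (((wv _ _).mpr (Or.inl rfl)).symm) ((vv _ _).mpr hi.symm)
      (by rw [wv]; tauto) (wvne _ _)
    have b := n3 (v (i + 1)) (w i) (v j) (((wv _ _).mpr (Or.inr rfl)).symm)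
      ((vv _ _).mpr hj.symm) (by rw [wv]; tauto) (wvne _ _)
    simp only [hd]
    generalize β (w i) (v j) = x1 at *
    generalize β (v j) (w i) = x2 at *
    generalize β (v i) (w i) = x3 at *
    generalize β (v i) (v j) = x4 at *
    generalize β (v (i + 1)) (w i) = x5 at *
    generalize β (v (i + 1)) (v j) = x6 at *
    revert a b
    clear ec k1 k2 n1 n2 n3 d hd
    revert x1 x2 x3 x4 x5 x6
    decide
  have s2 : ∑ i : ZMod k, (β (w i) (v (i + 2)) + β (w (i + 1)) (v (i + 1 + 2)) +
      β (v (i + 1)) (w i) + β (v (i + 1)) (w (i + 1))) = 0 := by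
    rw [Finset.sum_congr rfl (fun i _ => ec i), Finset.sum_const, Finset.card_univ, ZMod.card,
      nsmul_eq_mul, mul_one]
    obtain ⟨m, rfl⟩ := he
    push_cast
    exact zmod2_add_self _
  rw [Finset.sum_add_distrib, Finset.sum_add_distrib, Finset.sum_add_distrib,
    sum_shift (fun i => β (w i) (v (i + 2))), sum_shift (fun i => β (v i) (w i)),
    zmod2_add_self, zero_add] at s2
  have sd : ∑ i, d i = 0 := by
    simp only [hd]
    rw [Finset.sum_add_distrib, add_comm]
    exact s2
  have ee : ∀ j, d (j - 1) + d j + β (v (j - 1)) (v j) + β (v (j + 1)) (v j) = 0 := by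
    intro j
    have hne : j - 1 ≠ j := by intro h; exact h1 (by linear_combination -h)
    have t1 : ∑ l, (β (v l) (v j) + β (v (l + 1)) (v j) + d l) = 0 := by
      rw [Finset.sum_add_distrib, Finset.sum_add_distrib, sum_shift (fun l => β (v l) (v j)),
        zmod2_add_self, sd, zero_add]
    have t2 : ∑ l ∈ ({j - 1, j} : Finset (ZMod k)), (β (v l) (v j) + β (v (l + 1)) (v j) + d l)
        = ∑ l, (β (v l) (v j) + β (v (l + 1)) (v j) + d l) := by
      apply Finset.sum_subset (Finset.subset_univ _)
      intro l _ hl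
      simp only [Finset.mem_insert, Finset.mem_singleton, not_or] at hl
      rw [er l j (fun h => hl.2 h.symm) (fun h => hl.1 (by linear_combination -h))]
      exact zmod2_add_self _
    rw [t1, Finset.sum_pair hne] at t2
    have t3 : j - 1 + 1 = j := by ring
    rw [t3] at t2
    generalize β (v (j - 1)) (v j) = x1 at *
    generalize β (v j) (v j) = x2 at *
    generalize d (j - 1) = x3 at *
    generalize d j = x4 at *
    generalize β (v (j + 1)) (v j) = x5 at *
    clear ec k1 k2 n1 n2 n3 er s2 sd t1
    revert t2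
    revert x1 x2 x3 x4 x5
    decide
  have g1 := ee 1
  have g2 := ee 2
  have r1 := er 1 0 h1.symm (by intro h; exact h2 (by linear_combination -h))
  have r2 := er 0 2 h2 (by intro h; exact h1 (by linear_combination h))
  have m1 := n1 (v 0) (v 1) ((vv _ _).mpr h1.symm)
  have m2 := n1 (v 1) (v 2) ((vv _ _).mpr (by intro h; exact h1 (by linear_combination -h)))
  have m3 := n1 (v 0) (v 2) ((vv _ _).mpr h2.symm)
  have q1 : (1 : ZMod k) - 1 = 0 := by ring
  have q2 : (2 : ZMod k) - 1 = 1 := by ring
  have q3 : (1 : ZMod k) + 1 = 2 := by ring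
  have q4 : (0 : ZMod k) + 1 = 1 := by ring
  rw [q1, q3] at g1
  rw [q2] at g2
  rw [q3] at r1
  rw [q4] at r2
  generalize β (v 0) (v 1) = x1 at *
  generalize β (v 1) (v 0) = x2 at *
  generalize β (v 1) (v 2) = x3 at *
  generalize β (v 2) (v 1) = x4 at *
  generalize β (v 0) (v 2) = x5 at *
  generalize β (v 2) (v 0) = x6 at *
  generalize β (v (2 + 1)) (v 2) = x7 at *
  generalize d 0 = y0 at *
  generalize d 1 = y1 at *
  generalize d 2 = y2 at *
  clear ec k1 k2 n1 n2 n3 er s2 sd ee
  have hz : ∀ a b : ZMod 2, a + b = 1 → b = 1 + a := by decide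
  have hx2 : x2 = 1 + x1 := hz _ _ m1
  have hx4 : x4 = 1 + x3 := hz _ _ m2
  have hx6 : x6 = 1 + x5 := hz _ _ m3
  rw [← r1, ← r2, hx2, hx4, hx6] at g1
  rw [← r1, hx2, hx6] at g2
  clear m1 m2 m3 r1 r2 hx2 hx4 hx6 hz
  revert g1 g2
  revert x1 x3 x5 x7 y2
  decide

end sun

end Pool.Agent.Lib.MP_50b720_co
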