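import Pool.Agent.Lib.MP_50b720_co.Comb
import Pool.Agent.Lib.MP_50b720_co.NonCircle

set_option autoImplicit false

namespace Pool.Agent.Lib.MP_50b720_co

open SimpleGraph

variable {V : Type*}

/-- The class of graphs considered, without the forbidden induced subgraphs. -/
structure Good (G : SimpleGraph V) : Prop where
  chordal : IsChordal G
  k5e : ¬ K5e ⊴ G
  s4 : ¬ starK4 ⊴ G
  bA : ¬ bookA ⊴ G
  bB : ¬ bookB ⊴ G
  sn : ∀ k, 4 ≤ k → Even k → ¬ sun k ⊴ G
  cs : ∀ k, 3 ≤ k → Odd k → ¬ centeredSun k ⊴ G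

/-- distinct and nonadjacent -/
def NA (G : SimpleGraph V) (x y : V) : Prop := x ≠ y ∧ ¬ G.Adj x y

lemma NA.symm {G : SimpleGraph V} {x y : V} (h : NA G x y) : NA G y x :=
  ⟨h.1.symm, fun h' => h.2 h'.symm⟩

/-- `w, x ∈ C`, where `w` is adjacent to `u, v, x` and `x` is adjacent to `u` but not to `v` -/
def Tt (G : SimpleGraph V) (u v : V) (C : Set V) : Prop :=
  ∃ w ∈ C, ∃ x ∈ C, G.Adj w u ∧ G.Adj w v ∧ G.Adj x w ∧ G.Adj x u ∧ ¬ G.Adj x v

lemma bookA_false {G : SimpleGraph V} (hG : Good G) {u v : V} {C1 C2 C3 : Set V}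
    (huv : G.Adj u v) (hv1 : v ∉ C1) (hv2 : v ∉ C2) (hv3 : v ∉ C3)
    (h12 : ∀ x ∈ C1, ∀ y ∈ C2, NA G x y) (h13 : ∀ x ∈ C1, ∀ y ∈ C3, NA G x y)
    (h23 : ∀ x ∈ C2, ∀ y ∈ C3, NA G x y) (t1 : Tt G u v C1) (t2 : Tt G u v C2)
    (t3 : Tt G u v C3) : False := by
  obtain ⟨w1, hw1, x1, hx1, a1, b1, c1, d1, f1⟩ := t1
  obtain ⟨w2, hw2, x2, hx2, a2, b2, c2, d2, f2⟩ := t2
  obtain ⟨w3, hw3, x3, hx3, a3, b3, c3, d3, f3⟩ := t3
  have e01 := huv
  have e02 := a1.symm
  have e03 := a2.symm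
  have e04 := a3.symm
  have e05 := d1.symm
  have e06 := d2.symm
  have e07 := d3.symm
  have e12 := b1.symm
  have e13 := b2.symm
  have e14 := b3.symm
  have n15 : NA G v x1 := ⟨fun h => hv1 (h ▸ hx1), fun h => f1 h.symm⟩
  have n16 : NA G v x2 := ⟨fun h => hv2 (h ▸ hx2), fun h => f2 h.symm⟩
  have n17 : NA G v x3 := ⟨fun h => hv3 (h ▸ hx3), fun h => f3 h.symm⟩
  have n23 := h12 w1 hw1 w2 hw2
  have n24 := h13 w1 hw1 w3 hw3
  have e25 := c1.symm
  have n26 := h12 w1 hw1 x2 hx2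
  have n27 := h13 w1 hw1 x3 hx3
  have n34 := h23 w2 hw2 w3 hw3
  have n35 := (h12 x1 hx1 w2 hw2).symm
  have e36 := c2.symm
  have n37 := h23 w2 hw2 x3 hx3
  have n45 := (h13 x1 hx1 w3 hw3).symm
  have n46 := (h23 x2 hx2 w3 hw3).symm
  have e47 := c3.symm
  have n56 := h12 x1 hx1 x2 hx2
  have n57 := h13 x1 hx1 x3 hx3
  have n67 := h23 x2 hx2 x3 hx3
  apply hG.bA
  refine indContained_of_pairs bookA ![u, v, w1, w2, w3, x1, x2, x3] ?_
  intro i j hij
  fin_cases i <;> fin_cases j <;>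
    first
      | exact absurd hij (by decide)
      | exact ⟨e01.ne, iff_of_true e01 (by decide)⟩
      | exact ⟨e02.ne, iff_of_true e02 (by decide)⟩
      | exact ⟨e03.ne, iff_of_true e03 (by decide)⟩
      | exact ⟨e04.ne, iff_of_true e04 (by decide)⟩
      | exact ⟨e05.ne, iff_of_true e05 (by decide)⟩
      | exact ⟨e06.ne, iff_of_true e06 (by decide)⟩
      | exact ⟨e07.ne, iff_of_true e07 (by decide)⟩
      | exact ⟨e12.ne, iff_of_true e12 (by decide)⟩
      | exact ⟨e13.ne, iff_of_true e13 (by decide)⟩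
      | exact ⟨e14.ne, iff_of_true e14 (by decide)⟩
      | exact ⟨n15.1, iff_of_false n15.2 (by decide)⟩
      | exact ⟨n16.1, iff_of_false n16.2 (by decide)⟩
      | exact ⟨n17.1, iff_of_false n17.2 (by decide)⟩
      | exact ⟨n23.1, iff_of_false n23.2 (by decide)⟩
      | exact ⟨n24.1, iff_of_false n24.2 (by decide)⟩
      | exact ⟨e25.ne, iff_of_true e25 (by decide)⟩
      | exact ⟨n26.1, iff_of_false n26.2 (by decide)⟩
      | exact ⟨n27.1, iff_of_false n27.2 (by decide)⟩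
      | exact ⟨n34.1, iff_of_false n34.2 (by decide)⟩
      | exact ⟨n35.1, iff_of_false n35.2 (by decide)⟩
      | exact ⟨e36.ne, iff_of_true e36 (by decide)⟩
      | exact ⟨n37.1, iff_of_false n37.2 (by decide)⟩
      | exact ⟨n45.1, iff_of_false n45.2 (by decide)⟩
      | exact ⟨n46.1, iff_of_false n46.2 (by decide)⟩
      | exact ⟨e47.ne, iff_of_true e47 (by decide)⟩
      | exact ⟨n56.1, iff_of_false n56.2 (by decide)⟩
      | exact ⟨n57.1, iff_of_false n57.2 (by decide)⟩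
      | exact ⟨n67.1, iff_of_false n67.2 (by decide)⟩

lemma bookB_false {G : SimpleGraph V} (hG : Good G) {u v : V} {C1 C2 C3 : Set V}
    (huv : G.Adj u v) (hv1 : v ∉ C1) (hv2 : v ∉ C2) (hu3 : u ∉ C3)
    (h12 : ∀ x ∈ C1, ∀ y ∈ C2, NA G x y) (h13 : ∀ x ∈ C1, ∀ y ∈ C3, NA G x y)
    (h23 : ∀ x ∈ C2, ∀ y ∈ C3, NA G x y) (t1 : Tt G u v C1) (t2 : Tt G u v C2)
    (t3 : Tt G v u C3) : False := by
  obtain ⟨w1, hw1, x1, hx1, a1, b1, c1, d1, f1⟩ := t1
  obtain ⟨w2, hw2, x2, hx2, a2, b2, c2, d2, f2⟩ := t2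
  obtain ⟨w3, hw3, x3, hx3, a3, b3, c3, d3, f3⟩ := t3
  have e01 := huv
  have e02 := a1.symm
  have e03 := a2.symm
  have e04 := b3.symm
  have e05 := d1.symm
  have e06 := d2.symm
  have n07 : NA G u x3 := ⟨fun h => hu3 (h ▸ hx3), fun h => f3 h.symm⟩
  have e12 := b1.symm
  have e13 := b2.symm
  have e14 := a3.symm
  have n15 : NA G v x1 := ⟨fun h => hv1 (h ▸ hx1), fun h => f1 h.symm⟩
  have n16 : NA G v x2 := ⟨fun h => hv2 (h ▸ hx2), fun h => f2 h.symm⟩
  have e17 := d3.symm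
  have n23 := h12 w1 hw1 w2 hw2
  have n24 := h13 w1 hw1 w3 hw3
  have e25 := c1.symm
  have n26 := h12 w1 hw1 x2 hx2
  have n27 := h13 w1 hw1 x3 hx3
  have n34 := h23 w2 hw2 w3 hw3
  have n35 := (h12 x1 hx1 w2 hw2).symm
  have e36 := c2.symm
  have n37 := h23 w2 hw2 x3 hx3
  have n45 := (h13 x1 hx1 w3 hw3).symm
  have n46 := (h23 x2 hx2 w3 hw3).symm
  have e47 := c3.symm
  have n56 := h12 x1 hx1 x2 hx2
  have n57 := h13 x1 hx1 x3 hx3
  have n67 := h23 x2 hx2 x3 hx3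
  apply hG.bB
  refine indContained_of_pairs bookB ![u, v, w1, w2, w3, x1, x2, x3] ?_
  intro i j hij
  fin_cases i <;> fin_cases j <;>
    first
      | exact absurd hij (by decide)
      | exact ⟨e01.ne, iff_of_true e01 (by decide)⟩
      | exact ⟨e02.ne, iff_of_true e02 (by decide)⟩
      | exact ⟨e03.ne, iff_of_true e03 (by decide)⟩
      | exact ⟨e04.ne, iff_of_true e04 (by decide)⟩
      | exact ⟨e05.ne, iff_of_true e05 (by decide)⟩
      | exact ⟨e06.ne, iff_of_true e06 (by decide)⟩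
      | exact ⟨n07.1, iff_of_false n07.2 (by decide)⟩
      | exact ⟨e12.ne, iff_of_true e12 (by decide)⟩
      | exact ⟨e13.ne, iff_of_true e13 (by decide)⟩
      | exact ⟨e14.ne, iff_of_true e14 (by decide)⟩
      | exact ⟨n15.1, iff_of_false n15.2 (by decide)⟩
      | exact ⟨n16.1, iff_of_false n16.2 (by decide)⟩
      | exact ⟨e17.ne, iff_of_true e17 (by decide)⟩
      | exact ⟨n23.1, iff_of_false n23.2 (by decide)⟩
      | exact ⟨n24.1, iff_of_false n24.2 (by decide)⟩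
      | exact ⟨e25.ne, iff_of_true e25 (by decide)⟩
      | exact ⟨n26.1, iff_of_false n26.2 (by decide)⟩
      | exact ⟨n27.1, iff_of_false n27.2 (by decide)⟩
      | exact ⟨n34.1, iff_of_false n34.2 (by decide)⟩
      | exact ⟨n35.1, iff_of_false n35.2 (by decide)⟩
      | exact ⟨e36.ne, iff_of_true e36 (by decide)⟩
      | exact ⟨n37.1, iff_of_false n37.2 (by decide)⟩
      | exact ⟨n45.1, iff_of_false n45.2 (by decide)⟩
      | exact ⟨n46.1, iff_of_false n46.2 (by decide)⟩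
      | exact ⟨e47.ne, iff_of_true e47 (by decide)⟩
      | exact ⟨n56.1, iff_of_false n56.2 (by decide)⟩
      | exact ⟨n57.1, iff_of_false n57.2 (by decide)⟩
      | exact ⟨n67.1, iff_of_false n67.2 (by decide)⟩

lemma k5e_false {G : SimpleGraph V} (hG : Good G) {a b x y z : V} (n01 : NA G a b)
    (e02 : G.Adj a x) (e03 : G.Adj a y) (e04 : G.Adj a z) (e12 : G.Adj b x) (e13 : G.Adj b y)
    (e14 : G.Adj b z) (e23 : G.Adj x y) (e24 : G.Adj x z) (e34 : G.Adj y z) : False := by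
  apply hG.k5e
  refine indContained_of_pairs K5e ![a, b, x, y, z] ?_
  intro i j hij
  fin_cases i <;> fin_cases j <;>
    first
      | exact absurd hij (by decide)
      | exact ⟨n01.1, iff_of_false n01.2 (by decide)⟩
      | exact ⟨e02.ne, iff_of_true e02 (by decide)⟩
      | exact ⟨e03.ne, iff_of_true e03 (by decide)⟩
      | exact ⟨e04.ne, iff_of_true e04 (by decide)⟩
      | exact ⟨e12.ne, iff_of_true e12 (by decide)⟩
      | exact ⟨e13.ne, iff_of_true e13 (by decide)⟩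
      | exact ⟨e14.ne, iff_of_true e14 (by decide)⟩
      | exact ⟨e23.ne, iff_of_true e23 (by decide)⟩
      | exact ⟨e24.ne, iff_of_true e24 (by decide)⟩
      | exact ⟨e34.ne, iff_of_true e34 (by decide)⟩

lemma starK4_false {G : SimpleGraph V} (hG : Good G) {v0 v1 v2 v3 w1 w2 w3 : V}
    (e01 : G.Adj v0 v1) (e02 : G.Adj v0 v2) (e03 : G.Adj v0 v3) (e12 : G.Adj v1 v2)
    (e13 : G.Adj v1 v3) (e23 : G.Adj v2 v3) (e04 : G.Adj v0 w1) (e05 : G.Adj v0 w2)
    (e06 : G.Adj v0 w3) (e14 : G.Adj v1 w1) (n15 : NA G v1 w2) (n16 : NA G v1 w3)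
    (n24 : NA G v2 w1) (e25 : G.Adj v2 w2) (n26 : NA G v2 w3) (n34 : NA G v3 w1)
    (n35 : NA G v3 w2) (e36 : G.Adj v3 w3) (n45 : NA G w1 w2) (n46 : NA G w1 w3)
    (n56 : NA G w2 w3) : False := by
  apply hG.s4
  refine indContained_of_pairs starK4 ![v0, v1, v2, v3, w1, w2, w3] ?_
  intro i j hij
  fin_cases i <;> fin_cases j <;>
    first
      | exact absurd hij (by decide)
      | exact ⟨e01.ne, iff_of_true e01 (by decide)⟩
      | exact ⟨e02.ne, iff_of_true e02 (by decide)⟩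
      | exact ⟨e03.ne, iff_of_true e03 (by decide)⟩
      | exact ⟨e04.ne, iff_of_true e04 (by decide)⟩
      | exact ⟨e05.ne, iff_of_true e05 (by decide)⟩
      | exact ⟨e06.ne, iff_of_true e06 (by decide)⟩
      | exact ⟨e12.ne, iff_of_true e12 (by decide)⟩
      | exact ⟨e13.ne, iff_of_true e13 (by decide)⟩
      | exact ⟨e14.ne, iff_of_true e14 (by decide)⟩
      | exact ⟨n15.1, iff_of_false n15.2 (by decide)⟩
      | exact ⟨n16.1, iff_of_false n16.2 (by decide)⟩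
      | exact ⟨e23.ne, iff_of_true e23 (by decide)⟩
      | exact ⟨n24.1, iff_of_false n24.2 (by decide)⟩
      | exact ⟨e25.ne, iff_of_true e25 (by decide)⟩
      | exact ⟨n26.1, iff_of_false n26.2 (by decide)⟩
      | exact ⟨n34.1, iff_of_false n34.2 (by decide)⟩
      | exact ⟨n35.1, iff_of_false n35.2 (by decide)⟩
      | exact ⟨e36.ne, iff_of_true e36 (by decide)⟩
      | exact ⟨n45.1, iff_of_false n45.2 (by decide)⟩
      | exact ⟨n46.1, iff_of_false n46.2 (by decide)⟩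
      | exact ⟨n56.1, iff_of_false n56.2 (by decide)⟩

end Pool.Agent.Lib.MP_50b720_co
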