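import Pool.Agent.Lib.MP_50b720_co.Patterns

set_option autoImplicit false

namespace Pool.Agent.Lib.MP_50b720_co

open SimpleGraph

variable {V : Type*}

/-! ### Consequences of minimality -/

/-- `U` is a minimal set whose induced subgraph is not a circle graph -/
structure MinNC (G : SimpleGraph V) (U : Set V) : Prop where
  nc : ¬ Circ G U
  ih : ∀ U' ⊂ U, Circ G U'

lemma MinNC.split [Finite V] {G : SimpleGraph V} {U X Y : Set V} (h : MinNC G U) {x0 y0 x1 y1 : V}
    (hXY : X ∪ Y = U) (hd : Disjoint X Y) (hx0 : x0 ∈ X) (hy0 : y0 ∈ Y) (hx1 : x1 ∈ X)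
    (hx : x1 ≠ x0) (hy1 : y1 ∈ Y) (hy : y1 ≠ y0)
    (hn : ∀ x ∈ X, ∀ y ∈ Y, (G.Adj x y ↔ (G.Adj x y0 ∧ G.Adj x0 y))) : False := by
  have hdl := Set.disjoint_left.mp hd
  apply h.nc
  rw [← hXY]
  refine Circ.join (h.ih _ ?_) (h.ih _ ?_) hd hx0 hy0 hn
  · rw [← hXY]
    refine ⟨Set.union_subset Set.subset_union_left ?_, fun hs => ?_⟩
    · intro z hz; rw [Set.mem_singleton_iff] at hz; subst hz; exact Or.inr hy0
    · rcases hs (Or.inr hy1 : y1 ∈ X ∪ Y) with h' | h'
      · exact hdl h' hy1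
      · exact hy h'
  · rw [← hXY]
    refine ⟨Set.union_subset Set.subset_union_right ?_, fun hs => ?_⟩
    · intro z hz; rw [Set.mem_singleton_iff] at hz; subst hz; exact Or.inl hx0
    · rcases hs (Or.inl hx1 : x1 ∈ X ∪ Y) with h' | h'
      · exact hdl hx1 h'
      · exact hx h'

lemma MinNC.disj [Finite V] {G : SimpleGraph V} {U X Y : Set V} (h : MinNC G U)
    (hXY : X ∪ Y = U) (hd : Disjoint X Y) (hX : X.Nonempty) (hY : Y.Nonempty)
    (hn : ∀ x ∈ X, ∀ y ∈ Y, ¬ G.Adj x y) : False := by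
  have hdl := Set.disjoint_left.mp hd
  obtain ⟨x1, hx1⟩ := hX
  obtain ⟨y1, hy1⟩ := hY
  apply h.nc
  rw [← hXY]
  refine Circ.disj (h.ih _ ?_) (h.ih _ ?_) hd hn
  · rw [← hXY]
    exact ⟨Set.subset_union_left, fun hs => hdl (hs (Or.inr hy1)) hy1⟩
  · rw [← hXY]
    exact ⟨Set.subset_union_right, fun hs => hdl hx1 (hs (Or.inl hx1))⟩

lemma MinNC.one_sep [Finite V] {G : SimpleGraph V} {U C : Set V} (h : MinNC G U) (hCU : C ⊆ U)
    (hC : C.Nonempty) {t b : V} (ht : t ∈ U) (htC : t ∉ C) (hb : b ∈ U) (hbC : b ∉ C)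
    (hbt : b ≠ t) (hn : ∀ x ∈ C, ∀ y ∈ U, y ∉ C → y ≠ t → ¬ G.Adj x y) : False := by
  have hun : C ∪ (U \ C) = U := Set.union_diff_cancel hCU
  have hdis : Disjoint C (U \ C) := Set.disjoint_sdiff_right
  by_cases hc : ∃ x ∈ C, G.Adj x t
  · obtain ⟨x0, hx0, hx0t⟩ := hc
    by_cases h2 : ∃ x1 ∈ C, x1 ≠ x0
    · obtain ⟨x1, hx1, hx10⟩ := h2
      refine h.split hun hdis hx0 ⟨ht, htC⟩ hx1 hx10 ⟨hb, hbC⟩ hbt ?_
      intro x hx y hy
      by_cases hyt : y = t
      · subst hyt; exact ⟨fun h' => ⟨h', hx0t⟩, fun h' => h'.1⟩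
      · have n1 := hn x hx y hy.1 hy.2 hyt
        have n2 := hn x0 hx0 y hy.1 hy.2 hyt
        tauto
    · push Not at h2
      have hCs : C = {x0} := by
        apply Set.Subset.antisymm
        · intro z hz; exact h2 z hz
        · intro z hz; rw [Set.mem_singleton_iff] at hz; subst hz; exact hx0
      subst hCs
      set a := x0
      have hat : a ≠ t := hx0t.ne
      have ha : a ∈ U := hCU rfl
      have hba : b ≠ a := fun h' => hbC h'
      have hna : ∀ y ∈ U, y ≠ a → y ≠ t → ¬ G.Adj a y := fun y hy hya hyt => hn a rfl y hy hya hyt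
      set Y : Set V := U \ {a, t} with hY
      have hun' : ({a, t} : Set V) ∪ Y = U := Set.union_diff_cancel (by
        intro z hz
        rcases hz with rfl | hz
        · exact ha
        · rw [Set.mem_singleton_iff] at hz; subst hz; exact ht)
      have hdis' : Disjoint ({a, t} : Set V) Y := Set.disjoint_sdiff_right
      have hbY : b ∈ Y := ⟨hb, by simp [hba, hbt]⟩
      have hYna : ∀ y ∈ Y, ¬ G.Adj a y := by
        intro y hy
        have := hy.2
        simp only [Set.mem_insert_iff, Set.mem_singleton_iff, not_or] at this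
        exact hna y hy.1 this.1 this.2
      by_cases hty : ∃ y0 ∈ Y, G.Adj t y0
      · obtain ⟨y0, hy0, hty0⟩ := hty
        by_cases h3 : ∃ y1 ∈ Y, y1 ≠ y0
        · obtain ⟨y1, hy1, hy10⟩ := h3
          refine h.split (x0 := t) (x1 := a) hun' hdis' (by simp) hy0 (by simp) hat hy1 hy10 ?_
          intro x hx y hy
          rcases hx with rfl | hx
          · have n1 := hYna y hy
            have n2 := hYna y0 hy0
            tauto
          · rw [Set.mem_singleton_iff] at hx; subst hx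
            tauto
        · push Not at h3
          have hby : b = y0 := h3 b hbY
          apply h.nc
          have hUe : U = {a, t, y0} := by
            rw [← hun']
            ext z
            simp only [Set.mem_union, Set.mem_insert_iff, Set.mem_singleton_iff]
            constructor
            · rintro ((h' | h') | h')
              · exact Or.inl h'
              · exact Or.inr (Or.inl h')
              · exact Or.inr (Or.inr (h3 z h'))
            · rintro (h' | h' | h')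
              · exact Or.inl (Or.inl h')
              · exact Or.inl (Or.inr h')
              · subst h'; exact Or.inr hy0
          rw [hUe]
          exact Circ.path3 hx0t hty0 (hYna y0 hy0) (by rw [← hby]; exact hba.symm)
      · push Not at hty
        refine h.disj hun' hdis' ⟨a, by simp⟩ ⟨b, hbY⟩ ?_
        intro x hx y hy
        rcases hx with rfl | hx
        · exact hYna y hy
        · rw [Set.mem_singleton_iff] at hx; subst hx; exact hty y hy
  · push Not at hc
    refine h.disj hun hdis hC ⟨t, ht, htC⟩ ?_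
    intro x hx y hy
    by_cases hyt : y = t
    · subst hyt; exact hc x hx
    · exact hn x hx y hy.1 hy.2 hyt

/-- `w` has exactly two neighbours in `U`, namely `u` and `v`, and they are adjacent. -/
def EarAt (G : SimpleGraph V) (U : Set V) (w u v : V) : Prop :=
  u ∈ U ∧ v ∈ U ∧ G.Adj u v ∧ ∀ z ∈ U, (G.Adj w z ↔ (z = u ∨ z = v))

lemma MinNC.twins [Finite V] {G : SimpleGraph V} {U : Set V} (h : MinNC G U) {w w' u v : V}
    (hw : w ∈ U) (hw' : w' ∈ U) (hne : w ≠ w') (h1 : EarAt G U w u v) (h2 : EarAt G U w' u v) :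
    False := by
  obtain ⟨hu, hv, huv, hwz⟩ := h1
  obtain ⟨_, _, _, hwz'⟩ := h2
  have hwu : G.Adj w u := (hwz u hu).mpr (Or.inl rfl)
  have hwv : G.Adj w v := (hwz v hv).mpr (Or.inr rfl)
  have hwu' : G.Adj w' u := (hwz' u hu).mpr (Or.inl rfl)
  have hwv' : G.Adj w' v := (hwz' v hv).mpr (Or.inr rfl)
  have hun : ({w, w'} : Set V) ∪ (U \ {w, w'}) = U := Set.union_diff_cancel (by
    intro z hz
    rcases hz with rfl | hz
    · exact hw
    · rw [Set.mem_singleton_iff] at hz; subst hz; exact hw')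
  refine h.split (x0 := w) (x1 := w') (y0 := u) (y1 := v) hun Set.disjoint_sdiff_right (by simp)
    ⟨hu, by simp [hwu.ne', hwu'.ne']⟩ (by simp) hne.symm ⟨hv, by simp [hwv.ne', hwv'.ne']⟩
    huv.ne' ?_
  intro x hx y hy
  rcases hx with rfl | hx
  · tauto
  · rw [Set.mem_singleton_iff] at hx; subst hx
    rw [hwz y hy.1, hwz' y hy.1]
    tauto

/-! ### Components of the complement of a separating edge -/

/-- the data: `u, v` adjacent in `U` -/
structure SepEdge (G : SimpleGraph V) (U : Set V) (u v : V) : Prop where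
  hu : u ∈ U
  hv : v ∈ U
  huv : G.Adj u v

lemma SepEdge.symm {G : SimpleGraph V} {U : Set V} {u v : V} (h : SepEdge G U u v) :
    SepEdge G U v u := ⟨h.hv, h.hu, h.huv.symm⟩

section comps

variable {G : SimpleGraph V} {U : Set V} {u v : V}

/-- component of `c` in `U \ {u, v}` -/
def cp (G : SimpleGraph V) (U : Set V) (u v c : V) : Set V := comp G (U \ {u, v}) c

lemma cp_swap (c : V) : cp G U u v c = cp G U v u c := by
  unfold cp; rw [Set.pair_comm]

lemma cp_sub {c : V} (hc : c ∈ U \ {u, v}) : cp G U u v c ⊆ U \ {u, v} := comp_sub hc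

lemma u_notMem_cp {c : V} (hc : c ∈ U \ {u, v}) : u ∉ cp G U u v c := fun h =>
  (cp_sub hc h).2 (by simp)

lemma v_notMem_cp {c : V} (hc : c ∈ U \ {u, v}) : v ∉ cp G U u v c := fun h =>
  (cp_sub hc h).2 (by simp)

lemma cp_nonadj {c : V} (hc : c ∈ U \ {u, v}) {x y : V} (hx : x ∈ cp G U u v c)
    (hy : y ∈ U) (hyC : y ∉ cp G U u v c) (hyu : y ≠ u) (hyv : y ≠ v) : ¬ G.Adj x y := by
  intro h
  exact hyC (comp_step hx (cp_sub hc hx) ⟨hy, by simp [hyu, hyv]⟩ h)

lemma cp_NA {c c' : V} (hc : c ∈ U \ {u, v}) (hc' : c' ∈ U \ {u, v})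
    (hne : c' ∉ cp G U u v c) : ∀ x ∈ cp G U u v c, ∀ y ∈ cp G U u v c', NA G x y := by
  intro x hx y hy
  have hyC : y ∉ cp G U u v c := by
    intro h
    exact hne (comp_trans h (comp_symm hy))
  have hyU := cp_sub hc' hy
  have h2 := hyU.2
  simp only [Set.mem_insert_iff, Set.mem_singleton_iff, not_or] at h2
  exact ⟨fun h => hyC (h ▸ hx), cp_nonadj hc hx hyU.1 hyC h2.1 h2.2⟩

lemma cp_nbr_u [Finite V] (h : MinNC G U) (hs : SepEdge G U u v) {c : V} (hc : c ∈ U \ {u, v}) :
    ∃ x ∈ cp G U u v c, G.Adj u x := by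
  by_contra hcon
  push Not at hcon
  refine h.one_sep (C := cp G U u v c) ((cp_sub hc).trans Set.diff_subset)
    ⟨c, self_mem_comp _ _ _⟩ hs.hv (v_notMem_cp hc) hs.hu (u_notMem_cp hc) hs.huv.ne ?_
  intro x hx y hy hyC hyv
  by_cases hyu : y = u
  · subst hyu; intro h'; exact hcon x hx h'.symm
  · exact cp_nonadj hc hx hy hyC hyu hyv

lemma cp_nbr_v [Finite V] (h : MinNC G U) (hs : SepEdge G U u v) {c : V} (hc : c ∈ U \ {u, v}) :
    ∃ x ∈ cp G U u v c, G.Adj v x := by
  rw [cp_swap]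
  exact cp_nbr_u h hs.symm (by rw [Set.pair_comm]; exact hc)

/-- a component with a vertex adjacent to `u` but not to `v` -/
lemma Tt_of [Finite V] (hG : Good G) (h : MinNC G U) (hs : SepEdge G U u v) {c : V}
    (hc : c ∈ U \ {u, v}) {z : V} (hz : z ∈ cp G U u v c) (hzu : G.Adj z u)
    (hzv : ¬ G.Adj z v) : Tt G u v (cp G U u v c) := by
  set C := cp G U u v c with hC
  have hCcn : Cn G C := comp_cn hc
  have huC : u ∉ C := u_notMem_cp hc
  have hvC : v ∉ C := v_notMem_cp hc
  set M : Set V := {m | G.Adj m u ∧ G.Adj m v} with hM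
  have hzM : z ∈ C \ M := ⟨hz, fun h' => hzv h'.2⟩
  obtain ⟨m0, hm0, hm0u, hm0v⟩ := common_nbr hG.chordal hs.huv hCcn huC hvC (cp_nbr_u h hs hc)
    (cp_nbr_v h hs hc)
  set D := comp G (C \ M) z with hD
  have hDsub : D ⊆ C \ M := comp_sub hzM
  have hDcn : Cn G D := comp_cn hzM
  obtain ⟨d, hd, m, hm, hdm⟩ := hCcn.2 D (hDsub.trans Set.diff_subset) hDcn.1 (by
    intro h'
    have : m0 ∈ D := by rw [h']; exact hm0
    exact (hDsub this).2 ⟨hm0u.symm, hm0v.symm⟩)
  have hmM : m ∈ M := by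
    by_contra hno
    exact hm.2 (comp_step hd (hDsub hd) ⟨hm.1, hno⟩ hdm)
  obtain ⟨e, he, hme, hue⟩ := common_nbr hG.chordal hmM.1 hDcn hm.2
    (fun h' => huC (hDsub h').1) ⟨d, hd, hdm.symm⟩ ⟨z, self_mem_comp _ _ _, hzu.symm⟩
  refine ⟨m, hm.1, e, (hDsub he).1, hmM.1, hmM.2, hme.symm, hue.symm, ?_⟩
  intro hev
  exact (hDsub he).2 ⟨hue.symm, hev⟩

/-- a component in which `u` and `v` have the same neighbours is a single vertex -/
lemma good_single [Finite V] (h : MinNC G U) (hs : SepEdge G U u v) {c : V}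
    (hc : c ∈ U \ {u, v}) (hg : ∀ z ∈ cp G U u v c, (G.Adj z u ↔ G.Adj z v)) :
    cp G U u v c = {c} ∧ EarAt G U c u v := by
  set C := cp G U u v c with hC
  obtain ⟨x0, hx0, hux0⟩ := cp_nbr_u h hs hc
  have huC : u ∉ C := u_notMem_cp hc
  have hvC : v ∉ C := v_notMem_cp hc
  have hCU : C ⊆ U := (cp_sub hc).trans Set.diff_subset
  have hvx0 : G.Adj x0 v := (hg x0 hx0).mp hux0.symm
  have hsingle : ∀ x1 ∈ C, x1 = x0 := by
    by_contra hcon
    push Not at hcon
    obtain ⟨x1, hx1, hx10⟩ := hcon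
    refine h.split (Set.union_diff_cancel hCU) Set.disjoint_sdiff_right hx0
      (⟨hs.hu, huC⟩ : u ∈ U \ C) hx1 hx10 (⟨hs.hv, hvC⟩ : v ∈ U \ C) hs.huv.ne' ?_
    intro x hx y hy
    by_cases hyu : y = u
    · subst hyu; exact ⟨fun h' => ⟨h', hux0.symm⟩, fun h' => h'.1⟩
    · by_cases hyv : y = v
      · subst hyv; rw [hg x hx]; tauto
      · have n1 := cp_nonadj hc hx hy.1 hy.2 hyu hyv
        have n2 := cp_nonadj hc hx0 hy.1 hy.2 hyu hyv
        tauto
  have hcx : c = x0 := hsingle c (self_mem_comp _ _ _)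
  have hCc : C = {c} := by
    apply Set.Subset.antisymm
    · intro z hz; rw [hcx]; exact hsingle z hz
    · intro z hz; rw [Set.mem_singleton_iff] at hz; subst hz; exact self_mem_comp _ _ _
  refine ⟨hCc, hs.hu, hs.hv, hs.huv, ?_⟩
  intro z hz
  constructor
  · intro hcz
    by_contra hcon
    push Not at hcon
    refine cp_nonadj hc (self_mem_comp _ _ _ : c ∈ cp G U u v c) hz ?_ hcon.1 hcon.2 hcz
    change z ∉ C
    rw [hCc]
    exact fun h' => hcz.ne (Set.mem_singleton_iff.mp h').symm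
  · rintro (rfl | rfl)
    · rw [hcx]; exact hux0.symm
    · rw [hcx]; exact hvx0

/-- three pairwise different components which are not single vertices are impossible -/
lemma three_bad [Finite V] (hG : Good G) (hs : SepEdge G U u v) {c1 c2 c3 : V}
    (hc1 : c1 ∈ U \ {u, v}) (hc2 : c2 ∈ U \ {u, v}) (hc3 : c3 ∈ U \ {u, v})
    (h12 : c2 ∉ cp G U u v c1) (h13 : c3 ∉ cp G U u v c1) (h23 : c3 ∉ cp G U u v c2)
    (b1 : Tt G u v (cp G U u v c1) ∨ Tt G v u (cp G U u v c1))
    (b2 : Tt G u v (cp G U u v c2) ∨ Tt G v u (cp G U u v c2))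
    (b3 : Tt G u v (cp G U u v c3) ∨ Tt G v u (cp G U u v c3)) : False := by
  have n12 := cp_NA hc1 hc2 h12
  have n13 := cp_NA hc1 hc3 h13
  have n23 := cp_NA hc2 hc3 h23
  have n21 : ∀ x ∈ cp G U u v c2, ∀ y ∈ cp G U u v c1, NA G x y :=
    fun x hx y hy => (n12 y hy x hx).symm
  have n31 : ∀ x ∈ cp G U u v c3, ∀ y ∈ cp G U u v c1, NA G x y :=
    fun x hx y hy => (n13 y hy x hx).symm
  have n32 : ∀ x ∈ cp G U u v c3, ∀ y ∈ cp G U u v c2, NA G x y :=
    fun x hx y hy => (n23 y hy x hx).symm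
  have u1 := u_notMem_cp (G := G) hc1
  have u2 := u_notMem_cp (G := G) hc2
  have u3 := u_notMem_cp (G := G) hc3
  have v1 := v_notMem_cp (G := G) hc1
  have v2 := v_notMem_cp (G := G) hc2
  have v3 := v_notMem_cp (G := G) hc3
  have huv := hs.huv
  rcases b1 with b1 | b1 <;> rcases b2 with b2 | b2 <;> rcases b3 with b3 | b3
  · exact bookA_false hG huv v1 v2 v3 n12 n13 n23 b1 b2 b3
  · exact bookB_false hG huv v1 v2 u3 n12 n13 n23 b1 b2 b3
  · exact bookB_false hG huv v1 v3 u2 n13 n12 n32 b1 b3 b2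
  · exact bookB_false hG huv.symm u2 u3 v1 n23 n21 n31 b2 b3 b1
  · exact bookB_false hG huv v2 v3 u1 n23 n21 n31 b2 b3 b1
  · exact bookB_false hG huv.symm u1 u3 v2 n13 n12 n32 b1 b3 b2
  · exact bookB_false hG huv.symm u1 u2 v3 n12 n13 n23 b1 b2 b3
  · exact bookA_false hG huv.symm u1 u2 u3 n12 n13 n23 b1 b2 b3

/-- the main dichotomy for components -/
lemma bad_or_ear [Finite V] (hG : Good G) (h : MinNC G U) (hs : SepEdge G U u v) {c : V}
    (hc : c ∈ U \ {u, v}) :
    (Tt G u v (cp G U u v c) ∨ Tt G v u (cp G U u v c)) ∨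
      (cp G U u v c = {c} ∧ EarAt G U c u v) := by
  by_cases hg : ∀ z ∈ cp G U u v c, (G.Adj z u ↔ G.Adj z v)
  · exact Or.inr (good_single h hs hc hg)
  · left
    push Not at hg
    obtain ⟨z, hz, hz'⟩ := hg
    rcases hz' with ⟨h1, h2⟩ | ⟨h1, h2⟩
    · exact Or.inl (Tt_of hG h hs hc hz h1 h2)
    · right
      have := Tt_of hG h hs.symm (c := c) (by rw [Set.pair_comm]; exact hc) (z := z)
        (by rw [← cp_swap]; exact hz) h2 h1
      rw [← cp_swap] at this
      exact this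

/-- If two different components are not single vertices, we get a chord diagram by gluing. -/
lemma two_bad [Finite V] (hG : Good G) (h : MinNC G U) (hs : SepEdge G U u v) {a b : V}
    (ha : a ∈ U \ {u, v}) (hb : b ∈ U \ {u, v}) (hab : b ∉ cp G U u v a)
    (ba : Tt G u v (cp G U u v a) ∨ Tt G v u (cp G U u v a))
    (bb : Tt G u v (cp G U u v b) ∨ Tt G v u (cp G U u v b)) : False := by
  set A := cp G U u v a with hA
  set B := cp G U u v b with hB
  have hAU : A ⊆ U := (cp_sub ha).trans Set.diff_subset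
  have hBU : B ⊆ U := (cp_sub hb).trans Set.diff_subset
  have hAcn : Cn G A := comp_cn ha
  have hBcn : Cn G B := comp_cn hb
  have nAB : ∀ x ∈ A, ∀ y ∈ B, NA G x y := cp_NA ha hb hab
  have huA : u ∉ A := u_notMem_cp ha
  have hvA : v ∉ A := v_notMem_cp ha
  have huB : u ∉ B := u_notMem_cp hb
  have hvB : v ∉ B := v_notMem_cp hb
  have huv := hs.huv
  have hAB : Disjoint A B := Set.disjoint_left.mpr (fun x hx hx' => (nAB x hx x hx').1 rfl)
  -- two different elements in each of `A`, `B`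
  have twoA : ∀ w, ∃ x ∈ A, x ≠ w := by
    intro w
    have : ∃ y ∈ A, ∃ z ∈ A, G.Adj z y := by
      rcases ba with ⟨y, hy, z, hz, _, _, hzy, _⟩ | ⟨y, hy, z, hz, _, _, hzy, _⟩
      · exact ⟨y, hy, z, hz, hzy⟩
      · exact ⟨y, hy, z, hz, hzy⟩
    obtain ⟨y, hy, z, hz, hzy⟩ := this
    by_cases hyw : y = w
    · exact ⟨z, hz, fun h' => hzy.ne (h'.trans hyw.symm)⟩
    · exact ⟨y, hy, hyw⟩
  have twoB : ∀ w, ∃ x ∈ B, x ≠ w := by
    intro w
    have : ∃ y ∈ B, ∃ z ∈ B, G.Adj z y := by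
      rcases bb with ⟨y, hy, z, hz, _, _, hzy, _⟩ | ⟨y, hy, z, hz, _, _, hzy, _⟩
      · exact ⟨y, hy, z, hz, hzy⟩
      · exact ⟨y, hy, z, hz, hzy⟩
    obtain ⟨y, hy, z, hz, hzy⟩ := this
    by_cases hyw : y = w
    · exact ⟨z, hz, fun h' => hzy.ne (h'.trans hyw.symm)⟩
    · exact ⟨y, hy, hyw⟩
  obtain ⟨a', ha', hua', hva'⟩ := common_nbr hG.chordal huv hAcn huA hvA (cp_nbr_u h hs ha)
    (cp_nbr_v h hs ha)
  obtain ⟨b', hb', hub', hvb'⟩ := common_nbr hG.chordal huv hBcn huB hvB (cp_nbr_u h hs hb)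
    (cp_nbr_v h hs hb)
  -- blocks
  obtain ⟨p, q, s, t, hblA⟩ : ∃ (p q : V → ℤ) (s t : ℤ), IsBlock G A u v p q s t := by
    refine exists_block (w := b') (h.ih _ ?_) huA hvA (fun h' => (nAB b' h' b' hb').1 rfl) hub'
      hvb' huv (fun x hx => (nAB x hx b' hb').2) hAcn
    refine ⟨?_, fun hsub => ?_⟩
    · intro z hz
      rcases hz with hz | rfl | rfl | hz
      · exact hAU hz
      · exact hs.hu
      · exact hs.hv
      · rw [Set.mem_singleton_iff] at hz; subst hz; exact hBU hb'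
    · obtain ⟨x, hx, hxb⟩ := twoB b'
      rcases hsub (hBU hx) with hz | rfl | rfl | hz
      · exact (nAB x hz x hx).1 rfl
      · exact huB hx
      · exact hvB hx
      · exact hxb hz
  obtain ⟨p', q', s', t', hblB⟩ : ∃ (p q : V → ℤ) (s t : ℤ), IsBlock G B u v p q s t := by
    refine exists_block (w := a') (h.ih _ ?_) huB hvB (fun h' => (nAB a' ha' a' h').1 rfl) hua'
      hva' huv (fun x hx h' => (nAB a' ha' x hx).2 h'.symm) hBcn
    refine ⟨?_, fun hsub => ?_⟩
    · intro z hz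
      rcases hz with hz | rfl | rfl | hz
      · exact hBU hz
      · exact hs.hu
      · exact hs.hv
      · rw [Set.mem_singleton_iff] at hz; subst hz; exact hAU ha'
    · obtain ⟨x, hx, hxb⟩ := twoA a'
      rcases hsub (hAU hx) with hz | rfl | rfl | hz
      · exact (nAB x hx x hz).1 rfl
      · exact huA hx
      · exact hvA hx
      · exact hxb hz
  -- the rest
  set W : Set V := (U \ {u, v}) \ (A ∪ B) with hW
  have hWear : ∀ w ∈ W, EarAt G U w u v := by
    intro w hw
    rcases bad_or_ear hG h hs hw.1 with hbad | hear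
    · exfalso
      have hwA : w ∉ cp G U u v a := fun h' => hw.2 (Or.inl h')
      have hwB : w ∉ cp G U u v b := fun h' => hw.2 (Or.inr h')
      exact three_bad hG hs ha hb hw.1 hab hwA hwB ba bb hbad
    · exact hear.2
  have hU : A ∪ B ∪ ({u, v} ∪ W) = U := by
    ext z
    constructor
    · rintro ((hz | hz) | (hz | hz))
      · exact hAU hz
      · exact hBU hz
      · rcases hz with rfl | hz
        · exact hs.hu
        · rw [Set.mem_singleton_iff] at hz; subst hz; exact hs.hv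
      · exact hz.1.1
    · intro hz
      by_cases h1 : z ∈ A ∪ B
      · exact Or.inl h1
      · by_cases h2 : z ∈ ({u, v} : Set V)
        · exact Or.inr (Or.inl h2)
        · exact Or.inr (Or.inr ⟨⟨hz, h2⟩, h1⟩)
  apply h.nc
  rw [← hU]
  refine Circ.blocks hblA hblB huA hvA huB hvB ?_ ?_ hAB huv (fun x hx y hy => (nAB x hx y hy).2)
  · intro w hw w' hw'
    by_contra hne
    exact h.twins hw.1.1 hw'.1.1 hne (hWear w hw) (hWear w' hw')
  · intro w hw
    obtain ⟨_, _, _, hz⟩ := hWear w hw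
    have hwA : w ∉ A := fun h' => hw.2 (Or.inl h')
    have hwB : w ∉ B := fun h' => hw.2 (Or.inr h')
    have hwuv := hw.1.2
    simp only [Set.mem_insert_iff, Set.mem_singleton_iff, not_or] at hwuv
    refine ⟨hwA, hwB, ((hz u hs.hu).mpr (Or.inl rfl)).symm, ((hz v hs.hv).mpr (Or.inr rfl)).symm,
      ?_, ?_⟩
    · intro x hx
      exact cp_nonadj ha hx hw.1.1 hwA hwuv.1 hwuv.2
    · intro x hx
      exact cp_nonadj hb hx hw.1.1 hwB hwuv.1 hwuv.2

end comps

/-- Two nonadjacent vertices of a minimal set: one of them is an ear. -/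
theorem MinNC.ear [Finite V] {G : SimpleGraph V} {U : Set V} (hG : Good G) (h : MinNC G U)
    {a b : V} (ha : a ∈ U) (hb : b ∈ U) (hab : a ≠ b) (hnab : ¬ G.Adj a b) :
    (∃ u v, EarAt G U a u v) ∨ (∃ u v, EarAt G U b u v) := by
  obtain ⟨T, hTU, haT, hbT, hsep, hAn, hBn⟩ := exists_sep (G := G) ha hb hab hnab
  have haU : a ∈ U \ T := ⟨ha, haT⟩
  have hbU : b ∈ U \ T := ⟨hb, hbT⟩
  have hclique := sep_clique hG.chordal haU hbU hTU hsep hAn hBn
  set A := comp G (U \ T) a with hA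
  set B := comp G (U \ T) b with hB
  have hAU : A ⊆ U \ T := comp_sub haU
  have hBU : B ⊆ U \ T := comp_sub hbU
  have hAB : ∀ z ∈ A, z ∉ B := fun z hz hz' => hsep (comp_trans hz (comp_symm hz'))
  -- `A` has no neighbours outside `A ∪ T`
  have hAout : ∀ x ∈ A, ∀ y ∈ U, y ∉ A → y ∉ T → ¬ G.Adj x y := by
    intro x hx y hy hyA hyT hxy
    exact hyA (comp_step hx (hAU hx) ⟨hy, hyT⟩ hxy)
  by_cases hT0 : T = ∅
  · exfalso
    refine h.disj (Set.union_diff_cancel (hAU.trans Set.diff_subset)) Set.disjoint_sdiff_right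
      ⟨a, self_mem_comp _ _ _⟩ ⟨b, hb, hsep⟩ ?_
    intro x hx y hy
    exact hAout x hx y hy.1 hy.2 (by rw [hT0]; simp)
  obtain ⟨u, hu⟩ := Set.nonempty_iff_ne_empty.mpr hT0
  by_cases hT1 : T = {u}
  · exfalso
    refine h.one_sep (hAU.trans Set.diff_subset) ⟨a, self_mem_comp _ _ _⟩ (hTU hu)
      (fun h' => (hAU h').2 hu) hb hsep (fun h' => hbT (h' ▸ hu)) ?_
    intro x hx y hy hyA hyu
    exact hAout x hx y hy hyA (by rw [hT1]; exact hyu)
  obtain ⟨v, hv, hvu⟩ : ∃ v ∈ T, v ≠ u := by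
    by_contra hcon
    push Not at hcon
    apply hT1
    apply Set.Subset.antisymm
    · intro z hz; exact hcon z hz
    · intro z hz; rw [Set.mem_singleton_iff] at hz; subst hz; exact hu
  have hT2 : T = {u, v} := by
    by_contra hne
    obtain ⟨w, hw, hwu, hwv⟩ : ∃ w ∈ T, w ≠ u ∧ w ≠ v := by
      by_contra hcon
      push Not at hcon
      apply hne
      apply Set.Subset.antisymm
      · intro z hz
        by_cases hzu : z = u
        · simp [hzu]
        · simp [hcon z hz hzu]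
      · intro z hz
        rcases hz with rfl | hz
        · exact hu
        · rw [Set.mem_singleton_iff] at hz; subst hz; exact hv
    obtain ⟨a', ha', hfa⟩ := exists_full hG.chordal hclique A (comp_cn haU)
      (fun t ht h' => (hAU h').2 ht) hAn
    obtain ⟨b', hb', hfb⟩ := exists_full hG.chordal hclique B (comp_cn hbU)
      (fun t ht h' => (hBU h').2 ht) hBn
    refine k5e_false hG (a := a') (b := b') ⟨fun h' => hAB a' ha' (h' ▸ hb'), ?_⟩
      (hfa u hu).symm (hfa v hv).symm (hfa w hw).symm (hfb u hu).symm (hfb v hv).symm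
      (hfb w hw).symm (hclique u hu v hv hvu.symm) (hclique u hu w hw hwu.symm)
      (hclique v hv w hw hwv.symm)
    exact hAout a' ha' b' (hBU hb').1 (fun h' => hAB b' h' hb') (hBU hb').2
  subst hT2
  have hs : SepEdge G U u v := ⟨hTU hu, hTU hv, hclique u hu v hv hvu.symm⟩
  rcases bad_or_ear hG h hs haU with ba | ea
  · rcases bad_or_ear hG h hs hbU with bb | eb
    · exact absurd (two_bad hG h hs haU hbU hsep ba bb) id
    · exact Or.inr ⟨u, v, eb.2⟩
  · exact Or.inl ⟨u, v, ea.2⟩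

end Pool.Agent.Lib.MP_50b720_co
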