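import Pool.Agent.Lib.MP_50b720_co.Block
import Pool.Agent.Lib.MP_50b720_co.Defs

set_option autoImplicit false

namespace Pool.Agent.Lib.MP_50b720_co

open SimpleGraph

variable {V : Type*}

/-- point of the unit circle -/
noncomputable def E (t : ℝ) : ℂ := (Circle.exp t : ℂ)

lemma E_re (t : ℝ) : (E t).re = Real.cos t := by
  simp [E, Circle.coe_exp, Complex.exp_ofReal_mul_I_re]

lemma E_im (t : ℝ) : (E t).im = Real.sin t := by
  simp [E, Circle.coe_exp, Complex.exp_ofReal_mul_I_im]

/-- twice the signed area of a triangle -/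
def S (A B C : ℂ) : ℝ := (B.re - A.re) * (C.im - A.im) - (B.im - A.im) * (C.re - A.re)

lemma S_E (a b c : ℝ) : S (E a) (E b) (E c) =
    4 * (Real.sin ((b - a) / 2) * Real.sin ((c - b) / 2) * Real.sin ((c - a) / 2)) := by
  unfold S
  rw [E_re, E_re, E_re, E_im, E_im, E_im]
  set x := (b - a) / 2 with hx
  set y := (c - b) / 2 with hy
  have h1 : (c - a) / 2 = x + y := by rw [hx, hy]; ring
  rw [h1]
  have h2 : (Real.cos b - Real.cos a) * (Real.sin c - Real.sin a) -
      (Real.sin b - Real.sin a) * (Real.cos c - Real.cos a) =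
      Real.sin (2 * y) + Real.sin (2 * x) - Real.sin (2 * (x + y)) := by
    have e1 : 2 * y = c - b := by rw [hy]; ring
    have e2 : 2 * x = b - a := by rw [hx]; ring
    have e3 : 2 * (x + y) = c - a := by rw [hx, hy]; ring
    rw [e1, e2, e3, Real.sin_sub, Real.sin_sub, Real.sin_sub]
    ring
  rw [h2, Real.sin_two_mul, Real.sin_two_mul, Real.sin_two_mul, Real.sin_add, Real.cos_add]
  have hx2 := Real.sin_sq_add_cos_sq x
  have hy2 := Real.sin_sq_add_cos_sq y
  linear_combination (-2 * Real.sin y * Real.cos y) * hx2 + (-2 * Real.sin x * Real.cos x) * hy2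

/-- range of the angles -/
def Ang (t : ℝ) : Prop := -Real.pi < t ∧ t ≤ Real.pi

lemma sin_half_pos {x : ℝ} (h1 : 0 < x) (h2 : x < 2 * Real.pi) : 0 < Real.sin (x / 2) :=
  Real.sin_pos_of_pos_of_lt_pi (by linarith) (by linarith)

lemma sin_half_neg {x : ℝ} (h1 : x < 0) (h2 : -(2 * Real.pi) < x) : Real.sin (x / 2) < 0 := by
  have := sin_half_pos (x := -x) (by linarith) (by linarith)
  rw [neg_div, Real.sin_neg] at this
  linarith

lemma S_pos {a b c : ℝ} (ha : Ang a) (hb : Ang b) (hc : Ang c) (hab : a < b)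
    (h : b < c ∨ c < a) : 0 < S (E a) (E b) (E c) := by
  obtain ⟨ha1, ha2⟩ := ha
  obtain ⟨hb1, hb2⟩ := hb
  obtain ⟨hc1, hc2⟩ := hc
  rw [S_E]
  have h0 := sin_half_pos (x := b - a) (by linarith) (by linarith)
  rcases h with h | h
  · have h1 := sin_half_pos (x := c - b) (by linarith) (by linarith)
    have h2 := sin_half_pos (x := c - a) (by linarith) (by linarith)
    positivity
  · have h1 := sin_half_neg (x := c - b) (by linarith) (by linarith)
    have h2 := sin_half_neg (x := c - a) (by linarith) (by linarith)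
    have := mul_pos_of_neg_of_neg h1 h2
    have := mul_pos h0 this
    nlinarith

lemma S_neg {a b c : ℝ} (ha : Ang a) (hb : Ang b) (hc : Ang c) (hac : a < c) (hcb : c < b) :
    S (E a) (E b) (E c) < 0 := by
  obtain ⟨ha1, ha2⟩ := ha
  obtain ⟨hb1, hb2⟩ := hb
  obtain ⟨hc1, hc2⟩ := hc
  rw [S_E]
  have h0 := sin_half_pos (x := b - a) (by linarith) (by linarith)
  have h1 := sin_half_neg (x := c - b) (by linarith) (by linarith)
  have h2 := sin_half_pos (x := c - a) (by linarith) (by linarith)
  have := mul_pos h0 h2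
  nlinarith

lemma S_left (A B : ℂ) : S A B A = 0 := by unfold S; ring

lemma S_right (A B : ℂ) : S A B B = 0 := by unfold S; ring

lemma S_affine (A B C D : ℂ) (s t : ℝ) (hst : s + t = 1) :
    S A B (s • C + t • D) = s * S A B C + t * S A B D := by
  unfold S
  simp only [Complex.add_re, Complex.add_im, Complex.real_smul, Complex.mul_re, Complex.mul_im,
    Complex.ofReal_re, Complex.ofReal_im]
  have : t = 1 - s := by linarith
  subst this
  ring

lemma S_zero_of_mem {A B z : ℂ} (hz : z ∈ segment ℝ A B) : S A B z = 0 := by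
  obtain ⟨s, t, _, _, hst, rfl⟩ := hz
  rw [S_affine A B A B s t hst, S_left, S_right]; ring

lemma S_pos_of_mem {A B C D z : ℂ} (hz : z ∈ segment ℝ C D) (hC : 0 < S A B C)
    (hD : 0 < S A B D) : 0 < S A B z := by
  obtain ⟨s, t, hs, ht, hst, rfl⟩ := hz
  rw [S_affine A B C D s t hst]
  rcases hs.eq_or_lt with h | h
  · have : t = 1 := by linarith
    rw [← h, this]; linarith
  · have := mul_pos h hC
    have := mul_nonneg ht hD.le
    linarith

lemma S_neg_of_mem {A B C D z : ℂ} (hz : z ∈ segment ℝ C D) (hC : S A B C < 0)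
    (hD : S A B D < 0) : S A B z < 0 := by
  obtain ⟨s, t, hs, ht, hst, rfl⟩ := hz
  rw [S_affine A B C D s t hst]
  rcases hs.eq_or_lt with h | h
  · have : t = 1 := by linarith
    rw [← h, this]; linarith
  · have := mul_neg_of_pos_of_neg h hC
    have := mul_nonpos_of_nonneg_of_nonpos ht hD.le
    linarith

/-- weak interlacing of `a < b` and `c < d` -/
def WI (a b c d : ℝ) : Prop := (a ≤ c ∧ c ≤ b ∧ b ≤ d) ∨ (c ≤ a ∧ a ≤ d ∧ d ≤ b)

lemma seg_inter_of_WI' {a b c d : ℝ} (ha : Ang a) (hb : Ang b) (hc : Ang c) (hd : Ang d)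
    (hab : a < b) (hcd : c < d) (h1 : a ≤ c) (h2 : c ≤ b) (h3 : b ≤ d) :
    (segment ℝ (E a) (E b) ∩ segment ℝ (E c) (E d)).Nonempty := by
  rcases h1.eq_or_lt with h | h
  · subst h
    exact ⟨E a, left_mem_segment ℝ _ _, left_mem_segment ℝ _ _⟩
  have s3 : 0 < S (E c) (E d) (E a) := S_pos hc hd ha hcd (Or.inr h)
  have s4 : S (E c) (E d) (E b) ≤ 0 := by
    rcases h2.eq_or_lt with h' | h'
    · rw [h', S_left]
    · rcases h3.eq_or_lt with h'' | h''
      · rw [h'', S_right]
      · exact (S_neg hc hd hb h' h'').le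
  have s1 : S (E a) (E b) (E c) ≤ 0 := by
    rcases h2.eq_or_lt with h' | h'
    · rw [h', S_right]
    · exact (S_neg ha hb hc h h').le
  have s2 : 0 ≤ S (E a) (E b) (E d) := by
    rcases h3.eq_or_lt with h'' | h''
    · rw [h'', S_right]
    · exact (S_pos ha hb hd hab (Or.inl h'')).le
  have hden : S (E a) (E b) (E d) - S (E a) (E b) (E c) =
      S (E c) (E d) (E a) - S (E c) (E d) (E b) := by unfold S; ring
  set Δ := S (E c) (E d) (E a) - S (E c) (E d) (E b) with hΔ
  have hΔpos : 0 < Δ := by rw [hΔ]; linarith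
  refine ⟨(-S (E c) (E d) (E b) / Δ) • E a + (S (E c) (E d) (E a) / Δ) • E b, ?_, ?_⟩
  · refine ⟨_, _, div_nonneg (by linarith) hΔpos.le, div_nonneg s3.le hΔpos.le, ?_, rfl⟩
    rw [← add_div, div_eq_one_iff_eq hΔpos.ne', hΔ]; ring
  · refine ⟨S (E a) (E b) (E d) / Δ, -S (E a) (E b) (E c) / Δ, div_nonneg s2 hΔpos.le,
      div_nonneg (by linarith) hΔpos.le, ?_, ?_⟩
    · rw [← add_div, div_eq_one_iff_eq hΔpos.ne', ← hden]; ring
    · apply Complex.ext
      · simp only [Complex.add_re, Complex.real_smul, Complex.mul_re, Complex.ofReal_re,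
          Complex.ofReal_im]
        field_simp
        unfold S
        ring
      · simp only [Complex.add_im, Complex.real_smul, Complex.mul_im, Complex.ofReal_re,
          Complex.ofReal_im]
        field_simp
        unfold S
        ring

lemma seg_inter_iff {a b c d : ℝ} (ha : Ang a) (hb : Ang b) (hc : Ang c) (hd : Ang d)
    (hab : a < b) (hcd : c < d) :
    (segment ℝ (E a) (E b) ∩ segment ℝ (E c) (E d)).Nonempty ↔ WI a b c d := by
  constructor
  · rintro ⟨z, hz1, hz2⟩
    by_contra hW
    unfold WI at hW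
    have h0 := S_zero_of_mem hz1
    have h0' := S_zero_of_mem hz2
    rcases lt_or_ge b c with h | h
    · have := S_pos_of_mem hz2 (S_pos ha hb hc hab (Or.inl h))
        (S_pos ha hb hd hab (Or.inl (h.trans hcd)))
      linarith
    rcases lt_or_ge d a with h' | h'
    · have := S_pos_of_mem hz2 (S_pos ha hb hc hab (Or.inr (hcd.trans h')))
        (S_pos ha hb hd hab (Or.inr h'))
      linarith
    rcases lt_or_ge a c with h2 | h2
    · rcases lt_or_ge d b with h3 | h3
      · have := S_neg_of_mem hz2 (S_neg ha hb hc h2 (hcd.trans h3))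
          (S_neg ha hb hd (h2.trans hcd) h3)
        linarith
      · exact hW (Or.inl ⟨h2.le, h, h3⟩)
    · rcases lt_or_ge b d with h3 | h3
      · rcases h2.eq_or_lt with h4 | h4
        · exact hW (Or.inl ⟨h4.symm.le, h, h3.le⟩)
        · have := S_neg_of_mem hz1 (S_neg hc hd ha h4 (hab.trans h3))
            (S_neg hc hd hb (h4.trans hab) h3)
          linarith
      · exact hW (Or.inr ⟨h2, h', h3⟩)
  · rintro (⟨h1, h2, h3⟩ | ⟨h1, h2, h3⟩)
    · exact seg_inter_of_WI' ha hb hc hd hab hcd h1 h2 h3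
    · rw [Set.inter_comm]
      exact seg_inter_of_WI' hc hd ha hb hcd hab h1 h2 h3

/-- ranking -/
lemma exists_rank {X L : Type*} [Finite X] [LinearOrder L] (key : X → L)
    (hk : Function.Injective key) : ∃ pos : X → ℤ, ∀ x y, pos x < pos y ↔ key x < key y := by
  classical
  have := Fintype.ofFinite X
  have h1 : ∀ x y, key x < key y → ((Finset.univ.filter (fun z => key z < key x)).card : ℤ) <
      ((Finset.univ.filter (fun z => key z < key y)).card : ℤ) := by
    intro x y hxy
    have : (Finset.univ.filter (fun z => key z < key x)) ⊂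
        (Finset.univ.filter (fun z => key z < key y)) := by
      refine ⟨fun z hz => ?_, fun hs => ?_⟩
      · simp only [Finset.mem_filter, Finset.mem_univ, true_and] at hz ⊢
        exact hz.trans hxy
      · have hx : x ∈ Finset.univ.filter (fun z => key z < key y) := by simpa using hxy
        have := hs hx
        simp at this
    exact_mod_cast Finset.card_lt_card this
  refine ⟨fun x => ((Finset.univ.filter (fun z => key z < key x)).card : ℤ), fun x y =>
    ⟨fun h => ?_, h1 x y⟩⟩
  by_contra hno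
  rcases (not_lt.mp hno).eq_or_lt with h2 | h2
  · have := hk h2; subst this; exact lt_irrefl _ h
  · exact absurd (h1 y x h2) (not_lt.mpr h.le)

lemma circ_of_WI [Finite V] {G : SimpleGraph V} (α β : V → ℝ) (hα : ∀ v, Ang (α v))
    (hβ : ∀ v, Ang (β v)) (hαβ : ∀ v, α v < β v)
    (hadj : ∀ u v, u ≠ v → (G.Adj u v ↔ WI (α u) (β u) (α v) (β v))) : Circ G Set.univ := by
  obtain ⟨n, ⟨e⟩⟩ := Finite.exists_equiv_fin V
  set key : V × Bool → ℝ ×ₗ (ℝ ×ₗ ℕ) := fun x => if x.2 then
    toLex (α x.1, toLex (β x.1 - α x.1, (e x.1).val)) else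
    toLex (β x.1, toLex (α x.1 - β x.1 + 2 * Real.pi, (e x.1).val)) with hkey
  have kt : ∀ v, key (v, true) = toLex (α v, toLex (β v - α v, (e v).val)) := by
    intro v; simp [hkey]
  have kf : ∀ v, key (v, false) =
      toLex (β v, toLex (α v - β v + 2 * Real.pi, (e v).val)) := by
    intro v; simp [hkey]
  have hinj : Function.Injective key := by
    rintro ⟨u, s⟩ ⟨v, t⟩ h
    cases s <;> cases t
    · rw [kf, kf] at h
      simp only [EmbeddingLike.apply_eq_iff_eq, Prod.mk.injEq] at h
      have := e.injective (Fin.ext h.2.2)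
      rw [this]
    · rw [kf, kt] at h
      simp only [EmbeddingLike.apply_eq_iff_eq, Prod.mk.injEq] at h
      have := e.injective (Fin.ext h.2.2)
      subst this
      exact absurd h.1 (hαβ u).ne'
    · rw [kt, kf] at h
      simp only [EmbeddingLike.apply_eq_iff_eq, Prod.mk.injEq] at h
      have := e.injective (Fin.ext h.2.2)
      subst this
      exact absurd h.1 (hαβ u).ne
    · rw [kt, kt] at h
      simp only [EmbeddingLike.apply_eq_iff_eq, Prod.mk.injEq] at h
      have := e.injective (Fin.ext h.2.2)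
      rw [this]
  obtain ⟨pos, hpos⟩ := exists_rank key hinj
  have hne : ∀ x y, x ≠ y → pos x ≠ pos y := by
    intro x y hxy h
    rcases lt_or_gt_of_ne (fun h' => hxy (hinj h') : key x ≠ key y) with h' | h'
    · have := (hpos x y).mpr h'; omega
    · have := (hpos y x).mpr h'; omega
  have tt : ∀ u v, u ≠ v → (pos (u, true) < pos (v, true) ↔ (α u < α v ∨ (α u = α v ∧
      (β u < β v ∨ (β u = β v ∧ (e u).val < (e v).val))))) := by
    intro u v _
    rw [hpos, kt, kt, Prod.Lex.toLex_lt_toLex, Prod.Lex.toLex_lt_toLex]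
    constructor
    · rintro (h | ⟨h1, h2 | ⟨h2, h3⟩⟩)
      · exact Or.inl h
      · simp only at h1 h2; exact Or.inr ⟨h1, Or.inl (by linarith)⟩
      · simp only at h1 h2 h3; exact Or.inr ⟨h1, Or.inr ⟨by linarith, h3⟩⟩
    · rintro (h | ⟨h1, h2 | ⟨h2, h3⟩⟩)
      · exact Or.inl h
      · exact Or.inr ⟨h1, Or.inl (by simp only; linarith)⟩
      · exact Or.inr ⟨h1, Or.inr ⟨by simp only; linarith, h3⟩⟩
  have ff : ∀ u v, u ≠ v → (pos (u, false) < pos (v, false) ↔ (β u < β v ∨ (β u = β v ∧
      (α u < α v ∨ (α u = α v ∧ (e u).val < (e v).val))))) := by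
    intro u v _
    rw [hpos, kf, kf, Prod.Lex.toLex_lt_toLex, Prod.Lex.toLex_lt_toLex]
    constructor
    · rintro (h | ⟨h1, h2 | ⟨h2, h3⟩⟩)
      · exact Or.inl h
      · simp only at h1 h2; exact Or.inr ⟨h1, Or.inl (by linarith)⟩
      · simp only at h1 h2 h3; exact Or.inr ⟨h1, Or.inr ⟨by linarith, h3⟩⟩
    · rintro (h | ⟨h1, h2 | ⟨h2, h3⟩⟩)
      · exact Or.inl h
      · exact Or.inr ⟨h1, Or.inl (by simp only; linarith)⟩
      · exact Or.inr ⟨h1, Or.inr ⟨by simp only; linarith, h3⟩⟩
  have tf : ∀ u v, (pos (u, true) < pos (v, false) ↔ α u ≤ β v) := by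
    intro u v
    have p1 := hα v
    have p2 := hβ u
    unfold Ang at p1 p2
    rw [hpos, kt, kf, Prod.Lex.toLex_lt_toLex, Prod.Lex.toLex_lt_toLex]
    constructor
    · rintro (h | ⟨h1, _⟩)
      · exact le_of_lt h
      · exact le_of_eq h1
    · intro h
      rcases h.eq_or_lt with h' | h'
      · refine Or.inr ⟨h', Or.inl ?_⟩
        simp only
        linarith
      · exact Or.inl h'
  refine ⟨fun v => pos (v, true), fun v => pos (v, false), ?_, ?_⟩
  · intro u _
    exact hne _ _ (by simp)
  · intro u _ v _ huv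
    refine ⟨hne _ _ (by simp [huv]), hne _ _ (by simp), hne _ _ (by simp),
      hne _ _ (by simp [huv]), ?_⟩
    rw [hadj u v huv]
    have a1 := tt u v huv
    have a2 := tt v u huv.symm
    have b1 := ff u v huv
    have b2 := ff v u huv.symm
    have c1 := tf u v
    have c2 := tf v u
    have c3 := (tf u u).mpr (hαβ u).le
    have c4 := (tf v v).mpr (hαβ v).le
    have hidx : (e u).val ≠ (e v).val := fun h => huv (e.injective (Fin.ext h))
    constructor
    · -- weak interlacing gives crossing
      intro hW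
      have main : (pos (u, true) < pos (v, true) ∧ pos (v, true) < pos (u, false) ∧
          pos (u, false) < pos (v, false)) ∨ (pos (v, true) < pos (u, true) ∧
          pos (u, true) < pos (v, false) ∧ pos (v, false) < pos (u, false)) := by
        rcases hW with ⟨h1, h2, h3⟩ | ⟨h1, h2, h3⟩
        · have h4 : α u ≤ β v := h1.trans (h2.trans h3)
          rcases h1.eq_or_lt with h1' | h1'
          · rcases h3.eq_or_lt with h3' | h3'
            · rcases lt_or_gt_of_ne hidx with hi | hi
              · exact Or.inl ⟨a1.mpr (Or.inr ⟨h1', Or.inr ⟨h3', hi⟩⟩), c2.mpr h2,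
                  b1.mpr (Or.inr ⟨h3', Or.inr ⟨h1', hi⟩⟩)⟩
              · exact Or.inr ⟨a2.mpr (Or.inr ⟨h1'.symm, Or.inr ⟨h3'.symm, hi⟩⟩), c1.mpr h4,
                  b2.mpr (Or.inr ⟨h3'.symm, Or.inr ⟨h1'.symm, hi⟩⟩)⟩
            · exact Or.inl ⟨a1.mpr (Or.inr ⟨h1', Or.inl h3'⟩), c2.mpr h2,
                b1.mpr (Or.inl h3')⟩
          · rcases h3.eq_or_lt with h3' | h3'
            · exact Or.inl ⟨a1.mpr (Or.inl h1'), c2.mpr h2,
                b1.mpr (Or.inr ⟨h3', Or.inl h1'⟩)⟩
            · exact Or.inl ⟨a1.mpr (Or.inl h1'), c2.mpr h2, b1.mpr (Or.inl h3')⟩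
        · have h4 : α v ≤ β u := h1.trans (h2.trans h3)
          rcases h1.eq_or_lt with h1' | h1'
          · rcases h3.eq_or_lt with h3' | h3'
            · rcases lt_or_gt_of_ne hidx with hi | hi
              · exact Or.inl ⟨a1.mpr (Or.inr ⟨h1'.symm, Or.inr ⟨h3'.symm, hi⟩⟩), c2.mpr h4,
                  b1.mpr (Or.inr ⟨h3'.symm, Or.inr ⟨h1'.symm, hi⟩⟩)⟩
              · exact Or.inr ⟨a2.mpr (Or.inr ⟨h1', Or.inr ⟨h3', hi⟩⟩), c1.mpr h2,
                  b2.mpr (Or.inr ⟨h3', Or.inr ⟨h1', hi⟩⟩)⟩
            · exact Or.inr ⟨a2.mpr (Or.inr ⟨h1', Or.inl h3'⟩), c1.mpr h2,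
                b2.mpr (Or.inl h3')⟩
          · rcases h3.eq_or_lt with h3' | h3'
            · exact Or.inr ⟨a2.mpr (Or.inl h1'), c1.mpr h2,
                b2.mpr (Or.inr ⟨h3', Or.inl h1'⟩)⟩
            · exact Or.inr ⟨a2.mpr (Or.inl h1'), c1.mpr h2, b2.mpr (Or.inl h3')⟩
      clear a1 a2 b1 b2 c1 c2 hW
      beta_reduce
      unfold Cross Btw; omega
    · intro hC
      beta_reduce at hC
      have main : (pos (u, true) < pos (v, true) ∧ pos (v, true) < pos (u, false) ∧
          pos (u, false) < pos (v, false)) ∨ (pos (v, true) < pos (u, true) ∧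
          pos (u, true) < pos (v, false) ∧ pos (v, false) < pos (u, false)) := by
        have d1 := hne (u, true) (v, true) (by simp [huv])
        have d2 := hne (u, true) (v, false) (by simp)
        have d3 := hne (u, false) (v, true) (by simp)
        have d4 := hne (u, false) (v, false) (by simp [huv])
        clear a1 a2 b1 b2 c1 c2
        unfold Cross Btw at hC; omega
      rcases main with ⟨h1, h2, h3⟩ | ⟨h1, h2, h3⟩
      · left
        refine ⟨?_, c2.mp h2, ?_⟩
        · rcases a1.mp h1 with h | ⟨h, _⟩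
          · exact h.le
          · exact h.le
        · rcases b1.mp h3 with h | ⟨h, _⟩
          · exact h.le
          · exact h.le
      · right
        refine ⟨?_, c1.mp h2, ?_⟩
        · rcases a2.mp h1 with h | ⟨h, _⟩
          · exact h.le
          · exact h.le
        · rcases b2.mp h3 with h | ⟨h, _⟩
          · exact h.le
          · exact h.le

theorem isCircleGraph_iff [Finite V] (G : SimpleGraph V) :
    IsCircleGraph G ↔ Circ G Set.univ := by
  constructor
  · rintro ⟨a, b, hab, hadj⟩
    have hea : ∀ v, (a v : ℂ) = E (Complex.arg (a v : ℂ)) := by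
      intro v; unfold E; rw [Circle.exp_arg]
    have heb : ∀ v, (b v : ℂ) = E (Complex.arg (b v : ℂ)) := by
      intro v; unfold E; rw [Circle.exp_arg]
    have hne : ∀ v, Complex.arg (a v : ℂ) ≠ Complex.arg (b v : ℂ) := by
      intro v h
      apply hab v
      apply Subtype.ext
      rw [hea v, heb v, h]
    have hA : ∀ z : ℂ, Ang (Complex.arg z) := fun z =>
      ⟨Complex.neg_pi_lt_arg z, Complex.arg_le_pi z⟩
    refine circ_of_WI (fun v => min (Complex.arg (a v : ℂ)) (Complex.arg (b v : ℂ)))
      (fun v => max (Complex.arg (a v : ℂ)) (Complex.arg (b v : ℂ))) ?_ ?_ ?_ ?_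
    · intro v
      rcases min_choice (Complex.arg (a v : ℂ)) (Complex.arg (b v : ℂ)) with h | h <;>
        simp only [h] <;> exact hA _
    · intro v
      rcases max_choice (Complex.arg (a v : ℂ)) (Complex.arg (b v : ℂ)) with h | h <;>
        simp only [h] <;> exact hA _
    · intro v
      exact min_lt_max.mpr (hne v)
    · intro u v huv
      rw [hadj u v huv]
      have hseg : ∀ v, segment ℝ (a v : ℂ) (b v : ℂ) =
          segment ℝ (E (min (Complex.arg (a v : ℂ)) (Complex.arg (b v : ℂ))))
            (E (max (Complex.arg (a v : ℂ)) (Complex.arg (b v : ℂ)))) := by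
        intro v
        rcases le_total (Complex.arg (a v : ℂ)) (Complex.arg (b v : ℂ)) with h | h
        · rw [min_eq_left h, max_eq_right h, ← hea, ← heb]
        · rw [min_eq_right h, max_eq_left h, ← hea, ← heb, segment_symm]
      rw [hseg u, hseg v]
      apply seg_inter_iff
      · rcases min_choice (Complex.arg (a u : ℂ)) (Complex.arg (b u : ℂ)) with h | h <;>
          rw [h] <;> exact hA _
      · rcases max_choice (Complex.arg (a u : ℂ)) (Complex.arg (b u : ℂ)) with h | h <;>
          rw [h] <;> exact hA _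
      · rcases min_choice (Complex.arg (a v : ℂ)) (Complex.arg (b v : ℂ)) with h | h <;>
          rw [h] <;> exact hA _
      · rcases max_choice (Complex.arg (a v : ℂ)) (Complex.arg (b v : ℂ)) with h | h <;>
          rw [h] <;> exact hA _
      · exact min_lt_max.mpr (hne u)
      · exact min_lt_max.mpr (hne v)
  · rintro ⟨p0, q0, h1, h2⟩
    -- normalise
    set p : V → ℤ := fun v => min (p0 v) (q0 v) with hp
    set q : V → ℤ := fun v => max (p0 v) (q0 v) with hq
    have hpq : ∀ v, p v < q v := by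
      intro v; have := h1 v trivial; simp only [hp, hq]; omega
    have hrep : ∀ u v, u ≠ v → p u ≠ p v ∧ p u ≠ q v ∧ q u ≠ p v ∧ q u ≠ q v ∧
        (G.Adj u v ↔ Cross (p u) (q u) (p v) (q v)) := by
      intro u v huv
      obtain ⟨e1, e2, e3, e4, e5⟩ := h2 u trivial v trivial huv
      have f1 := h1 u trivial
      have f2 := h1 v trivial
      simp only [hp, hq]
      refine ⟨by omega, by omega, by omega, by omega, ?_⟩
      rw [e5]; unfold Cross Btw; omega
    obtain ⟨K, hK, hb⟩ := exists_bound p q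
    have hKr : (0 : ℝ) < K := by exact_mod_cast hK
    have hpi := Real.pi_pos
    set θ : ℤ → ℝ := fun x => Real.pi * (x : ℝ) / K with hθ
    have hmono : ∀ x y : ℤ, x < y ↔ θ x < θ y := by
      intro x y
      simp only [hθ]
      rw [div_lt_div_iff_of_pos_right hKr, mul_lt_mul_iff_right₀ hpi]
      exact_mod_cast Iff.rfl
    have hmono' : ∀ x y : ℤ, x ≤ y ↔ θ x ≤ θ y := by
      intro x y
      rw [← not_lt, ← not_lt, hmono]
    have hang : ∀ x : ℤ, -K < x → x < K → Ang (θ x) := by
      intro x hx1 hx2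
      have e1 : (-(K : ℝ)) < x := by exact_mod_cast hx1
      have e2 : (x : ℝ) < K := by exact_mod_cast hx2
      constructor
      · simp only [hθ]
        rw [lt_div_iff₀ hKr]
        nlinarith
      · simp only [hθ]
        rw [div_le_iff₀ hKr]
        nlinarith
    have hap : ∀ v, Ang (θ (p v)) := fun v => hang _ (hb v).1 (hb v).2.1
    have haq : ∀ v, Ang (θ (q v)) := fun v => hang _ (hb v).2.2.1 (hb v).2.2.2
    refine ⟨fun v => Circle.exp (θ (p v)), fun v => Circle.exp (θ (q v)), ?_, ?_⟩
    · intro v h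
      have h' := congrArg (fun z : Circle => Complex.arg (z : ℂ)) h
      beta_reduce at h'
      rw [Circle.arg_exp (hap v).1 (hap v).2, Circle.arg_exp (haq v).1 (haq v).2] at h'
      have := (hmono (p v) (q v)).mp (hpq v)
      linarith
    · intro u v huv
      have hs := seg_inter_iff (hap u) (haq u) (hap v) (haq v) ((hmono _ _).mp (hpq u))
        ((hmono _ _).mp (hpq v))
      unfold E at hs
      rw [hs]
      obtain ⟨e1, e2, e3, e4, e5⟩ := hrep u v huv
      rw [e5]
      unfold WI
      rw [← hmono', ← hmono', ← hmono', ← hmono', ← hmono', ← hmono']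
      have f1 := hpq u
      have f2 := hpq v
      unfold Cross Btw; omega

end Pool.Agent.Lib.MP_50b720_co
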