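import Pool.Agent.Lib.MP_50b720_co.Final

set_option autoImplicit false

namespace Pool.Agent.Lib.MP_50b720_co

open SimpleGraph

variable {V : Type*}

instance (a b c d : ℤ) : Decidable (Cross a b c d) := by unfold Cross Btw; infer_instance

/-! ### Transfer along embeddings -/

lemma Circ.of_emb {W : Type*} {H : SimpleGraph W} {G : SimpleGraph V} (f : H ↪g G) {S : Set V}
    {T : Set W} (h : Circ G S) (hT : ∀ x ∈ T, f x ∈ S) : Circ H T := by
  obtain ⟨p, q, h1, h2⟩ := h
  refine ⟨fun x => p (f x), fun x => q (f x), fun u hu => h1 _ (hT u hu), ?_⟩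
  intro u hu v hv huv
  obtain ⟨e1, e2, e3, e4, e5⟩ := h2 _ (hT u hu) _ (hT v hv) (fun h' => huv (f.injective h'))
  refine ⟨e1, e2, e3, e4, ?_⟩
  rw [← e5]
  exact (f.map_adj_iff).symm

lemma IsChordal.of_ind {W : Type*} {H : SimpleGraph W} {G : SimpleGraph V} (hG : IsChordal G)
    (h : H ⊴ G) : IsChordal H := fun n hn hc => hG n hn (hc.trans h)

/-! ### Chordality via a rank function -/

lemma chordal_of_rank {G : SimpleGraph V} (r : V → ℕ)
    (h : ∀ x y z, G.Adj x y → G.Adj x z → y ≠ z → r x ≤ r y → r x ≤ r z → G.Adj y z) :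
    IsChordal G := by
  rintro n hn ⟨f⟩
  obtain ⟨N, rfl⟩ : ∃ N, n = N + 1 := ⟨n - 1, by omega⟩
  have hN : 3 ≤ N := by omega
  obtain ⟨i, _, hi⟩ := Finset.exists_min_image (Finset.univ : Finset (Fin (N + 1)))
    (fun i => r (f i)) ⟨0, Finset.mem_univ _⟩
  have hmin : ∀ j, r (f i) ≤ r (f j) := fun j => hi j (Finset.mem_univ j)
  obtain ⟨a, b, ha, hb, hab, hn'⟩ : ∃ a b : Fin (N + 1), (cycleGraph (N + 1)).Adj i a ∧
      (cycleGraph (N + 1)).Adj i b ∧ a < b ∧ ¬ (cycleGraph (N + 1)).Adj a b := by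
    have hilt := i.isLt
    rcases Nat.eq_zero_or_pos i.val with h0 | h0
    · refine ⟨⟨1, by omega⟩, ⟨N, by omega⟩, ?_, ?_, ?_, ?_⟩
      · rw [cycle_adj_iff hN (by rw [Fin.lt_def]; simp only; omega)]
        first | (simp only; omega) | (simp only [and_true]; omega) | (simp only [true_and]; omega) | simp
      · rw [cycle_adj_iff hN (by rw [Fin.lt_def]; simp only; omega)]
        first | (simp only; omega) | (simp only [and_true]; omega) | (simp only [true_and]; omega) | simp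
      · rw [Fin.lt_def]; simp only; omega
      · rw [cycle_adj_iff hN (by rw [Fin.lt_def]; simp only; omega)]
        first | (simp only; omega) | (simp only [and_true]; omega) | (simp only [true_and]; omega) | simp
    · rcases Nat.lt_or_ge i.val N with h1 | h1
      · refine ⟨⟨i.val - 1, by omega⟩, ⟨i.val + 1, by omega⟩, ?_, ?_, ?_, ?_⟩
        · rw [(cycleGraph (N + 1)).adj_comm,
            cycle_adj_iff hN (by rw [Fin.lt_def]; simp only; omega)]
          first | (simp only; omega) | (simp only [and_true]; omega) | (simp only [true_and]; omega) | simp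
        · rw [cycle_adj_iff hN (by rw [Fin.lt_def]; simp only; omega)]
          first | (simp only; omega) | (simp only [and_true]; omega) | (simp only [true_and]; omega) | simp
        · rw [Fin.lt_def]; simp only; omega
        · rw [cycle_adj_iff hN (by rw [Fin.lt_def]; simp only; omega)]
          first | (simp only; omega) | (simp only [and_true]; omega) | (simp only [true_and]; omega) | simp
      · refine ⟨⟨0, by omega⟩, ⟨N - 1, by omega⟩, ?_, ?_, ?_, ?_⟩
        · rw [(cycleGraph (N + 1)).adj_comm,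
            cycle_adj_iff hN (by rw [Fin.lt_def]; simp only; omega)]
          first | (simp only; omega) | (simp only [and_true]; omega) | (simp only [true_and]; omega) | simp
        · rw [(cycleGraph (N + 1)).adj_comm,
            cycle_adj_iff hN (by rw [Fin.lt_def]; simp only; omega)]
          first | (simp only; omega) | (simp only [and_true]; omega) | (simp only [true_and]; omega) | simp
        · rw [Fin.lt_def]; simp only; omega
        · rw [cycle_adj_iff hN (by rw [Fin.lt_def]; simp only; omega)]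
          first | (simp only; omega) | (simp only [and_true]; omega) | (simp only [true_and]; omega) | simp
  apply hn'
  rw [← f.map_adj_iff]
  exact h (f i) (f a) (f b) (f.map_adj_iff.mpr ha) (f.map_adj_iff.mpr hb)
    (fun h' => hab.ne (f.injective h')) (hmin a) (hmin b)

lemma k5e_free_of {G : SimpleGraph V} (h : ∀ a b, a ≠ b → ¬ G.Adj a b → ∀ x, G.Adj a x →
    G.Adj b x → ∀ y, G.Adj a y → G.Adj b y → ∀ z, G.Adj a z → G.Adj b z →
    x = y ∨ x = z ∨ y = z) : ¬ K5e ⊴ G := by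
  rintro ⟨f⟩
  have h1 : ∀ i j : Fin 5, G.Adj (f i) (f j) ↔ K5e.Adj i j := fun i j => f.map_adj_iff
  have := h (f 0) (f 1) (fun h' => absurd (f.injective h') (by decide))
    (by rw [h1]; decide) (f 2) (by rw [h1]; decide) (by rw [h1]; decide) (f 3)
    (by rw [h1]; decide) (by rw [h1]; decide) (f 4) (by rw [h1]; decide) (by rw [h1]; decide)
  rcases this with h' | h' | h' <;> exact absurd (f.injective h') (by decide)

/-! ### The three small graphs -/

lemma starK4_chordal : IsChordal starK4 :=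
  chordal_of_rank ![1, 1, 1, 1, 0, 0, 0] (by decide +kernel)

lemma bookA_chordal : IsChordal bookA :=
  chordal_of_rank ![2, 2, 1, 1, 1, 0, 0, 0] (by decide +kernel)

lemma bookB_chordal : IsChordal bookB :=
  chordal_of_rank ![2, 2, 1, 1, 1, 0, 0, 0] (by decide +kernel)

lemma starK4_k5e : ¬ K5e ⊴ starK4 := k5e_free_of (by decide +kernel)

lemma bookA_k5e : ¬ K5e ⊴ bookA := k5e_free_of (by decide +kernel)

lemma bookB_k5e : ¬ K5e ⊴ bookB := k5e_free_of (by decide +kernel)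

lemma circ_compl_of {n : ℕ} (H : SimpleGraph (Fin n)) (P Q : Fin n → Fin n → ℤ)
    (h1 : ∀ v u, u ≠ v → P v u ≠ Q v u)
    (h2 : ∀ v u w, u ≠ v → w ≠ v → u ≠ w → P v u ≠ P v w ∧ P v u ≠ Q v w ∧ Q v u ≠ P v w ∧
      Q v u ≠ Q v w ∧ (H.Adj u w ↔ Cross (P v u) (Q v u) (P v w) (Q v w))) (v : Fin n) :
    Circ H {v}ᶜ :=
  ⟨P v, Q v, fun u hu => h1 v u hu, fun u hu w hw huw => h2 v u w hu hw huw⟩

lemma starK4_circ (v : Fin 7) : Circ starK4 {v}ᶜ :=
  circ_compl_of starK4
    ![![-2, 7, 5, 2, 0, 4, 1], ![5, -2, 3, 2, 0, 1, 4], ![5, 3, -2, 2, 1, 0, 4],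
      ![5, 3, 2, -2, 1, 4, 0], ![5, 2, 0, 4, -2, 1, 3], ![5, 3, 2, 1, 0, -2, 4],
      ![5, 3, 1, 2, 0, 4, -2]]
    ![![-1, 11, 9, 8, 10, 6, 3], ![11, -1, 9, 6, 10, 8, 7], ![11, 9, -1, 6, 8, 10, 7],
      ![11, 9, 6, -1, 8, 7, 10], ![11, 8, 7, 9, -1, 10, 6], ![11, 10, 8, 6, 9, -1, 7],
      ![11, 10, 6, 8, 9, 7, -1]]
    (by decide +kernel) (by decide +kernel) v

lemma bookA_circ (v : Fin 8) : Circ bookA {v}ᶜ :=
  circ_compl_of bookA
    ![![-2, 9, 7, 4, 1, 6, 3, 0], ![6, -2, 5, 3, 1, 4, 2, 0], ![6, 4, -2, 3, 1, 0, 5, 2],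
      ![6, 4, 3, -2, 1, 5, 0, 2], ![6, 4, 3, 1, -2, 5, 2, 0], ![6, 4, 2, 0, 3, -2, 1, 5],
      ![6, 4, 3, 2, 0, 5, -2, 1], ![6, 4, 3, 0, 2, 5, 1, -2]]
    ![![-1, 13, 10, 11, 12, 8, 5, 2], ![13, -1, 8, 10, 12, 7, 9, 11],
      ![13, 10, -1, 7, 9, 12, 8, 11], ![13, 10, 7, -1, 9, 8, 12, 11],
      ![13, 10, 7, 9, -1, 8, 11, 12], ![13, 11, 9, 10, 7, -1, 12, 8],
      ![13, 11, 7, 9, 10, 8, -1, 12], ![13, 11, 7, 10, 9, 8, 12, -1]]
    (by decide +kernel) (by decide +kernel) v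

lemma bookB_circ (v : Fin 8) : Circ bookB {v}ᶜ :=
  circ_compl_of bookB
    ![![-2, 8, 6, 3, 1, 5, 2, 0], ![7, -2, 6, 4, 1, 5, 3, 0], ![5, 3, -2, 2, 1, 0, 4, 8],
      ![5, 3, 2, -2, 1, 4, 0, 8], ![7, 4, 2, 0, -2, 6, 1, 3], ![7, 5, 2, 0, 4, -2, 1, 3],
      ![5, 3, 2, 1, 0, 4, -2, 9], ![6, 4, 3, 0, 2, 5, 1, -2]]
    ![![-1, 13, 9, 10, 12, 7, 4, 11], ![13, -1, 9, 11, 12, 8, 10, 2],
      ![13, 10, -1, 6, 9, 12, 7, 11], ![13, 10, 6, -1, 9, 7, 12, 11],
      ![13, 11, 8, 10, -1, 9, 12, 5], ![13, 11, 9, 10, 8, -1, 12, 6],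
      ![13, 11, 6, 8, 10, 7, -1, 12], ![13, 11, 7, 10, 9, 8, 12, -1]]
    (by decide +kernel) (by decide +kernel) v

/-! ### Suns -/

section sun

variable {k : ℕ}

lemma sun_chordal : IsChordal (sun k) := by
  refine chordal_of_rank (Sum.elim (fun _ => 1) (fun _ => 0)) ?_
  rintro (x | x) (y | y) (z | z) hxy hxz hyz h1 h2
  · rw [sun_vv]; exact fun h => hyz (congrArg _ h)
  · simp at h2
  · simp at h1
  · simp at h1
  · rw [sun_vv]; exact fun h => hyz (congrArg _ h)
  · exact absurd hxz (sun_ww _ _)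
  · exact absurd hxy (sun_ww _ _)
  · exact absurd hxy (sun_ww _ _)

lemma csun_chordal : IsChordal (centeredSun k) := by
  refine chordal_of_rank (Sum.elim (fun _ => 1) (fun _ => 0)) ?_
  rintro (x | x) (y | y) (z | z) hxy hxz hyz h1 h2
  · rw [csun_vv]; exact fun h => hyz (congrArg _ h)
  · simp at h2
  · simp at h1
  · simp at h1
  · rw [csun_vv]; exact fun h => hyz (congrArg _ h)
  · exact absurd hxz (csun_ww _ _)
  · exact absurd hxy (csun_ww _ _)
  · exact absurd hxy (csun_ww _ _)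

lemma pigeon {X : Type*} {p q : X} {x y z : X} (hx : x = p ∨ x = q) (hy : y = p ∨ y = q)
    (hz : z = p ∨ z = q) : x = y ∨ x = z ∨ y = z := by
  rcases hx with rfl | rfl <;> rcases hy with rfl | rfl <;> rcases hz with rfl | rfl <;> simp

lemma sun_w_nbr {i : ZMod k} {x : ZMod k ⊕ ZMod k} (h : (sun k).Adj (Sum.inr i) x) :
    x = Sum.inl i ∨ x = Sum.inl (i + 1) := by
  rcases x with x | x
  · rcases (sun_wv i x).mp h with h | h <;> simp [h]
  · exact absurd h (sun_ww _ _)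

lemma csun_w_nbr {i : ZMod k} {x : Option (ZMod k) ⊕ ZMod k}
    (h : (centeredSun k).Adj (Sum.inr i) x) :
    x = Sum.inl (some i) ∨ x = Sum.inl (some (i + 1)) := by
  rcases x with x | x
  · rcases (csun_wv i x).mp h with h | h <;> simp [h]
  · exact absurd h (csun_ww _ _)

lemma sun_k5e : ¬ K5e ⊴ sun k := by
  apply k5e_free_of
  rintro (a | a) (b | b) hab hnab x h1 h2 y h3 h4 z h5 h6
  · exact absurd ((sun_vv a b).mpr (fun h => hab (congrArg _ h))) hnab
  · exact pigeon (sun_w_nbr h2) (sun_w_nbr h4) (sun_w_nbr h6)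
  · exact pigeon (sun_w_nbr h1) (sun_w_nbr h3) (sun_w_nbr h5)
  · exact pigeon (sun_w_nbr h1) (sun_w_nbr h3) (sun_w_nbr h5)

lemma csun_k5e : ¬ K5e ⊴ centeredSun k := by
  apply k5e_free_of
  rintro (a | a) (b | b) hab hnab x h1 h2 y h3 h4 z h5 h6
  · exact absurd ((csun_vv a b).mpr (fun h => hab (congrArg _ h))) hnab
  · exact pigeon (csun_w_nbr h2) (csun_w_nbr h4) (csun_w_nbr h6)
  · exact pigeon (csun_w_nbr h1) (csun_w_nbr h3) (csun_w_nbr h5)
  · exact pigeon (csun_w_nbr h1) (csun_w_nbr h3) (csun_w_nbr h5)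

/-- shifted representatives: `i0 + 1` gets `0`, and `i0` gets `k - 1` -/
def shv (i0 j : ZMod k) : ℕ := (j - i0 - 1).val

lemma shv_lt [NeZero k] (i0 j : ZMod k) : shv i0 j < k := ZMod.val_lt _

lemma shv_inj [NeZero k] (i0 : ZMod k) {i j : ZMod k} (h : shv i0 i = shv i0 j) : i = j := by
  have := ZMod.val_injective k h
  linear_combination this

lemma shv_self (hk : 3 ≤ k) [NeZero k] (i0 : ZMod k) : shv i0 i0 = k - 1 := by
  unfold shv
  have h1 : ((k - 1 : ℕ) : ZMod k) = i0 - i0 - 1 := by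
    rw [Nat.cast_sub (by omega)]; simp
  rw [← h1, ZMod.val_natCast, Nat.mod_eq_of_lt (by omega)]

lemma shv_succ (hk : 3 ≤ k) [NeZero k] (i0 i j : ZMod k) :
    (j = i ∨ j = i + 1) ↔ (shv i0 j = shv i0 i ∨ shv i0 j = shv i0 i + 1 ∨
      (shv i0 i + 1 = k ∧ shv i0 j = 0)) := by
  unfold shv
  rw [← zmod_succ_iff hk]
  constructor
  · rintro (rfl | rfl)
    · exact Or.inl rfl
    · right; ring
  · rintro (h | h)
    · left; linear_combination h
    · right; linear_combination h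

/-- Deleting `v i0` or `w i0` from a centered sun gives a circle graph. -/
lemma csun_circ_aux (hk : 3 ≤ k) (i0 : ZMod k) (S : Set (Option (ZMod k) ⊕ ZMod k))
    (hS : Sum.inl (some i0) ∉ S ∨ Sum.inr i0 ∉ S) : Circ (centeredSun k) S := by
  have : NeZero k := ⟨by omega⟩
  obtain ⟨N, hN1, hN2⟩ : ∃ N, Odd N ∧ k + 2 ≤ N := ⟨2 * k + 3, ⟨k + 1, by ring⟩, by omega⟩
  have hself := shv_self hk i0
  set pos : Option (ZMod k) ⊕ ZMod k → ℕ := Sum.elim (fun o => o.elim k (shv i0)) (fun _ => 0)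
    with hpos
  set m : Option (ZMod k) ⊕ ZMod k → ℕ := Sum.elim (fun _ => 0)
    (fun i => if i = i0 then N - 1 else shv i0 i) with hm
  have pn : pos (Sum.inl none) = k := rfl
  have ps : ∀ i, pos (Sum.inl (some i)) = shv i0 i := fun i => rfl
  have mi : m (Sum.inr i0) = N - 1 := by simp [hm]
  have mo : ∀ i, i ≠ i0 → m (Sum.inr i) = shv i0 i := by intro i hi; simp [hm, hi]
  have hlt := shv_lt i0
  have hlt2 : ∀ i, i ≠ i0 → shv i0 i < k - 1 := by
    intro i hi
    have h1 := hlt i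
    have h2 : shv i0 i ≠ shv i0 i0 := fun h => hi (shv_inj i0 h)
    omega
  set K : Set (Option (ZMod k) ⊕ ZMod k) := {x ∈ S | ∃ o, x = Sum.inl o} with hK
  set D : Set (Option (ZMod k) ⊕ ZMod k) := {x ∈ S | ∃ i, x = Sum.inr i} with hD
  have hKD : K ∪ D = S := by
    ext x
    constructor
    · rintro (h | h)
      · exact h.1
      · exact h.1
    · intro h
      rcases x with x | x
      · exact Or.inl ⟨h, x, rfl⟩
      · exact Or.inr ⟨h, x, rfl⟩
  rw [← hKD]
  refine Circ.sun N hN1 (by omega) pos m ?_ ?_ ?_ ?_ ?_ ?_ ?_ ?_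
  · rintro _ ⟨_, (_ | i), rfl⟩
    · rw [pn]; omega
    · rw [ps]; have := hlt i; omega
  · rintro _ ⟨_, i, rfl⟩
    by_cases hi : i = i0
    · subst hi; rw [mi]; omega
    · rw [mo i hi]; have := hlt i; omega
  · rintro _ ⟨_, (_ | i), rfl⟩ _ ⟨_, (_ | j), rfl⟩ hne
    · exact absurd rfl hne
    · rw [pn, ps]; have := hlt j; omega
    · rw [pn, ps]; have := hlt i; omega
    · rw [ps, ps]
      intro h
      exact hne (by rw [shv_inj i0 h])
  · rintro _ ⟨_, i, rfl⟩ _ ⟨_, j, rfl⟩ hne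
    by_cases hi : i = i0 <;> by_cases hj : j = i0
    · exact absurd (by rw [hi, hj]) hne
    · rw [hi, mi, mo j hj]; have := hlt j; omega
    · rw [hj, mi, mo i hi]; have := hlt i; omega
    · rw [mo i hi, mo j hj]
      intro h
      exact hne (by rw [shv_inj i0 h])
  · rw [Set.disjoint_left]
    rintro _ ⟨_, o, rfl⟩ ⟨_, i, h⟩
    exact absurd h (by simp)
  · rintro _ ⟨_, i, rfl⟩ _ ⟨_, j, rfl⟩ hne
    rw [csun_vv]
    exact fun h => hne (by rw [h])
  · rintro _ ⟨_, i, rfl⟩ _ ⟨_, j, rfl⟩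
    exact csun_ww i j
  · rintro _ ⟨hwS, i, rfl⟩ _ ⟨hxS, (_ | j), rfl⟩
    · rw [csun_wv, pn]
      simp only [reduceCtorEq, or_self, false_iff]
      by_cases hi : i = i0
      · subst hi; rw [mi]; omega
      · rw [mo i hi]; have := hlt2 i hi; omega
    · rw [csun_wv, ps]
      have e1 : (some j = some i ∨ some j = some (i + 1)) ↔ (j = i ∨ j = i + 1) := by simp
      rw [e1, shv_succ hk i0 i j]
      have hj := hlt j
      by_cases hi : i = i0
      · subst hi
        have hji : shv i j ≠ shv i i := by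
          intro h
          have := shv_inj i h
          subst this
          rcases hS with h' | h'
          · exact h' hxS
          · exact h' hwS
        rw [mi]; omega
      · rw [mo i hi]; have := hlt2 i hi; omega

/-- The odd sun is a circle graph. -/
lemma csun_circ_center (hk : 3 ≤ k) (ho : Odd k) (S : Set (Option (ZMod k) ⊕ ZMod k))
    (hS : Sum.inl none ∉ S) : Circ (centeredSun k) S := by
  have : NeZero k := ⟨by omega⟩
  set pos : Option (ZMod k) ⊕ ZMod k → ℕ := Sum.elim (fun o => o.elim 0 ZMod.val) (fun _ => 0)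
    with hpos
  set m : Option (ZMod k) ⊕ ZMod k → ℕ := Sum.elim (fun _ => 0) ZMod.val with hm
  have ps : ∀ i : ZMod k, pos (Sum.inl (some i)) = i.val := fun i => rfl
  have mi : ∀ i : ZMod k, m (Sum.inr i) = i.val := fun i => rfl
  set K : Set (Option (ZMod k) ⊕ ZMod k) := {x ∈ S | ∃ o, x = Sum.inl o} with hK
  set D : Set (Option (ZMod k) ⊕ ZMod k) := {x ∈ S | ∃ i, x = Sum.inr i} with hD
  have hKD : K ∪ D = S := by
    ext x
    constructor
    · rintro (h | h)
      · exact h.1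
      · exact h.1
    · intro h
      rcases x with x | x
      · exact Or.inl ⟨h, x, rfl⟩
      · exact Or.inr ⟨h, x, rfl⟩
  rw [← hKD]
  refine Circ.sun k ho hk pos m ?_ ?_ ?_ ?_ ?_ ?_ ?_ ?_
  · rintro _ ⟨h, (_ | i), rfl⟩
    · exact absurd h hS
    · rw [ps]; exact ZMod.val_lt i
  · rintro _ ⟨_, i, rfl⟩
    rw [mi]; exact ZMod.val_lt i
  · rintro _ ⟨h, (_ | i), rfl⟩ _ ⟨h', (_ | j), rfl⟩ hne
    · exact absurd h hS
    · exact absurd h hS
    · exact absurd h' hS
    · rw [ps, ps]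
      intro h
      exact hne (by rw [ZMod.val_injective k h])
  · rintro _ ⟨_, i, rfl⟩ _ ⟨_, j, rfl⟩ hne
    rw [mi, mi]
    intro h
    exact hne (by rw [ZMod.val_injective k h])
  · rw [Set.disjoint_left]
    rintro _ ⟨_, o, rfl⟩ ⟨_, i, h⟩
    exact absurd h (by simp)
  · rintro _ ⟨_, i, rfl⟩ _ ⟨_, j, rfl⟩ hne
    rw [csun_vv]
    exact fun h => hne (by rw [h])
  · rintro _ ⟨_, i, rfl⟩ _ ⟨_, j, rfl⟩
    exact csun_ww i j
  · rintro _ ⟨_, i, rfl⟩ _ ⟨h, (_ | j), rfl⟩
    · exact absurd h hS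
    · rw [csun_wv, ps, mi, ← zmod_succ_iff hk]
      simp

/-- the sun inside the centered sun -/
def sunEmb (k : ℕ) : sun k ↪g centeredSun k where
  toFun := Sum.elim (fun i => Sum.inl (some i)) Sum.inr
  inj' := by
    rintro (i | i) (j | j) h
    · simpa using h
    · simp at h
    · simp at h
    · simpa using h
  map_rel_iff' := by
    rintro (i | i) (j | j)
    · change (centeredSun k).Adj (Sum.inl (some i)) (Sum.inl (some j)) ↔ _
      rw [csun_vv, sun_vv]; simp
    · change (centeredSun k).Adj (Sum.inl (some i)) (Sum.inr j) ↔ _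
      rw [(centeredSun k).adj_comm, (sun k).adj_comm, csun_wv, sun_wv]; simp
    · change (centeredSun k).Adj (Sum.inr i) (Sum.inl (some j)) ↔ _
      rw [csun_wv, sun_wv]; simp
    · exact iff_of_false (csun_ww i j) (sun_ww i j)

lemma sun_circ (hk : 3 ≤ k) (S : Set (ZMod k ⊕ ZMod k)) (hS : S ≠ Set.univ) :
    Circ (sun k) S := by
  obtain ⟨x, hx⟩ := (Set.ne_univ_iff_exists_notMem S).mp hS
  have key : ∀ (i0 : ZMod k) (T : Set (Option (ZMod k) ⊕ ZMod k)),
      (Sum.inl (some i0) ∉ T ∨ Sum.inr i0 ∉ T) → (∀ y ∈ S, sunEmb k y ∈ T) →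
      Circ (sun k) S := fun i0 T h1 h2 => (csun_circ_aux hk i0 T h1).of_emb (sunEmb k) h2
  rcases x with i0 | i0
  · refine key i0 {Sum.inl (some i0)}ᶜ (Or.inl (by simp)) (fun y hy h => ?_)
    apply hx
    have : sunEmb k y = sunEmb k (Sum.inl i0) := h
    rw [← (sunEmb k).injective this]; exact hy
  · refine key i0 {Sum.inr i0}ᶜ (Or.inr (by simp)) (fun y hy h => ?_)
    apply hx
    have : sunEmb k y = sunEmb k (Sum.inr i0) := h
    rw [← (sunEmb k).injective this]; exact hy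

lemma csun_circ (hk : 3 ≤ k) (ho : Odd k) (S : Set (Option (ZMod k) ⊕ ZMod k))
    (hS : S ≠ Set.univ) : Circ (centeredSun k) S := by
  obtain ⟨x, hx⟩ := (Set.ne_univ_iff_exists_notMem S).mp hS
  rcases x with (_ | i0) | i0
  · exact csun_circ_center hk ho S hx
  · exact csun_circ_aux hk i0 S (Or.inl hx)
  · exact csun_circ_aux hk i0 S (Or.inr hx)

end sun

end Pool.Agent.Lib.MP_50b720_co
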