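import Pool.Agent.Lib.MP_50b720_co.Block

set_option autoImplicit false

namespace Pool.Agent.Lib.MP_50b720_co

variable {V : Type*}

/-- Naji's equations. -/
structure IsNaji (G : SimpleGraph V) (β : V → V → ZMod 2) : Prop where
  n1 : ∀ x y, G.Adj x y → β x y + β y x = 1
  n2 : ∀ x y z, x ≠ y → x ≠ z → ¬ G.Adj x y → ¬ G.Adj x z → G.Adj y z → β x y = β x z
  n3 : ∀ x y z, G.Adj x y → G.Adj x z → ¬ G.Adj y z → y ≠ z →
    β y z + β z y + β x y + β x z = 1

lemma Circ.naji {G : SimpleGraph V} (h : Circ G Set.univ) : ∃ β, IsNaji G β := by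
  classical
  obtain ⟨p0, q0, h1, h2⟩ := h
  obtain ⟨p, q, h3, h4⟩ : ∃ p q : V → ℤ, (∀ u, p u < q u) ∧ ∀ u v, u ≠ v → p u ≠ p v ∧
      p u ≠ q v ∧ q u ≠ p v ∧ q u ≠ q v ∧ (G.Adj u v ↔ Cross (p u) (q u) (p v) (q v)) := by
    refine ⟨fun u => min (p0 u) (q0 u), fun u => max (p0 u) (q0 u), fun u => ?_,
      fun u v huv => ?_⟩
    · have := h1 u trivial
      beta_reduce; omega
    · obtain ⟨e1, e2, e3, e4, e5⟩ := h2 u trivial v trivial huv
      have f1 := h1 u trivial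
      have f2 := h1 v trivial
      beta_reduce
      refine ⟨by omega, by omega, by omega, by omega, ?_⟩
      rw [e5]; unfold Cross Btw; omega
  refine ⟨fun x y => if p x < q y ∧ q y < q x then 1 else 0, ?_, ?_, ?_⟩
  · intro x y hxy
    obtain ⟨e1, e2, e3, e4, e5⟩ := h4 x y hxy.ne
    have f1 := h3 x
    have f2 := h3 y
    rw [e5] at hxy
    unfold Cross Btw at hxy
    beta_reduce
    split_ifs <;> first | (exfalso; omega) | decide
  · intro x y z hxy hxz nxy nxz hyz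
    obtain ⟨e1, e2, e3, e4, e5⟩ := h4 x y hxy
    obtain ⟨f1, f2, f3, f4, f5⟩ := h4 x z hxz
    obtain ⟨g1, g2, g3, g4, g5⟩ := h4 y z hyz.ne
    have d1 := h3 x
    have d2 := h3 y
    have d3 := h3 z
    rw [e5] at nxy
    rw [f5] at nxz
    rw [g5] at hyz
    unfold Cross Btw at nxy nxz hyz
    beta_reduce
    split_ifs <;> first | (exfalso; omega) | decide
  · intro x y z hxy hxz nyz hne
    obtain ⟨e1, e2, e3, e4, e5⟩ := h4 x y hxy.ne
    obtain ⟨f1, f2, f3, f4, f5⟩ := h4 x z hxz.ne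
    obtain ⟨g1, g2, g3, g4, g5⟩ := h4 y z hne
    have d1 := h3 x
    have d2 := h3 y
    have d3 := h3 z
    rw [e5] at hxy
    rw [f5] at hxz
    rw [g5] at nyz
    unfold Cross Btw at hxy hxz nyz
    beta_reduce
    split_ifs <;> first | (exfalso; omega) | decide

end Pool.Agent.Lib.MP_50b720_co
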