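import Mathlib

set_option autoImplicit false

namespace Pool.Agent.Lib.MP_50b720_co

variable {V : Type*}

/-- `x` lies strictly between `a` and `b`. -/
def Btw (a b x : ℤ) : Prop := (a < x ∧ x < b) ∨ (b < x ∧ x < a)

/-- The pairs `{a, b}` and `{c, d}` interlace. -/
def Cross (a b c d : ℤ) : Prop := (Btw a b c ∧ ¬ Btw a b d) ∨ (¬ Btw a b c ∧ Btw a b d)

/-- `p, q` is a chord diagram (integer positions of the ends of the chords) of `G[S]`. -/
def IsRep (G : SimpleGraph V) (S : Set V) (p q : V → ℤ) : Prop :=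
  (∀ u ∈ S, p u ≠ q u) ∧
  ∀ u ∈ S, ∀ v ∈ S, u ≠ v → p u ≠ p v ∧ p u ≠ q v ∧ q u ≠ p v ∧ q u ≠ q v ∧
    (G.Adj u v ↔ Cross (p u) (q u) (p v) (q v))

/-- The induced subgraph `G[S]` has a chord diagram. -/
def Circ (G : SimpleGraph V) (S : Set V) : Prop := ∃ p q : V → ℤ, IsRep G S p q

lemma cross_comm (a b c d : ℤ) (h1 : a ≠ c) (h2 : a ≠ d) (h3 : b ≠ c) (h4 : b ≠ d)
    (h5 : a ≠ b) (h6 : c ≠ d) :
    Cross a b c d ↔ Cross c d a b := by
  unfold Cross Btw; omega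

lemma cross_swap_left (a b c d : ℤ) : Cross a b c d ↔ Cross b a c d := by
  unfold Cross Btw; omega

lemma cross_swap_right (a b c d : ℤ) : Cross a b c d ↔ Cross a b d c := by
  unfold Cross Btw; omega

lemma cross_neg (a b c d : ℤ) : Cross (-a) (-b) (-c) (-d) ↔ Cross a b c d := by
  unfold Cross Btw; omega

/-- invariance under maps preserving the order of the four points -/
lemma cross_mono (a b c d a' b' c' d' : ℤ) (h1 : a < c ↔ a' < c') (h2 : a < d ↔ a' < d')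
    (h3 : b < c ↔ b' < c') (h4 : b < d ↔ b' < d') (h1' : c < a ↔ c' < a') (h2' : d < a ↔ d' < a')
    (h3' : c < b ↔ c' < b') (h4' : d < b ↔ d' < b') :
    Cross a b c d ↔ Cross a' b' c' d' := by
  unfold Cross Btw; simp only [h1, h2, h3, h4, h1', h2', h3', h4']

lemma Circ.mono {G : SimpleGraph V} {S T : Set V} (h : Circ G S) (hT : T ⊆ S) : Circ G T := by
  obtain ⟨p, q, h1, h2⟩ := h
  exact ⟨p, q, fun u hu => h1 u (hT hu), fun u hu v hv => h2 u (hT hu) v (hT hv)⟩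

lemma exists_bound [Finite V] (p q : V → ℤ) : ∃ K : ℤ, 0 < K ∧ ∀ u, -K < p u ∧ p u < K ∧
    -K < q u ∧ q u < K := by
  obtain ⟨a, ha⟩ := (Set.finite_range (fun u => |p u|)).bddAbove
  obtain ⟨b, hb⟩ := (Set.finite_range (fun u => |q u|)).bddAbove
  refine ⟨max (max a b) 0 + 1, by positivity, fun u => ?_⟩
  have h1 := ha ⟨u, rfl⟩
  have h2 := hb ⟨u, rfl⟩
  simp only at h1 h2
  have h3 := le_max_left a b
  have h4 := le_max_right a b
  have h5 := le_max_left (max a b) 0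
  have h6 := abs_le.mp h1
  have h7 := abs_le.mp h2
  refine ⟨?_, ?_, ?_, ?_⟩ <;> omega

/-- the rotation `x ↦ x + 3K` for `x < t` -/
def rot (K t x : ℤ) : ℤ := if x < t then x + 3 * K else x

lemma rot_inj {K t x y : ℤ} (hK : 0 < K) (hx : -K < x) (hx' : x < K) (hy : -K < y)
    (hy' : y < K) (h : x ≠ y) : rot K t x ≠ rot K t y := by
  unfold rot; split_ifs <;> omega

lemma rot_cross {K t a b c d : ℤ} (hK : 0 < K) (ha : -K < a ∧ a < K) (hb : -K < b ∧ b < K)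
    (hc : -K < c ∧ c < K) (hd : -K < d ∧ d < K) (h1 : a ≠ c) (h2 : a ≠ d) (h3 : b ≠ c)
    (h4 : b ≠ d) (h5 : a ≠ b) (h6 : c ≠ d) :
    Cross (rot K t a) (rot K t b) (rot K t c) (rot K t d) ↔ Cross a b c d := by
  unfold rot
  split_ifs <;> unfold Cross Btw <;> omega

lemma rot_min {K t x : ℤ} (hK : 0 < K) (ht : -K < t ∧ t < K) (hx : -K < x) (h : x ≠ t) :
    t < rot K t x := by
  unfold rot; split_ifs <;> omega

/-- We may assume that one end of the chord `y` comes first. -/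
lemma IsRep.exists_min [Finite V] {G : SimpleGraph V} {S : Set V} {p q : V → ℤ}
    (h : IsRep G S p q) {y : V} (hy : y ∈ S) :
    ∃ p' q' : V → ℤ, IsRep G S p' q' ∧ p' y < q' y ∧
      ∀ x ∈ S, x ≠ y → p' y < p' x ∧ p' y < q' x := by
  obtain ⟨K, hK, hb⟩ := exists_bound p q
  obtain ⟨h1, h2⟩ := h
  refine ⟨fun x => rot K (p y) (p x), fun x => rot K (p y) (q x), ⟨?_, ?_⟩, ?_, ?_⟩
  · intro u hu
    obtain ⟨b1, b2, b3, b4⟩ := hb u
    exact rot_inj hK b1 b2 b3 b4 (h1 u hu)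
  · intro u hu v hv huv
    obtain ⟨b1, b2, b3, b4⟩ := hb u
    obtain ⟨c1, c2, c3, c4⟩ := hb v
    obtain ⟨e1, e2, e3, e4, e5⟩ := h2 u hu v hv huv
    refine ⟨rot_inj hK b1 b2 c1 c2 e1, rot_inj hK b1 b2 c3 c4 e2, rot_inj hK b3 b4 c1 c2 e3,
      rot_inj hK b3 b4 c3 c4 e4, ?_⟩
    rw [e5]
    exact (rot_cross hK ⟨b1, b2⟩ ⟨b3, b4⟩ ⟨c1, c2⟩ ⟨c3, c4⟩ e1 e2 e3 e4 (h1 u hu) (h1 v hv)).symm
  · obtain ⟨b1, b2, b3, b4⟩ := hb y
    have : rot K (p y) (p y) = p y := by unfold rot; simp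
    simp only [this]
    exact rot_min hK ⟨b1, b2⟩ b3 (h1 y hy).symm
  · intro x hx hxy
    obtain ⟨b1, b2, b3, b4⟩ := hb y
    obtain ⟨c1, c2, c3, c4⟩ := hb x
    obtain ⟨e1, e2, e3, e4, e5⟩ := h2 x hx y hy hxy
    have : rot K (p y) (p y) = p y := by unfold rot; simp
    simp only [this]
    exact ⟨rot_min hK ⟨b1, b2⟩ c1 e1, rot_min hK ⟨b1, b2⟩ c3 e3⟩

open Classical in
/-- Disjoint union. -/
lemma Circ.disj [Finite V] {G : SimpleGraph V} {X Y : Set V} (hX : Circ G X) (hY : Circ G Y)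
    (hd : Disjoint X Y) (hn : ∀ x ∈ X, ∀ y ∈ Y, ¬ G.Adj x y) : Circ G (X ∪ Y) := by
  obtain ⟨p, q, h1, h2⟩ := hX
  obtain ⟨p', q', h1', h2'⟩ := hY
  obtain ⟨K, hK, hb⟩ := exists_bound p q
  obtain ⟨K', hK', hb'⟩ := exists_bound p' q'
  have hXY : ∀ y ∈ Y, y ∉ X := fun y hy hx => (Set.disjoint_left.mp hd hx hy)
  have key : ∀ x ∈ X, ∀ y ∈ Y, p x < p' y + (K + K') ∧ p x < q' y + (K + K') ∧
      q x < p' y + (K + K') ∧ q x < q' y + (K + K') := by
    intro x _ y _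
    obtain ⟨b1, b2, b3, b4⟩ := hb x
    obtain ⟨c1, c2, c3, c4⟩ := hb' y
    omega
  refine ⟨fun z => if z ∈ X then p z else p' z + (K + K'),
    fun z => if z ∈ X then q z else q' z + (K + K'), ?_, ?_⟩
  · rintro u (hu | hu)
    · simp only [hu, if_true]; exact h1 u hu
    · simp only [hXY u hu, if_false]; have := h1' u hu; omega
  · rintro u (hu | hu) v (hv | hv) huv
    · simp only [hu, hv, if_true]; exact h2 u hu v hv huv
    · simp only [hu, hXY v hv, if_true, if_false]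
      have h3 := key u hu v hv
      have h4 := hn u hu v hv
      refine ⟨by omega, by omega, by omega, by omega, ?_⟩
      simp only [h4, false_iff]
      unfold Cross Btw; omega
    · simp only [hv, hXY u hu, if_true, if_false]
      have h3 := key v hv u hu
      have h4 := hn v hv u hu
      rw [G.adj_comm] at h4
      refine ⟨by omega, by omega, by omega, by omega, ?_⟩
      simp only [h4, false_iff]
      unfold Cross Btw; omega
    · simp only [hXY u hu, hXY v hv, if_false]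
      obtain ⟨e1, e2, e3, e4, e5⟩ := h2' u hu v hv huv
      refine ⟨by omega, by omega, by omega, by omega, ?_⟩
      rw [e5]
      apply cross_mono <;> omega

/-- positions for the left part in the join -/
def jl (K β e : ℤ) : ℤ := if e < β then e else e + 4 * K
/-- positions for the right part in the join -/
def jr (K β e : ℤ) : ℤ := if e < β then e + 2 * K else e + 6 * K

lemma jl_mono {K β a b : ℤ} (hK : 0 < K) : a < b ↔ jl K β a < jl K β b := by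
  unfold jl; split_ifs <;> omega

lemma jr_mono {K β a b : ℤ} (hK : 0 < K) : a < b ↔ jr K β a < jr K β b := by
  unfold jr; split_ifs <;> omega

lemma jlr {K β β' a b : ℤ} (hK : 0 < K) (ha : -K < a ∧ a < K)
    (hb : -K < b ∧ b < K) (hb' : b ≠ β') :
    (jl K β a < jr K β' b ↔ (a < β ∨ ¬ b < β')) ∧ (jr K β' b < jl K β a ↔ ¬ (a < β ∨ ¬ b < β'))
      := by
  unfold jl jr; split_ifs <;> omega

open Classical in
/-- The join (`1`-join) of two circle graphs. -/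
lemma Circ.join [Finite V] {G : SimpleGraph V} {X Y : Set V} {x0 y0 : V}
    (hX : Circ G (X ∪ {y0})) (hY : Circ G (Y ∪ {x0})) (hd : Disjoint X Y) (hx0 : x0 ∈ X)
    (hy0 : y0 ∈ Y) (hn : ∀ x ∈ X, ∀ y ∈ Y, (G.Adj x y ↔ (G.Adj x y0 ∧ G.Adj x0 y))) :
    Circ G (X ∪ Y) := by
  obtain ⟨p0, q0, h0⟩ := hX
  obtain ⟨p0', q0', h0'⟩ := hY
  obtain ⟨p, q, ⟨h1, h2⟩, h3, h4⟩ := h0.exists_min (y := y0) (by simp)
  obtain ⟨p', q', ⟨h1', h2'⟩, h3', h4'⟩ := h0'.exists_min (y := x0) (by simp)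
  obtain ⟨K1, hK1, hb1⟩ := exists_bound p q
  obtain ⟨K2, hK2, hb2⟩ := exists_bound p' q'
  obtain ⟨K, hK, hb, hb'⟩ : ∃ K : ℤ, 0 < K ∧ (∀ u, -K < p u ∧ p u < K ∧ -K < q u ∧ q u < K) ∧
      (∀ u, -K < p' u ∧ p' u < K ∧ -K < q' u ∧ q' u < K) := by
    refine ⟨max K1 K2, lt_max_of_lt_left hK1, fun u => ?_, fun u => ?_⟩
    · have := hb1 u
      have := le_max_left K1 K2
      omega
    · have := hb2 u
      have := le_max_right K1 K2
      omega
  have hXY : ∀ y ∈ Y, y ∉ X := fun y hy hx => (Set.disjoint_left.mp hd hx hy)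
  have hy0X : y0 ∉ X := hXY y0 hy0
  have hx0Y : x0 ∉ Y := fun h => hXY x0 h hx0
  -- adjacency of `x ∈ X` with `y0`
  have adjX : ∀ x ∈ X, p x ≠ q y0 ∧ q x ≠ q y0 ∧
      (G.Adj x y0 ↔ ((p x < q y0 ∧ ¬ q x < q y0) ∨ (¬ p x < q y0 ∧ q x < q y0))) := by
    intro x hx
    have hne : x ≠ y0 := fun h => hy0X (h ▸ hx)
    obtain ⟨e1, e2, e3, e4, e5⟩ := h2 x (Or.inl hx) y0 (by simp) hne
    obtain ⟨f1, f2⟩ := h4 x (Or.inl hx) hne
    refine ⟨e2, e4, ?_⟩
    rw [e5]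
    unfold Cross Btw; omega
  have adjY : ∀ y ∈ Y, p' y ≠ q' x0 ∧ q' y ≠ q' x0 ∧
      (G.Adj x0 y ↔ ((p' y < q' x0 ∧ ¬ q' y < q' x0) ∨ (¬ p' y < q' x0 ∧ q' y < q' x0))) := by
    intro y hy
    have hne : y ≠ x0 := fun h => hx0Y (h ▸ hy)
    obtain ⟨e1, e2, e3, e4, e5⟩ := h2' y (Or.inl hy) x0 (by simp) hne
    obtain ⟨f1, f2⟩ := h4' y (Or.inl hy) hne
    refine ⟨e2, e4, ?_⟩
    rw [G.adj_comm, e5]
    unfold Cross Btw; omega
  -- mixed pairs
  have mixed : ∀ x ∈ X, ∀ y ∈ Y,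
      jl K (q y0) (p x) ≠ jr K (q' x0) (p' y) ∧ jl K (q y0) (p x) ≠ jr K (q' x0) (q' y) ∧
      jl K (q y0) (q x) ≠ jr K (q' x0) (p' y) ∧ jl K (q y0) (q x) ≠ jr K (q' x0) (q' y) ∧
      (G.Adj x y ↔ Cross (jl K (q y0) (p x)) (jl K (q y0) (q x)) (jr K (q' x0) (p' y))
        (jr K (q' x0) (q' y))) := by
    intro x hx y hy
    obtain ⟨a1, a2, a3⟩ := adjX x hx
    obtain ⟨b1, b2, b3⟩ := adjY y hy
    obtain ⟨c1, c2, c3, c4⟩ := hb x
    obtain ⟨d1, d2, d3, d4⟩ := hb' y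
    obtain ⟨m1, m1'⟩ := jlr (β := q y0) (β' := q' x0) (a := p x) (b := p' y) hK ⟨c1, c2⟩ ⟨d1, d2⟩ b1
    obtain ⟨m2, m2'⟩ := jlr (β := q y0) (β' := q' x0) (a := p x) (b := q' y) hK ⟨c1, c2⟩ ⟨d3, d4⟩ b2
    obtain ⟨m3, m3'⟩ := jlr (β := q y0) (β' := q' x0) (a := q x) (b := p' y) hK ⟨c3, c4⟩ ⟨d1, d2⟩ b1
    obtain ⟨m4, m4'⟩ := jlr (β := q y0) (β' := q' x0) (a := q x) (b := q' y) hK ⟨c3, c4⟩ ⟨d3, d4⟩ b2
    refine ⟨?_, ?_, ?_, ?_, ?_⟩
    · intro h; rw [h] at m1 m1'; simp only [lt_irrefl, false_iff] at m1 m1'; exact m1' m1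
    · intro h; rw [h] at m2 m2'; simp only [lt_irrefl, false_iff] at m2 m2'; exact m2' m2
    · intro h; rw [h] at m3 m3'; simp only [lt_irrefl, false_iff] at m3 m3'; exact m3' m3
    · intro h; rw [h] at m4 m4'; simp only [lt_irrefl, false_iff] at m4 m4'; exact m4' m4
    · rw [hn x hx y hy, a3, b3]
      unfold Cross Btw
      simp only [m1, m1', m2, m2', m3, m3', m4, m4']
      by_cases k1 : p x < q y0 <;> by_cases k2 : q x < q y0 <;>
        by_cases k3 : p' y < q' x0 <;> by_cases k4 : q' y < q' x0 <;> simp [k1, k2, k3, k4]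
  have jlinj : ∀ a b : ℤ, a ≠ b → jl K (q y0) a ≠ jl K (q y0) b := by
    intro a b h
    rcases lt_or_gt_of_ne h with h | h
    · exact ((jl_mono hK).mp h).ne
    · exact ((jl_mono hK).mp h).ne'
  have jrinj : ∀ a b : ℤ, a ≠ b → jr K (q' x0) a ≠ jr K (q' x0) b := by
    intro a b h
    rcases lt_or_gt_of_ne h with h | h
    · exact ((jr_mono hK).mp h).ne
    · exact ((jr_mono hK).mp h).ne'
  refine ⟨fun z => if z ∈ X then jl K (q y0) (p z) else jr K (q' x0) (p' z),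
    fun z => if z ∈ X then jl K (q y0) (q z) else jr K (q' x0) (q' z), ?_, ?_⟩
  · rintro u (hu | hu)
    · simp only [hu, if_true]; exact jlinj _ _ (h1 u (Or.inl hu))
    · simp only [hXY u hu, if_false]; exact jrinj _ _ (h1' u (Or.inl hu))
  · rintro u (hu | hu) v (hv | hv) huv
    · simp only [hu, hv, if_true]
      obtain ⟨e1, e2, e3, e4, e5⟩ := h2 u (Or.inl hu) v (Or.inl hv) huv
      refine ⟨jlinj _ _ e1, jlinj _ _ e2, jlinj _ _ e3, jlinj _ _ e4, ?_⟩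
      rw [e5]
      apply cross_mono <;> exact jl_mono hK
    · simp only [hu, hXY v hv, if_true, if_false]
      exact mixed u hu v hv
    · simp only [hv, hXY u hu, if_true, if_false]
      obtain ⟨e1, e2, e3, e4, e5⟩ := mixed v hv u hu
      refine ⟨e1.symm, e3.symm, e2.symm, e4.symm, ?_⟩
      rw [G.adj_comm, e5]
      exact cross_comm _ _ _ _ e1 e2 e3 e4 (jlinj _ _ (h1 v (Or.inl hv)))
        (jrinj _ _ (h1' u (Or.inl hu)))
    · simp only [hXY u hu, hXY v hv, if_false]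
      obtain ⟨e1, e2, e3, e4, e5⟩ := h2' u (Or.inl hu) v (Or.inl hv) huv
      refine ⟨jrinj _ _ e1, jrinj _ _ e2, jrinj _ _ e3, jrinj _ _ e4, ?_⟩
      rw [e5]
      apply cross_mono <;> exact jr_mono hK

end Pool.Agent.Lib.MP_50b720_co
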