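import Pool.Agent.Lib.MP_50b720_co.Block
import Pool.Agent.Lib.MP_50b720_co.Defs

set_option autoImplicit false

namespace Pool.Agent.Lib.MP_50b720_co

open SimpleGraph

variable {V : Type*}

/-! ### Components -/

/-- the vertices of `U` reachable from `a` inside `U` -/
def comp (G : SimpleGraph V) (U : Set V) (a : V) : Set V :=
  {x | Relation.ReflTransGen (fun u v => G.Adj u v ∧ u ∈ U ∧ v ∈ U) a x}

lemma self_mem_comp (G : SimpleGraph V) (U : Set V) (a : V) : a ∈ comp G U a :=
  Relation.ReflTransGen.refl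

lemma comp_sub {G : SimpleGraph V} {U : Set V} {a : V} (ha : a ∈ U) : comp G U a ⊆ U := by
  intro x hx
  rcases Relation.ReflTransGen.cases_tail hx with h | ⟨y, _, hy⟩
  · rw [h]; exact ha
  · exact hy.2.2

lemma comp_step {G : SimpleGraph V} {U : Set V} {a x y : V} (hx : x ∈ comp G U a) (hxU : x ∈ U)
    (hyU : y ∈ U) (h : G.Adj x y) : y ∈ comp G U a :=
  Relation.ReflTransGen.tail hx ⟨h, hxU, hyU⟩

lemma comp_symm {G : SimpleGraph V} {U : Set V} {a x : V} (hx : x ∈ comp G U a) :
    a ∈ comp G U x := by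
  unfold comp at *
  simp only [Set.mem_setOf_eq] at *
  induction hx with
  | refl => exact Relation.ReflTransGen.refl
  | tail _ h2 ih => exact Relation.ReflTransGen.head ⟨h2.1.symm, h2.2.2, h2.2.1⟩ ih

lemma comp_trans {G : SimpleGraph V} {U : Set V} {a x y : V} (hx : x ∈ comp G U a)
    (hy : y ∈ comp G U x) : y ∈ comp G U a :=
  Relation.ReflTransGen.trans hx hy

/-- a set closed under adjacency inside `U` containing `a` contains the component -/
lemma comp_subset_of_closed {G : SimpleGraph V} {U S : Set V} {a : V} (ha : a ∈ S)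
    (h : ∀ x ∈ S, x ∈ U → ∀ y ∈ U, G.Adj x y → y ∈ S) : comp G U a ⊆ S := by
  intro x hx
  unfold comp at hx
  simp only [Set.mem_setOf_eq] at hx
  induction hx with
  | refl => exact ha
  | tail _ h2 ih => exact h _ ih h2.2.1 _ h2.2.2 h2.1

lemma comp_cn {G : SimpleGraph V} {U : Set V} {a : V} (haU : a ∈ U) : Cn G (comp G U a) := by
  refine ⟨⟨a, self_mem_comp G U a⟩, fun T hT hne hneq => ?_⟩
  by_contra hcon
  push Not at hcon
  by_cases haT : a ∈ T
  · apply hneq
    apply Set.Subset.antisymm hT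
    apply comp_subset_of_closed haT
    intro x hx hxU y hy hxy
    by_contra hyT
    exact hcon x hx y ⟨comp_step (hT hx) hxU hy hxy, hyT⟩ hxy
  · obtain ⟨t, ht⟩ := hne
    have : comp G U a ⊆ comp G U a \ T := by
      apply comp_subset_of_closed (show a ∈ comp G U a \ T from ⟨self_mem_comp G U a, haT⟩)
      intro x hx hxU y hy hxy
      refine ⟨comp_step hx.1 hxU hy hxy, fun hyT => ?_⟩
      exact hcon y hyT x hx hxy.symm
    exact (this (hT ht)).2 ht

lemma Cn.add {G : SimpleGraph V} {A : Set V} (hA : Cn G A) {x : V} (hx : ∃ y ∈ A, G.Adj y x) :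
    Cn G (insert x A) := by
  obtain ⟨y, hy, hyx⟩ := hx
  refine ⟨⟨x, by simp⟩, fun T hT hne hneq => ?_⟩
  by_cases hTA : T ∩ A = ∅
  · -- `T = {x}`
    have hTx : T = {x} := by
      apply Set.Subset.antisymm
      · intro t ht
        rcases hT ht with h | h
        · exact h
        · exact absurd (show t ∈ T ∩ A from ⟨ht, h⟩) (by rw [hTA]; simp)
      · obtain ⟨t, ht⟩ := hne
        rcases hT ht with h | h
        · rw [← h]; simpa using ht
        · exact absurd (show t ∈ T ∩ A from ⟨ht, h⟩) (by rw [hTA]; simp)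
    refine ⟨x, by rw [hTx]; rfl, y, ⟨Or.inr hy, ?_⟩, hyx.symm⟩
    rw [hTx]
    intro h
    rw [Set.mem_singleton_iff] at h
    exact hyx.ne h
  · by_cases hall : T ∩ A = A
    · have hsub : A ⊆ T := by rw [← hall]; exact Set.inter_subset_left
      have hxT : x ∉ T := fun h => hneq (Set.Subset.antisymm hT (Set.insert_subset h hsub))
      exact ⟨y, hsub hy, x, ⟨by simp, hxT⟩, hyx⟩
    · obtain ⟨a, ha, b, hb, hab⟩ := hA.2 (T ∩ A) Set.inter_subset_right
        (Set.nonempty_iff_ne_empty.mpr hTA) hall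
      exact ⟨a, ha.1, b, ⟨Or.inr hb.1, fun h => hb.2 ⟨h, hb.1⟩⟩, hab⟩

lemma cn_singleton (G : SimpleGraph V) (a : V) : Cn G {a} := by
  refine ⟨⟨a, rfl⟩, fun T hT hne hneq => ?_⟩
  exfalso
  apply hneq
  exact (Set.subset_singleton_iff_eq.mp hT).resolve_left hne.ne_empty

/-- Connected sets with at least two elements have a non-cut vertex. -/
lemma Cn.noncut [Finite V] {G : SimpleGraph V} {A : Set V} (hA : Cn G A) (h2 : ∀ a, A ≠ {a}) :
    ∃ a ∈ A, Cn G (A \ {a}) := by
  obtain ⟨r, hr⟩ := hA.1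
  -- maximal connected proper subset
  have hfin : {B : Set V | B ⊆ A ∧ B ≠ A ∧ Cn G B}.Finite := Set.toFinite _
  obtain ⟨B, hB⟩ := hfin.exists_maximal ⟨{r}, by simpa using hr, fun h => h2 r h.symm,
    cn_singleton G r⟩
  obtain ⟨⟨hBA, hBne, hBcn⟩, hmax⟩ := hB
  obtain ⟨x, hx, y, hy, hxy⟩ := hA.2 B hBA hBcn.1 hBne
  have h3 : insert y B = A := by
    by_contra hne
    have := hmax (y := insert y B) ⟨Set.insert_subset hy.1 hBA, hne, hBcn.add ⟨x, hx, hxy⟩⟩
      (Set.subset_insert y B)
    exact hy.2 (this (Set.mem_insert y B))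
  refine ⟨y, hy.1, ?_⟩
  rw [← h3, Set.insert_diff_self_of_notMem hy.2]
  exact hBcn

/-! ### Common neighbours in chordal graphs -/

lemma cycle_adj_iff {n : ℕ} (hn : 3 ≤ n) {i j : Fin (n + 1)} (hij : i < j) :
    (cycleGraph (n + 1)).Adj i j ↔ (j.val = i.val + 1 ∨ (i.val = 0 ∧ j.val = n)) := by
  rw [cycleGraph_adj']
  have h1 : (i - j).val = i.val + (n + 1) - j.val := by
    rw [Fin.sub_def]
    simp only
    have := i.isLt; have := j.isLt; have : i.val < j.val := hij
    rw [Nat.mod_eq_of_lt (by omega)]; omega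
  have h2 : (j - i).val = j.val - i.val := by
    rw [Fin.sub_def]
    simp only
    have := i.isLt; have := j.isLt; have : i.val < j.val := hij
    rw [show n + 1 - i.val + j.val = (j.val - i.val) + (n + 1) by omega, Nat.add_mod_right,
      Nat.mod_eq_of_lt (by omega)]
  rw [h1, h2]
  have := i.isLt; have := j.isLt; have : i.val < j.val := hij
  omega

/-- The ends of an edge `xy` of a chordal graph, both having neighbours in a connected set `D`,
have a common neighbour in `D`. -/
theorem common_nbr {G : SimpleGraph V} (hG : IsChordal G) {x y : V} {D : Set V}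
    (hxy : G.Adj x y) (hD : Cn G D) (hx : x ∉ D) (hy : y ∉ D) (hxD : ∃ d ∈ D, G.Adj x d)
    (hyD : ∃ d ∈ D, G.Adj y d) : ∃ d ∈ D, G.Adj x d ∧ G.Adj y d := by
  classical
  by_contra hcon
  push Not at hcon
  let H : SimpleGraph V :=
    { Adj := fun u v => G.Adj u v ∧ u ∈ insert x (insert y D) ∧ v ∈ insert x (insert y D) ∧
        s(u, v) ≠ s(x, y)
      symm := by
        constructor
        intro u v h
        refine ⟨h.1.symm, h.2.2.1, h.2.1, ?_⟩
        rw [Sym2.eq_swap]; exact h.2.2.2
      loopless := ⟨fun u h => G.loopless.irrefl u h.1⟩ }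
  have hHadj : ∀ u v, H.Adj u v ↔ (G.Adj u v ∧ u ∈ insert x (insert y D) ∧
      v ∈ insert x (insert y D) ∧ s(u, v) ≠ s(x, y)) := fun u v => Iff.rfl
  obtain ⟨d1, hd1, hxd1⟩ := hxD
  obtain ⟨d2, hd2, hyd2⟩ := hyD
  have hxd1' : H.Adj x d1 := by
    rw [hHadj]
    refine ⟨hxd1, by simp, by simp [hd1], ?_⟩
    intro h
    rw [Sym2.eq_iff] at h
    rcases h with ⟨_, h⟩ | ⟨h, _⟩
    · exact hy (h ▸ hd1)
    · exact hxy.ne h
  have hyd2' : H.Adj y d2 := by
    rw [hHadj]
    refine ⟨hyd2, by simp, by simp [hd2], ?_⟩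
    intro h
    rw [Sym2.eq_iff] at h
    rcases h with ⟨h, _⟩ | ⟨_, h⟩
    · exact hxy.ne h.symm
    · exact hx (h ▸ hd2)
  have hreach : H.Reachable d1 d2 := by
    by_contra hnr
    obtain ⟨a, ha, b, hb, hab⟩ := hD.2 {d ∈ D | H.Reachable d1 d} (fun z hz => hz.1)
      ⟨d1, hd1, Reachable.refl d1⟩ (fun h => by
        have := h.symm.subset hd2
        exact hnr this.2)
    have hadj : H.Adj a b := by
      rw [hHadj]
      refine ⟨hab, by simp [ha.1], by simp [hb.1], ?_⟩
      intro h
      rw [Sym2.eq_iff] at h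
      rcases h with ⟨h, _⟩ | ⟨h, _⟩
      · exact hx (h ▸ ha.1)
      · exact hy (h ▸ ha.1)
    exact hb.2 ⟨hb.1, ha.2.trans hadj.reachable⟩
  have hreach2 : H.Reachable x y :=
    (hxd1'.reachable.trans hreach).trans hyd2'.symm.reachable
  obtain ⟨p, hp⟩ := hreach2.exists_walk_length_eq_dist
  have hpath := p.isPath_of_length_eq_dist hp
  have hinj := hpath.getVert_injOn
  have hinj' : ∀ i j, i ≤ p.length → j ≤ p.length → p.getVert i = p.getVert j → i = j :=
    fun i j hi hj h => hinj hi hj h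
  have hlen : 3 ≤ p.length := by
    by_contra hlt
    have h0 : p.getVert 0 = x := p.getVert_zero
    have hl : p.getVert p.length = y := p.getVert_length
    rcases Nat.lt_or_ge p.length 1 with h | h
    · have : p.length = 0 := by omega
      rw [this] at hl
      exact hxy.ne (h0.symm.trans hl)
    · rcases Nat.lt_or_ge p.length 2 with h' | h'
      · have h1 : p.length = 1 := by omega
        have := p.adj_getVert_succ (i := 0) (by omega)
        rw [h0] at this
        rw [h1] at hl
        rw [zero_add, hl, hHadj] at this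
        exact this.2.2.2 rfl
      · have h1 : p.length = 2 := by omega
        have e1 := p.adj_getVert_succ (i := 0) (by omega)
        have e2 := p.adj_getVert_succ (i := 1) (by omega)
        rw [h1] at hl
        rw [h0, zero_add, hHadj] at e1
        rw [show 1 + 1 = 2 from rfl, hl, hHadj] at e2
        have hz : p.getVert 1 ∈ D := by
          rcases e1.2.2.1 with h | h | h
          · exact absurd h.symm e1.1.ne
          · exact absurd h e2.1.ne
          · exact h
        exact hcon _ hz e1.1 e2.1.symm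
  -- all vertices lie in the set
  have hmem : ∀ i, i ≤ p.length → p.getVert i ∈ insert x (insert y D) := by
    intro i hi
    rcases Nat.lt_or_ge i p.length with h | h
    · exact (p.adj_getVert_succ h).2.1
    · have : i = p.length := by omega
      rw [this, p.getVert_length]; simp
  -- chords
  have hchord : ∀ i j, i < j → j ≤ p.length → (G.Adj (p.getVert i) (p.getVert j) ↔
      (j = i + 1 ∨ (i = 0 ∧ j = p.length))) := by
    intro i j hij hj
    constructor
    · intro hadj
      by_cases hends : i = 0 ∧ j = p.length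
      · exact Or.inr hends
      · left
        have hH : H.Adj (p.getVert i) (p.getVert j) := by
          rw [hHadj]
          refine ⟨hadj, hmem i (by omega), hmem j hj, ?_⟩
          intro h
          rw [Sym2.eq_iff] at h
          rcases h with ⟨h1, h2⟩ | ⟨h1, h2⟩
          · have h3 := hinj' i 0 (by omega) (by omega) (by rw [h1, p.getVert_zero])
            have h4 := hinj' j p.length hj le_rfl (by rw [h2, p.getVert_length])
            exact hends ⟨h3, h4⟩
          · have h3 := hinj' i p.length (by omega) le_rfl (by rw [h1, p.getVert_length])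
            omega
        have hq := H.dist_le ((p.take i).append (Walk.cons hH (p.drop j)))
        rw [Walk.length_append, Walk.length_cons, Walk.take_length, Walk.drop_length, ← hp] at hq
        omega
    · rintro (h | ⟨h1, h2⟩)
      · subst h
        exact (p.adj_getVert_succ (by omega)).1
      · subst h1 h2
        rw [p.getVert_zero, p.getVert_length]; exact hxy
  apply hG (p.length + 1) (by omega)
  refine ⟨⟨⟨fun i => p.getVert i.val, ?_⟩, ?_⟩⟩
  · intro i j hij
    have := i.isLt
    have := j.isLt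
    exact Fin.ext (hinj' i.val j.val (by omega) (by omega) hij)
  · intro i j
    change G.Adj (p.getVert i.val) (p.getVert j.val) ↔ _
    rcases lt_trichotomy i j with h | h | h
    · rw [cycle_adj_iff hlen h, hchord i.val j.val h (by have := j.isLt; omega)]
    · subst h; simp
    · rw [G.adj_comm, (cycleGraph (p.length + 1)).adj_comm, cycle_adj_iff hlen h,
        hchord j.val i.val h (by have := i.isLt; omega)]

/-- A vertex of a connected set adjacent to all vertices of a clique `T`, all of which have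
neighbours in the connected set. -/
theorem exists_full [Finite V] {G : SimpleGraph V} (hG : IsChordal G) {T : Set V}
    (hT : ∀ x ∈ T, ∀ y ∈ T, x ≠ y → G.Adj x y) :
    ∀ (A : Set V), Cn G A → (∀ t ∈ T, t ∉ A) → (∀ t ∈ T, ∃ a ∈ A, G.Adj t a) →
      ∃ a ∈ A, ∀ t ∈ T, G.Adj t a := by
  intro A
  induction A using WellFoundedLT.induction with
  | ind A ih =>
    intro hA hTA hnb
    by_cases h1 : ∃ a, A = {a}
    · obtain ⟨a, rfl⟩ := h1
      refine ⟨a, rfl, fun t ht => ?_⟩
      obtain ⟨b, hb, hb'⟩ := hnb t ht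
      rw [Set.mem_singleton_iff] at hb
      rw [← hb]; exact hb'
    · push Not at h1
      obtain ⟨a, ha, hcn⟩ := hA.noncut h1
      by_cases hall : ∀ t ∈ T, ∃ b ∈ A \ {a}, G.Adj t b
      · obtain ⟨b, hb, hb'⟩ := ih (A \ {a}) ⟨Set.diff_subset, fun h => (h ha).2 rfl⟩ hcn
          (fun t ht h => hTA t ht h.1) hall
        exact ⟨b, hb.1, hb'⟩
      · push Not at hall
        obtain ⟨t', ht', hno⟩ := hall
        have hta : ∀ b ∈ A, G.Adj t' b → b = a := by
          intro b hb hb'
          by_contra hne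
          exact hno b ⟨hb, hne⟩ hb'
        refine ⟨a, ha, fun t ht => ?_⟩
        by_cases htt : t = t'
        · subst htt
          obtain ⟨b, hb, hb'⟩ := hnb t ht
          rw [← hta b hb hb']; exact hb'
        · obtain ⟨d, hd, h3, h4⟩ := common_nbr hG (hT t ht t' ht' htt) hA (hTA t ht)
            (hTA t' ht') (hnb t ht) (hnb t' ht')
          rw [← hta d hd h4]; exact h3

/-! ### Minimal separators -/

/-- A minimal separator. -/
theorem exists_sep [Finite V] {G : SimpleGraph V} {U : Set V} {a b : V} (ha : a ∈ U)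
    (hb : b ∈ U) (hab : a ≠ b) (hnab : ¬ G.Adj a b) :
    ∃ T : Set V, T ⊆ U ∧ a ∉ T ∧ b ∉ T ∧ b ∉ comp G (U \ T) a ∧
      (∀ t ∈ T, ∃ x ∈ comp G (U \ T) a, G.Adj t x) ∧
      (∀ t ∈ T, ∃ x ∈ comp G (U \ T) b, G.Adj t x) := by
  have hfin : {T : Set V | T ⊆ U ∧ a ∉ T ∧ b ∉ T ∧ b ∉ comp G (U \ T) a}.Finite := Set.toFinite _
  obtain ⟨T, hT⟩ := hfin.exists_minimal ⟨U \ {a, b}, Set.diff_subset, by simp, by simp, by
    intro h
    have : comp G (U \ (U \ {a, b})) a ⊆ {a} := by
      apply comp_subset_of_closed (Set.mem_singleton a)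
      intro x hx _ y hy hxy
      rw [Set.mem_singleton_iff] at hx
      subst hx
      have : y ∈ ({x, b} : Set V) := by
        by_contra hne
        exact hy.2 ⟨hy.1, hne⟩
      rcases this with h | h
      · exact h
      · rw [Set.mem_singleton_iff] at h
        subst h; exact absurd hxy hnab
    exact hab (this h).symm⟩
  obtain ⟨⟨hTU, haT, hbT, hsep⟩, hmin⟩ := hT
  have haU : a ∈ U \ T := ⟨ha, haT⟩
  have hbU : b ∈ U \ T := ⟨hb, hbT⟩
  have key : ∀ t ∈ T, b ∈ comp G (U \ (T \ {t})) a := by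
    intro t ht
    by_contra hcon
    have := hmin (y := T \ {t}) ⟨Set.diff_subset.trans hTU, fun h => haT h.1, fun h => hbT h.1,
      hcon⟩ Set.diff_subset
    exact (this ht).2 rfl
  have step : ∀ c ∈ U \ T, ∀ t ∈ T, (∀ x ∈ comp G (U \ T) c, ¬ G.Adj t x) →
      comp G (U \ (T \ {t})) c ⊆ comp G (U \ T) c := by
    intro c hc t ht hno
    apply comp_subset_of_closed (self_mem_comp G _ c)
    intro x hx _ y hy hxy
    by_cases hyt : y = t
    · subst hyt; exact absurd hxy.symm (hno x hx)
    · exact comp_step hx (comp_sub hc hx) ⟨hy.1, fun h => hy.2 ⟨h, hyt⟩⟩ hxy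
  refine ⟨T, hTU, haT, hbT, hsep, fun t ht => ?_, fun t ht => ?_⟩
  · by_contra hcon
    push Not at hcon
    exact hsep (step a haU t ht hcon (key t ht))
  · by_contra hcon
    push Not at hcon
    exact hsep (comp_symm (step b hbU t ht hcon (comp_symm (key t ht))))

/-- Minimal separators of chordal graphs are cliques. -/
theorem sep_clique [Finite V] {G : SimpleGraph V} (hG : IsChordal G) {U T : Set V} {a b : V}
    (ha : a ∈ U \ T) (hb : b ∈ U \ T) (hTU : T ⊆ U)
    (hsep : b ∉ comp G (U \ T) a)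
    (hA : ∀ t ∈ T, ∃ x ∈ comp G (U \ T) a, G.Adj t x)
    (hB : ∀ t ∈ T, ∃ x ∈ comp G (U \ T) b, G.Adj t x) :
    ∀ x ∈ T, ∀ y ∈ T, x ≠ y → G.Adj x y := by
  intro x hx y hy hxy
  by_contra hnadj
  set A := comp G (U \ T) a with hAdef
  set B := comp G (U \ T) b with hBdef
  have hAU : A ⊆ U \ T := comp_sub ha
  have hBU : B ⊆ U \ T := comp_sub hb
  have hAB : ∀ z ∈ A, z ∉ B := by
    intro z hz hz'
    exact hsep (comp_trans hz (comp_symm hz'))
  have hnoAB : ∀ z ∈ A, ∀ z' ∈ B, ¬ G.Adj z z' := by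
    intro z hz z' hz' h
    exact hAB z' (comp_step hz (hAU hz) (hBU hz') h) hz'
  have hxA : x ∉ A := fun h => (hAU h).2 hx
  have hyA : y ∉ A := fun h => (hAU h).2 hy
  have hxB : x ∉ B := fun h => (hBU h).2 hx
  have hyB : y ∉ B := fun h => (hBU h).2 hy
  set D0 : Set V := A ∪ {y} ∪ {z ∈ B | ¬ G.Adj x z} with hD0
  have hyD0 : y ∈ D0 := Or.inl (Or.inr rfl)
  set D := comp G D0 y with hDdef
  have hDsub : D ⊆ D0 := comp_sub hyD0
  have hDcn : Cn G D := comp_cn hyD0
  have hAcn : Cn G A := comp_cn ha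
  have hBcn : Cn G B := comp_cn hb
  -- `A ⊆ D`
  have hAD : A ⊆ D := by
    by_contra hnot
    obtain ⟨y', hy', hyy'⟩ := hA y hy
    have hy'D : y' ∈ D := comp_step (self_mem_comp G D0 y) hyD0 (Or.inl (Or.inl hy')) hyy'
    obtain ⟨c, hc, d, hd, hcd⟩ := hAcn.2 (A ∩ D) Set.inter_subset_left ⟨y', hy', hy'D⟩
      (fun h => hnot (by rw [← h]; exact Set.inter_subset_right))
    exact hd.2 ⟨hd.1, comp_step hc.2 (hDsub hc.2) (Or.inl (Or.inl hd.1)) hcd⟩
  -- find `b'`
  have hBy : Cn G (insert y B) := by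
    obtain ⟨z, hz, hyz⟩ := hB y hy
    exact hBcn.add ⟨z, hz, hyz.symm⟩
  obtain ⟨xb, hxb, hxxb⟩ := hB x hx
  have hxbD : xb ∉ D := by
    intro h
    rcases hDsub h with (h' | h') | h'
    · exact hAB xb h' hxb
    · rw [Set.mem_singleton_iff] at h'; exact hyB (h' ▸ hxb)
    · exact h'.2 hxxb
  obtain ⟨d, hd, b', hb', hdb'⟩ := hBy.2 (insert y B ∩ D) Set.inter_subset_left
    ⟨y, by simp, self_mem_comp G D0 y⟩ (fun h => hxbD (by
      have h9 := h.symm.subset (Set.mem_insert_of_mem y hxb); exact h9.2))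
  have hb'D : b' ∉ D := fun h => hb'.2 ⟨hb'.1, h⟩
  have hb'B : b' ∈ B := by
    rcases hb'.1 with h | h
    · exact absurd (h ▸ self_mem_comp G D0 y) hb'D
    · exact h
  have hxb' : G.Adj x b' := by
    by_contra hno
    exact hb'D (comp_step hd.2 (hDsub hd.2) (Or.inr ⟨hb'B, hno⟩) hdb')
  have hxD : x ∉ D := by
    intro h
    rcases hDsub h with (h' | h') | h'
    · exact hxA h'
    · exact hxy h'
    · exact hxB h'.1
  obtain ⟨c, hc, hxc, hb'c⟩ := common_nbr hG hxb' hDcn hxD hb'D
    (by obtain ⟨z, hz, hxz⟩ := hA x hx; exact ⟨z, hAD hz, hxz⟩) ⟨d, hd.2, hdb'.symm⟩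
  rcases hDsub hc with (h' | h') | h'
  · exact hnoAB c h' b' hb'B hb'c.symm
  · rw [Set.mem_singleton_iff] at h'; subst h'; exact hnadj hxc
  · exact h'.2 hxc

end Pool.Agent.Lib.MP_50b720_co
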